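import Mathlib
import Pool.Agent.GR.Flow

open Topology Filter Set
open scoped ContDiff Manifold

namespace Pool.Agent.H74Z.KHAbs

noncomputable section

variable {E : Type} [NormedAddCommGroup E] [NormedSpace ℝ E]

/-- a smooth vector field on an open set along which the functional `J` grows at unit speed -/
structure Sys (E : Type) [NormedAddCommGroup E] [NormedSpace ℝ E] where
  U : Set E
  V : E → E
  J : E →L[ℝ] ℝ
  e : E
  isOpen : IsOpen U
  smooth : ContDiffOn ℝ ∞ V U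
  Je : J e = 1
  JV : ∀ x ∈ U, J (V x) = 1

/-- global flow agreeing with the field near a compact set -/
structure Fl (S : Sys E) (K : Set E) where
  φ : ℝ → E → E
  N : Set E
  smooth : ContDiff ℝ ∞ (fun p : ℝ × E => φ p.1 p.2)
  zero : ∀ x, φ 0 x = x
  add : ∀ s t x, φ (s + t) x = φ s (φ t x)
  Jφ : ∀ t x, S.J (φ t x) = S.J x + t
  isOpen : IsOpen N
  sub : K ⊆ N
  subU : N ⊆ S.U
  deriv : ∀ t x, φ t x ∈ N → HasDerivAt (fun t => φ t x) (S.V (φ t x)) t
  uniq : ∀ (γ : ℝ → E) (a b : ℝ), (∀ s ∈ uIcc a b, γ s ∈ N ∧ HasDerivAt γ (S.V (γ s)) s) →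
    ∀ s ∈ uIcc a b, γ s = φ (s - a) (γ a)

lemma exists_cutoff [FiniteDimensional ℝ E] {K U : Set E} (hK : IsCompact K) (hU : IsOpen U)
    (hKU : K ⊆ U) : ∃ χ : E → ℝ, ContDiff ℝ ∞ χ ∧ HasCompactSupport χ ∧ tsupport χ ⊆ U ∧
      ∀ᶠ x in 𝓝ˢ K, χ x = 1 := by
  obtain ⟨L, hL, hKL, hLU⟩ := exists_compact_between hK hU hKU
  obtain ⟨f, h1, h0, -⟩ := exists_contMDiffMap_one_nhds_of_subset_interior (n := ⊤) 𝓘(ℝ, E)
    hK.isClosed hKL
  have hs : tsupport f ⊆ L := by
    refine closure_minimal ?_ hL.isClosed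
    intro x hx
    by_contra h
    exact hx (h0 x h)
  refine ⟨f, f.contMDiff.contDiff, hL.of_isClosed_subset (isClosed_tsupport _) hs,
    hs.trans hLU, h1⟩

lemma contDiff_cut {F : Type} [NormedAddCommGroup F] [NormedSpace ℝ F] {U : Set E}
    (hU : IsOpen U) {χ : E → ℝ} (hχ : ContDiff ℝ ∞ χ) (hs : tsupport χ ⊆ U) {f : E → F}
    (hf : ContDiffOn ℝ ∞ f U) : ContDiff ℝ ∞ (fun x => χ x • f x) := by
  rw [contDiff_iff_contDiffAt]
  intro x
  by_cases hx : x ∈ U
  · exact hχ.contDiffAt.smul (hf.contDiffAt (hU.mem_nhds hx))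
  · have h : x ∉ tsupport χ := fun h => hx (hs h)
    have h2 : (fun x => χ x • f x) =ᶠ[𝓝 x] fun _ => 0 := by
      filter_upwards [notMem_tsupport_iff_eventuallyEq.1 h] with y hy
      simp [hy]
    exact contDiffAt_const.congr_of_eventuallyEq h2

theorem exists_fl [FiniteDimensional ℝ E] (S : Sys E) {K : Set E} (hK : IsCompact K)
    (hKU : K ⊆ S.U) : Nonempty (Fl S K) := by
  have : CompleteSpace E := FiniteDimensional.complete ℝ E
  obtain ⟨χ, hχ, hc, hs, h1⟩ := exists_cutoff hK S.isOpen hKU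
  set Y : E → E := fun x => χ x • (S.V x - S.e) with hY
  have hYs : ContDiff ℝ ∞ Y := contDiff_cut S.isOpen hχ hs (S.smooth.sub contDiffOn_const)
  have hYc : HasCompactSupport Y := hc.smul_right
  obtain ⟨C, hC⟩ := ContDiff.lipschitzWith_of_hasCompactSupport hYc hYs (by simp)
  obtain ⟨M, hM⟩ := hYc.exists_bound_of_continuous hYs.continuous
  set X : C(E, E) := ⟨fun x => Y x + S.e, hYs.continuous.add continuous_const⟩ with hX
  have hXs : ContDiff ℝ ∞ X := hYs.add contDiff_const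
  have hXL : LipschitzWith C X := by
    refine LipschitzWith.of_dist_le_mul fun x y => ?_
    have := hC.dist_le_mul x y
    simpa [hX] using this
  have hXM : ∀ x, ‖X x‖ ≤ (Real.toNNReal (M + ‖S.e‖) : NNReal) := by
    intro x
    refine le_trans ?_ (Real.le_coe_toNNReal _)
    exact (norm_add_le _ _).trans (add_le_add (hM x) le_rfl)
  choose γ h0 hd using Pool.Agent.GR.Flow.exists_solution hXL hXM
  have hfl : Pool.Agent.GR.Flow.IsFlowOf X (fun t x => γ x t) := ⟨h0, fun x t => hd x t⟩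
  have hJX : ∀ x, S.J (X x) = 1 := by
    intro x
    by_cases hx : x ∈ S.U
    · simp [hX, hY, S.JV x hx, S.Je]
    · have h : χ x = 0 := by
        by_contra h
        exact hx (hs (subset_tsupport _ h))
      simp [hX, hY, h, S.Je]
  obtain ⟨N0, hN0, hKN0, hN1⟩ := mem_nhdsSet_iff_exists.1 h1
  have hXV : ∀ x ∈ N0, X x = S.V x := by
    intro x hx
    have : χ x = 1 := hN1 hx
    simp [hX, hY, this]
  refine ⟨⟨fun t x => γ x t, N0 ∩ S.U, ?_, h0, fun s t x => hfl.add hXL s t x, ?_,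
    hN0.inter S.isOpen, subset_inter hKN0 hKU, inter_subset_right, ?_, ?_⟩⟩
  · rw [contDiff_infty]
    intro n
    refine (Pool.Agent.GR.Flow.contDiff_flow (m := n + 1) (by simp)
      (hXs.of_le (by exact_mod_cast le_top)) hXL hfl).of_le (by exact_mod_cast Nat.le_succ n)
  · intro t x
    have hder : ∀ t, HasDerivAt (fun t => S.J (γ x t) - t) 0 t := by
      intro t
      have := (S.J.hasFDerivAt.comp_hasDerivAt t (hd x t)).sub (hasDerivAt_id t)
      rw [hJX, sub_self] at this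
      exact this
    have := is_const_of_deriv_eq_zero (f := fun t => S.J (γ x t) - t)
      (fun t => (hder t).differentiableAt) (fun t => (hder t).deriv) t 0
    simp only [h0, sub_zero] at this
    linarith
  · intro t x hx
    have := hd x t
    rwa [hXV _ hx.1] at this
  · intro c a b hc s hs
    have hsh : ∀ t, HasDerivAt (fun t => γ (c a) (t - a)) (X (γ (c a) (t - a))) t := by
      intro t
      have := (hd (c a) (t - a)).scomp t ((hasDerivAt_id t).sub_const a)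
      rw [one_smul] at this
      exact this
    have hc' : ∀ t ∈ uIcc a b, HasDerivAt c (X (c t)) t := by
      intro t ht
      rw [hXV _ (hc t ht).1.1]
      exact (hc t ht).2
    have ha : c a = γ (c a) (a - a) := by rw [sub_self, h0]
    rcases le_total a b with hab | hab
    · rw [uIcc_of_le hab] at hs hc'
      exact ODE_solution_unique_of_mem_Icc_right (v := fun _ => X) (s := fun _ => univ) (K := C)
        (fun _ _ => hXL.lipschitzOnWith)
        (fun t ht => (hc' t ht).continuousAt.continuousWithinAt)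
        (fun t ht => (hc' t (Ico_subset_Icc_self ht)).hasDerivWithinAt) (fun _ _ => trivial)
        (fun t _ => (hsh t).continuousAt.continuousWithinAt)
        (fun t _ => (hsh t).hasDerivWithinAt) (fun _ _ => trivial) ha hs
    · rw [uIcc_of_ge hab] at hs hc'
      exact ODE_solution_unique_of_mem_Icc_left (v := fun _ => X) (s := fun _ => univ) (K := C)
        (fun _ _ => hXL.lipschitzOnWith)
        (fun t ht => (hc' t ht).continuousAt.continuousWithinAt)
        (fun t ht => (hc' t (Ioc_subset_Icc_self ht)).hasDerivWithinAt) (fun _ _ => trivial)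
        (fun t _ => (hsh t).continuousAt.continuousWithinAt)
        (fun t _ => (hsh t).hasDerivWithinAt) (fun _ _ => trivial) ha hs

/-- `y` and `x` are joined by an orbit segment in `U`, parametrised by the value of `J` -/
def Conn (S : Sys E) (y x : E) : Prop :=
  ∃ γ : ℝ → E, γ (S.J y) = y ∧ γ (S.J x) = x ∧
    ∀ s ∈ uIcc (S.J y) (S.J x), γ s ∈ S.U ∧ HasDerivAt γ (S.V (γ s)) s

lemma Conn.symm {S : Sys E} {y x : E} (h : Conn S y x) : Conn S x y := by
  obtain ⟨γ, h1, h2, h3⟩ := h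
  exact ⟨γ, h2, h1, fun s hs => h3 s (by rwa [uIcc_comm])⟩

lemma Conn.left {S : Sys E} {y x : E} (h : Conn S y x) : y ∈ S.U := by
  obtain ⟨γ, h1, -, h3⟩ := h
  rw [← h1]
  exact (h3 _ left_mem_uIcc).1

lemma Conn.right {S : Sys E} {y x : E} (h : Conn S y x) : x ∈ S.U := h.symm.left

lemma Fl.conn {S : Sys E} {K : Set E} (F : Fl S K) {y : E} {c : ℝ}
    (h : ∀ s ∈ uIcc (S.J y) c, F.φ (s - S.J y) y ∈ F.N) : Conn S y (F.φ (c - S.J y) y) := by
  have hJ : S.J (F.φ (c - S.J y) y) = c := by rw [F.Jφ]; ring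
  refine ⟨fun s => F.φ (s - S.J y) y, by simp [F.zero], by simp only [hJ], ?_⟩
  rw [hJ]
  intro s hs
  refine ⟨F.subU (h s hs), ?_⟩
  have := (F.deriv _ _ (h s hs)).scomp s ((hasDerivAt_id s).sub_const (S.J y))
  rw [one_smul] at this
  exact this

lemma isCompact_curve {S : Sys E} {γ : ℝ → E} {a b : ℝ}
    (h : ∀ s ∈ uIcc a b, γ s ∈ S.U ∧ HasDerivAt γ (S.V (γ s)) s) :
    IsCompact (γ '' uIcc a b) ∧ γ '' uIcc a b ⊆ S.U := by
  refine ⟨isCompact_uIcc.image_of_continuousOn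
    fun s hs => (h s hs).2.continuousAt.continuousWithinAt, ?_⟩
  rintro _ ⟨s, hs, rfl⟩
  exact (h s hs).1

variable [FiniteDimensional ℝ E]

lemma Conn.refl {S : Sys E} {y : E} (hy : y ∈ S.U) : Conn S y y := by
  obtain ⟨F⟩ := exists_fl S (K := {y}) isCompact_singleton (singleton_subset_iff.2 hy)
  have := F.conn (y := y) (c := S.J y) (by
    intro s hs
    rw [uIcc_self, mem_singleton_iff] at hs
    rw [hs, sub_self, F.zero]
    exact F.sub rfl)
  rwa [sub_self, F.zero] at this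

lemma Conn.trans {S : Sys E} {y x w : E} (h : Conn S y x) (h' : Conn S x w) : Conn S y w := by
  obtain ⟨γ, h1, h2, h3⟩ := h
  obtain ⟨δ, k1, k2, k3⟩ := h'
  obtain ⟨F⟩ := exists_fl S ((isCompact_curve h3).1.union (isCompact_curve k3).1)
    (union_subset (isCompact_curve h3).2 (isCompact_curve k3).2)
  have hγ : ∀ s ∈ uIcc (S.J y) (S.J x), γ s ∈ F.N := fun s hs => F.sub (Or.inl ⟨s, hs, rfl⟩)
  have hδ : ∀ s ∈ uIcc (S.J x) (S.J w), δ s ∈ F.N := fun s hs => F.sub (Or.inr ⟨s, hs, rfl⟩)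
  have e1 := F.uniq γ _ _ fun s hs => ⟨hγ s hs, (h3 s hs).2⟩
  have e2 := F.uniq δ _ _ fun s hs => ⟨hδ s hs, (k3 s hs).2⟩
  rw [h1] at e1
  rw [k1] at e2
  have ex : x = F.φ (S.J x - S.J y) y := by rw [← e1 _ right_mem_uIcc, h2]
  have e3 : ∀ s ∈ uIcc (S.J x) (S.J w), δ s = F.φ (s - S.J y) y := by
    intro s hs
    have e4 : F.φ (s - S.J x) x = F.φ (s - S.J x) (F.φ (S.J x - S.J y) y) := by rw [← ex]
    rw [e2 s hs, e4, ← F.add]
    congr 1
    ring
  have := F.conn (y := y) (c := S.J w) (by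
    intro s hs
    rcases uIcc_subset_uIcc_union_uIcc (b := S.J x) hs with h | h
    · rw [← e1 s h]; exact hγ s h
    · rw [← e3 s h]; exact hδ s h)
  rwa [← e3 _ right_mem_uIcc, k2] at this

omit [FiniteDimensional ℝ E] in
lemma Conn.eq {S : Sys E} {y x : E} (h : Conn S y x) (hJ : S.J y = S.J x) : y = x := by
  obtain ⟨γ, h1, h2, -⟩ := h
  rw [← h1, hJ, h2]

lemma Conn.unique {S : Sys E} {y x x' : E} (h : Conn S y x) (h' : Conn S y x')
    (hJ : S.J x = S.J x') : x = x' := (h.symm.trans h').eq hJ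

lemma Conn.local {S : Sys E} {y x : E} (h : Conn S y x) :
    ∃ (K : Set E) (F : Fl S K), F.φ (S.J x - S.J y) y = x ∧
      ∀ᶠ q in 𝓝 (y, S.J x), Conn S q.1 (F.φ (q.2 - S.J q.1) q.1) := by
  obtain ⟨γ, h1, h2, h3⟩ := h
  obtain ⟨F⟩ := exists_fl S (isCompact_curve h3).1 (isCompact_curve h3).2
  have hγ : ∀ s ∈ uIcc (S.J y) (S.J x), γ s ∈ F.N := fun s hs => F.sub ⟨s, hs, rfl⟩
  have e1 := F.uniq γ _ _ fun s hs => ⟨hγ s hs, (h3 s hs).2⟩
  rw [h1] at e1
  refine ⟨_, F, by rw [← e1 _ right_mem_uIcc, h2], ?_⟩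
  have hcont : Continuous (fun r : (E × ℝ) × ℝ => F.φ (r.2 * (r.1.2 - S.J r.1.1)) r.1.1) :=
    F.smooth.continuous.comp (f := fun r : (E × ℝ) × ℝ => (r.2 * (r.1.2 - S.J r.1.1), r.1.1))
      (by fun_prop)
  have hev := (isCompact_Icc (a := (0:ℝ)) (b := 1)).eventually_forall_of_forall_eventually
    (x₀ := (y, S.J x)) (P := fun q t => F.φ (t * (q.2 - S.J q.1)) q.1 ∈ F.N) (by
      intro t ht
      refine hcont.continuousAt.eventually (F.isOpen.mem_nhds ?_)
      have hs : S.J y + t * (S.J x - S.J y) ∈ uIcc (S.J y) (S.J x) := by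
        rw [← segment_eq_uIcc, segment_eq_image']
        exact ⟨t, ht, rfl⟩
      have := hγ _ hs
      rw [e1 _ hs, add_sub_cancel_left] at this
      exact this)
  filter_upwards [hev] with q hq
  refine F.conn fun s hs => ?_
  rw [← segment_eq_uIcc, segment_eq_image'] at hs
  obtain ⟨t, ht, rfl⟩ := hs
  simpa using hq t ht

lemma Conn.local' {S : Sys E} {y x : E} (h : Conn S y x) :
    ∃ Ψ : E → E, ContDiff ℝ ∞ Ψ ∧ Ψ y = x ∧ (∀ y', S.J (Ψ y') = S.J x) ∧
      ∀ᶠ y' in 𝓝 y, Conn S y' (Ψ y') := by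
  obtain ⟨K, F, h1, h2⟩ := h.local
  refine ⟨fun y' => F.φ (S.J x - S.J y') y', ?_, h1, fun y' => by rw [F.Jφ]; ring, ?_⟩
  · exact F.smooth.comp (f := fun y' : E => (S.J x - S.J y', y'))
      ((contDiff_const.sub S.J.contDiff).prodMk contDiff_id)
  · have hc : ContinuousAt (fun y' : E => (y', S.J x)) y := by fun_prop
    exact hc.eventually h2

lemma exists_curve {S : Sys E} {y : E} (hy : y ∈ S.U) :
    ∃ γ : ℝ → E, γ 0 = y ∧ HasDerivAt γ (S.V y) 0 ∧ (∀ t, S.J (γ t) = S.J y + t) ∧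
      ∀ᶠ t in 𝓝 (0:ℝ), Conn S y (γ t) := by
  obtain ⟨F⟩ := exists_fl S (K := {y}) isCompact_singleton (singleton_subset_iff.2 hy)
  have hN : F.φ 0 y ∈ F.N := by rw [F.zero]; exact F.sub rfl
  have hd := F.deriv 0 y hN
  refine ⟨fun t => F.φ t y, F.zero y, by simpa only [F.zero] using hd, fun t => F.Jφ t y, ?_⟩
  have hev : ∀ᶠ t in 𝓝 (0:ℝ), F.φ t y ∈ F.N := hd.continuousAt.eventually (F.isOpen.mem_nhds hN)
  obtain ⟨ε, hε, hb⟩ := Metric.eventually_nhds_iff.1 hev
  filter_upwards [Metric.ball_mem_nhds (0:ℝ) hε] with t ht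
  have := F.conn (y := y) (c := S.J y + t) (by
    intro s hs
    apply hb
    rw [Metric.mem_ball, Real.dist_eq, sub_zero] at ht
    rw [Real.dist_eq, sub_zero]
    have h2 := abs_sub_left_of_mem_uIcc hs
    rw [add_sub_cancel_left] at h2
    exact lt_of_le_of_lt h2 ht)
  rwa [add_sub_cancel_left] at this

omit [FiniteDimensional ℝ E] in
lemma curve_const {S : Sys E} {γ : ℝ → E} {a b : ℝ} {f : E → ℝ} {c : ℝ}
    (h : ∀ s ∈ uIcc a b, γ s ∈ S.U ∧ HasDerivAt γ (S.V (γ s)) s)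
    (hf : ∀ x ∈ S.U, ∃ f' : E →L[ℝ] ℝ, HasFDerivAt f f' x ∧ f' (S.V x) = c) :
    ∀ s ∈ uIcc a b, f (γ s) - c * s = f (γ a) - c * a := by
  have hd : ∀ s ∈ uIcc a b, HasDerivAt (fun s => f (γ s) - c * s) 0 s := by
    intro s hs
    obtain ⟨f', h1, h2⟩ := hf _ (h s hs).1
    have := (h1.comp_hasDerivAt s (h s hs).2).sub ((hasDerivAt_id s).const_mul c)
    rw [h2, mul_one, sub_self] at this
    exact this
  intro s hs
  rcases le_total a b with hab | hab
  · rw [uIcc_of_le hab] at hs hd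
    exact constant_of_has_deriv_right_zero
      (fun t ht => (hd t ht).continuousAt.continuousWithinAt)
      (fun t ht => (hd t (Ico_subset_Icc_self ht)).hasDerivWithinAt) s hs
  · rw [uIcc_of_ge hab] at hs hd
    have := constant_of_has_deriv_right_zero
      (fun t ht => (hd t ht).continuousAt.continuousWithinAt)
      (fun t ht => (hd t (Ico_subset_Icc_self ht)).hasDerivWithinAt)
    rw [this s hs, this a (right_mem_Icc.2 hab)]

/-- orbit segments with end points in a compact set, on which `J` keeps its sign, stay in a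
compact set -/
def NR (S : Sys E) : Prop :=
  ∀ A : Set E, IsCompact A → A ⊆ S.U → ∃ K : Set E, IsCompact K ∧ K ⊆ S.U ∧
    ∀ (γ : ℝ → E) (a b : ℝ), 0 < a * b → γ a ∈ A → γ b ∈ A → S.J (γ a) = a →
      (∀ s ∈ uIcc a b, γ s ∈ S.U ∧ HasDerivAt γ (S.V (γ s)) s) → ∀ s ∈ uIcc a b, γ s ∈ K

/-- saturation -/
def sat (S : Sys E) (K : Set E) : Set E := {y | ∃ x ∈ K, Conn S y x}

lemma sat_of_conn {S : Sys E} {K : Set E} {y x : E} (h : Conn S y x) (hx : x ∈ sat S K) :
    y ∈ sat S K := by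
  obtain ⟨w, hw, h2⟩ := hx
  exact ⟨w, hw, h.trans h2⟩

lemma closure_sat_of_conn {S : Sys E} {K : Set E} {y x : E} (h : Conn S y x)
    (hy : y ∈ closure (sat S K)) : x ∈ closure (sat S K) := by
  obtain ⟨Ψ, hΨ, h1, -, h2⟩ := h.local'
  rw [← h1]
  have hfr : ∃ᶠ y' in 𝓝 y, y' ∈ sat S K := mem_closure_iff_frequently.1 hy
  refine mem_closure_of_frequently_of_tendsto ?_ hΨ.continuous.continuousAt
  exact (hfr.and_eventually h2).mono fun y' hy' => sat_of_conn hy'.2.symm hy'.1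

lemma sat_closed_same {S : Sys E} (hNR : NR S) {K : Set E} (hK : IsCompact K) (hKU : K ⊆ S.U)
    {c : ℝ} (hc : ∀ x ∈ K, S.J x = c) {y : E} (hy : y ∈ S.U) (hs : 0 < S.J y * c)
    (hcl : y ∈ closure (sat S K)) : y ∈ sat S K := by
  have ho : IsOpen (S.U ∩ {y' | 0 < S.J y' * c}) :=
    S.isOpen.inter (isOpen_lt continuous_const (by fun_prop))
  obtain ⟨B, hBn, hBs, hBc⟩ := local_compact_nhds (ho.mem_nhds ⟨hy, hs⟩)
  obtain ⟨K', hK', hK'U, hseg⟩ := hNR (K ∪ B) (hK.union hBc)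
    (union_subset hKU (hBs.trans inter_subset_left))
  obtain ⟨F⟩ := exists_fl S hK' hK'U
  set T : Set E := {y' | ∀ t ∈ Icc (0:ℝ) 1, F.φ (t * (c - S.J y')) y' ∈ K'} ∩
    {y' | F.φ (c - S.J y') y' ∈ K} with hT
  have hφ : ∀ f : E → ℝ, Continuous f → Continuous (fun y' => F.φ (f y') y') := fun f hf =>
    F.smooth.continuous.comp (f := fun y' : E => (f y', y')) (by fun_prop)
  have hTc : IsClosed T := by
    refine IsClosed.inter ?_ (hK.isClosed.preimage (hφ _ (by fun_prop)))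
    simp only [ofPred_forall]
    exact isClosed_iInter fun t => isClosed_iInter fun _ =>
      hK'.isClosed.preimage (hφ _ (by fun_prop))
  have hsub : sat S K ∩ B ⊆ T := by
    rintro y' ⟨⟨x, hx, γ, h1, h2, h3⟩, hB⟩
    rw [hc x hx] at h2 h3
    have hin := hseg γ _ _ (hBs hB).2 (by rw [h1]; exact Or.inr hB) (by rw [h2]; exact Or.inl hx)
      (by rw [h1]) h3
    have e1 := F.uniq γ _ _ fun s hs => ⟨F.sub (hin s hs), (h3 s hs).2⟩
    rw [h1] at e1
    refine ⟨fun t ht => ?_, ?_⟩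
    · have hs : S.J y' + t * (c - S.J y') ∈ uIcc (S.J y') c := by
        rw [← segment_eq_uIcc, segment_eq_image']
        exact ⟨t, ht, rfl⟩
      have := hin _ hs
      rwa [e1 _ hs, add_sub_cancel_left] at this
    · show F.φ (c - S.J y') y' ∈ K
      rw [← e1 _ right_mem_uIcc, h2]
      exact hx
  have hyT : y ∈ T := by
    refine hTc.closure_subset (closure_mono hsub ?_)
    rw [mem_closure_iff_frequently] at hcl ⊢
    exact hcl.and_eventually hBn
  refine ⟨_, hyT.2, F.conn fun s hs => F.sub ?_⟩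
  rw [← segment_eq_uIcc, segment_eq_image'] at hs
  obtain ⟨t, ht, rfl⟩ := hs
  simpa using hyT.1 t ht

/-- points whose orbit meets both signs of `J` -/
def Both (S : Sys E) : Set E :=
  {y | ∃ x x', Conn S y x ∧ Conn S y x' ∧ S.J x * S.J x' < 0}

lemma isOpen_both (S : Sys E) : IsOpen (Both S) := by
  rw [isOpen_iff_mem_nhds]
  rintro y ⟨x, x', h, h', hs⟩
  obtain ⟨Ψ, -, -, h2, h3⟩ := h.local'
  obtain ⟨Ψ', -, -, h2', h3'⟩ := h'.local'
  filter_upwards [h3, h3'] with y' a b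
  exact ⟨_, _, a, b, by rwa [h2, h2']⟩

/-- the good set -/
def Good (S : Sys E) : Set E := S.U ∩ {y | S.J y ≠ 0} ∩ (Both S ∪ interior (Both S)ᶜ)

lemma exists_section {S : Sys E} (hNR : NR S) {y₀ : E} (hy₀ : y₀ ∈ Good S) :
    ∃ B ∈ 𝓝 y₀, IsCompact B ∧ B ⊆ S.U ∧ ∀ y ∈ S.U,
      y ∈ closure (sat S (B ∩ {x | S.J x = S.J y₀})) → y ∈ sat S (B ∩ {x | S.J x = S.J y₀}) := by
  obtain ⟨⟨hU, hJ⟩, hG⟩ := hy₀
  have hJ' : S.J y₀ ≠ 0 := hJ
  have hcl : IsClosed {x | S.J x = S.J y₀} := isClosed_eq (by fun_prop) continuous_const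
  suffices h : ∃ B ∈ 𝓝 y₀, IsCompact B ∧ B ⊆ S.U ∧ ∀ y ∈ S.U, S.J y * S.J y₀ < 0 →
      y ∈ closure (sat S (B ∩ {x | S.J x = S.J y₀})) → y ∈ sat S (B ∩ {x | S.J x = S.J y₀}) by
    obtain ⟨B, hB, hBc, hBU, h⟩ := h
    refine ⟨B, hB, hBc, hBU, ?_⟩
    have key : ∀ y ∈ S.U, S.J y ≠ 0 → y ∈ closure (sat S (B ∩ {x | S.J x = S.J y₀})) →
        y ∈ sat S (B ∩ {x | S.J x = S.J y₀}) := by
      intro y hy hy0 hyc
      rcases lt_or_gt_of_ne (mul_ne_zero hy0 hJ') with hl | hl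
      · exact h y hy hl hyc
      · exact sat_closed_same hNR (hBc.inter_right hcl) (inter_subset_left.trans hBU)
          (fun x hx => hx.2) hy hl hyc
    intro y hy hyc
    by_cases hy0 : S.J y = 0
    · obtain ⟨γ, -, -, h3, h4⟩ := exists_curve hy
      have h5 : ∃ᶠ t in 𝓝 (0:ℝ), t ≠ 0 :=
        mem_closure_iff_frequently.1 (dense_compl_singleton (0:ℝ) 0)
      obtain ⟨t, ht, hc⟩ := (h5.and_eventually h4).exists
      refine sat_of_conn hc (key _ hc.right ?_ (closure_sat_of_conn hc hyc))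
      rw [h3, hy0, zero_add]
      exact ht
    · exact key y hy hy0 hyc
  rcases hG with hG | hG
  · obtain ⟨x, x', h, h', hs⟩ := hG
    obtain ⟨w, hw, hws⟩ : ∃ w, Conn S y₀ w ∧ S.J w * S.J y₀ < 0 := by
      by_cases h1 : S.J x * S.J y₀ < 0
      · exact ⟨x, h, h1⟩
      · refine ⟨x', h', ?_⟩
        have hx : S.J x ≠ 0 := by
          intro h0
          rw [h0, zero_mul] at hs
          exact lt_irrefl _ hs
        have h2 : 0 < S.J x * S.J y₀ := lt_of_le_of_ne (not_lt.1 h1) (mul_ne_zero hx hJ').symm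
        have h3 : (S.J x * S.J x') * (S.J x * S.J y₀) < 0 := mul_neg_of_neg_of_pos hs h2
        have h4 : 0 < S.J x * S.J x := mul_self_pos.2 hx
        by_contra h5
        have h6 := mul_nonneg h4.le (not_lt.1 h5)
        nlinarith
    obtain ⟨Ψ, hΨ, -, h2, h3⟩ := hw.local'
    obtain ⟨B, hBn, hBs, hBc⟩ := local_compact_nhds h3
    refine ⟨B, hBn, hBc, fun y hy => (hBs hy).left, ?_⟩
    intro y hy hl hyc
    have he : sat S (B ∩ {x | S.J x = S.J y₀}) = sat S (Ψ '' (B ∩ {x | S.J x = S.J y₀})) := by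
      ext u
      constructor
      · rintro ⟨v, hv, hc⟩
        exact ⟨_, ⟨v, hv, rfl⟩, hc.trans (hBs hv.1)⟩
      · rintro ⟨_, ⟨v, hv, rfl⟩, hc⟩
        exact ⟨v, hv, hc.trans (Conn.symm (hBs hv.1))⟩
    rw [he] at hyc ⊢
    refine sat_closed_same hNR ((hBc.inter_right hcl).image hΨ.continuous) ?_ (c := S.J w) ?_ hy
      ?_ hyc
    · rintro _ ⟨v, hv, rfl⟩
      exact Conn.right (hBs hv.1)
    · rintro _ ⟨v, -, rfl⟩
      exact h2 v
    · have h3 : 0 < (S.J y * S.J y₀) * (S.J w * S.J y₀) := mul_pos_of_neg_of_neg hl hws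
      have h4 : 0 < S.J y₀ * S.J y₀ := mul_self_pos.2 hJ'
      by_contra h5
      have h6 := mul_nonneg h4.le (neg_nonneg.2 (not_lt.1 h5))
      nlinarith
  · obtain ⟨B, hBn, hBs, hBc⟩ := local_compact_nhds
      ((S.isOpen.inter isOpen_interior).mem_nhds ⟨hU, hG⟩)
    refine ⟨B, hBn, hBc, hBs.trans inter_subset_left, ?_⟩
    intro y hy hl hyc
    exfalso
    have ho : IsOpen {y' | S.J y' * S.J y₀ < 0} := isOpen_lt (by fun_prop) continuous_const
    obtain ⟨y', hy1, x, hx, hc⟩ := mem_closure_iff.1 hyc _ ho hl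
    have hx2 : S.J x = S.J y₀ := hx.2
    refine interior_subset (hBs hx.1).2 ⟨y', x, hc.symm, Conn.refl hc.right, ?_⟩
    rw [hx2]
    exact hy1

theorem exists_integral {S : Sys E} (hNR : NR S) {y₀ : E} (hy₀ : y₀ ∈ Good S) {v : E}
    (hv : v ≠ 0) (hJv : S.J v = 0) :
    ∃ (F : E → ℝ) (K : Set E), IsCompact K ∧ K ⊆ S.U ∧ ContDiffOn ℝ ∞ F S.U ∧
      (∀ y ∈ S.U, fderiv ℝ F y (S.V y) = 0) ∧ fderiv ℝ F y₀ v ≠ 0 ∧
      ∀ y, F y ≠ 0 → ∃ x ∈ K, Conn S y x := by
  classical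
  obtain ⟨B, hBn, hBc, hBU, hcl⟩ := exists_section hNR hy₀
  obtain ⟨b, hb1, -, hb2, -, hb3⟩ := exists_contDiff_tsupport_subset (n := ⊤) hBn
  obtain ⟨l, -, hl⟩ := exists_dual_vector ℝ v (by simpa using hv)
  set g : E → ℝ := fun x => b x * l (x - y₀) with hg
  have hgs : ContDiff ℝ ∞ g := hb2.mul (l.contDiff.comp (contDiff_id.sub contDiff_const))
  set c := S.J y₀ with hc
  set F : E → ℝ := fun y => if h : ∃ x, S.J x = c ∧ Conn S y x then g h.choose else 0 with hF
  have hF1 : ∀ y x, S.J x = c → Conn S y x → F y = g x := by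
    intro y x h1 h2
    have h : ∃ x, S.J x = c ∧ Conn S y x := ⟨x, h1, h2⟩
    have : h.choose = x := h.choose_spec.2.unique h2 (by rw [h.choose_spec.1, h1])
    simp only [hF, dif_pos h, this]
  have hF2 : ∀ y, F y ≠ 0 → y ∈ sat S (B ∩ {x | S.J x = c}) := by
    intro y hy
    by_cases h : ∃ x, S.J x = c ∧ Conn S y x
    · obtain ⟨x, h1, h2⟩ := h
      rw [hF1 y x h1 h2] at hy
      exact ⟨x, ⟨hb1 (subset_tsupport _ (left_ne_zero_of_mul hy)), h1⟩, h2⟩
    · simp only [hF, dif_neg h] at hy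
      exact (hy rfl).elim
  have hF3 : ∀ y y', Conn S y y' → F y = F y' := by
    intro y y' hc
    by_cases h : ∃ x, S.J x = c ∧ Conn S y x
    · obtain ⟨x, h1, h2⟩ := h
      rw [hF1 y x h1 h2, hF1 y' x h1 (hc.symm.trans h2)]
    · have h' : ¬ ∃ x, S.J x = c ∧ Conn S y' x := fun ⟨x, h1, h2⟩ => h ⟨x, h1, hc.trans h2⟩
      simp only [hF, dif_neg h, dif_neg h']
  have hsm : ∀ y ∈ S.U, ContDiffAt ℝ ∞ F y := by
    intro y hy
    by_cases h : ∃ x, S.J x = c ∧ Conn S y x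
    · obtain ⟨x, h1, h2⟩ := h
      obtain ⟨Ψ, hΨ, -, k2, k3⟩ := h2.local'
      refine (hgs.comp hΨ).contDiffAt.congr_of_eventuallyEq ?_
      filter_upwards [k3] with y' hy'
      exact hF1 y' _ (by rw [k2, h1]) hy'
    · have h1 : y ∉ closure (sat S (B ∩ {x | S.J x = c})) := by
        intro h2
        obtain ⟨x, hx, h3⟩ := hcl y hy h2
        exact h ⟨x, hx.2, h3⟩
      refine (contDiffAt_const (c := (0:ℝ))).congr_of_eventuallyEq ?_
      filter_upwards [isClosed_closure.isOpen_compl.mem_nhds h1] with y' hy'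
      by_contra h4
      exact hy' (subset_closure (hF2 y' h4))
  have hdf : ∀ y ∈ S.U, HasFDerivAt F (fderiv ℝ F y) y := fun y hy =>
    ((hsm y hy).differentiableAt (by simp)).hasFDerivAt
  refine ⟨F, B ∩ {x | S.J x = c}, hBc.inter_right (isClosed_eq (by fun_prop) continuous_const),
    inter_subset_left.trans hBU, fun y hy => (hsm y hy).contDiffWithinAt, ?_, ?_, hF2⟩
  · intro y hy
    obtain ⟨γ, h1, h2, -, h4⟩ := exists_curve hy
    have h5 : HasFDerivAt F (fderiv ℝ F y) (γ 0) := by rw [h1]; exact hdf y hy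
    have h6 := h5.comp_hasDerivAt 0 h2
    have h7 : HasDerivAt (F ∘ γ) 0 0 := by
      refine (hasDerivAt_const (0:ℝ) (F y)).congr_of_eventuallyEq ?_
      filter_upwards [h4] with t ht
      exact (hF3 _ _ ht).symm
    exact h6.unique h7
  · have hU : y₀ ∈ S.U := hy₀.1.1
    have h2 : HasDerivAt (fun t : ℝ => y₀ + t • v) v 0 := by
      simpa using ((hasDerivAt_id (0:ℝ)).smul_const v).const_add y₀
    have h5 : HasFDerivAt F (fderiv ℝ F y₀) (y₀ + (0:ℝ) • v) := by
      rw [zero_smul, add_zero]; exact hdf y₀ hU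
    have h6 := h5.comp_hasDerivAt 0 h2
    have hb' : HasDerivAt (fun t : ℝ => b (y₀ + t • v)) (fderiv ℝ b (y₀ + (0:ℝ) • v) v) 0 :=
      ((hb2.differentiable (by simp)) _).hasFDerivAt.comp_hasDerivAt 0 h2
    have hl' : HasDerivAt (fun t : ℝ => t * ‖v‖) ‖v‖ 0 := by
      simpa using (hasDerivAt_id (0:ℝ)).mul_const ‖v‖
    have h7 : HasDerivAt (F ∘ fun t : ℝ => y₀ + t • v) ‖v‖ 0 := by
      have h8 := hb'.mul hl'
      simp only [zero_smul, add_zero, zero_mul, mul_zero, zero_add, hb3, one_mul] at h8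
      refine h8.congr_of_eventuallyEq ?_
      have h9 : ∀ᶠ t : ℝ in 𝓝 0, y₀ + t • v ∈ S.U :=
        h2.continuousAt.eventually (S.isOpen.mem_nhds (by simpa using hU))
      filter_upwards [h9] with t ht
      have := hF1 _ _ (by simp [hJv, hc]) (Conn.refl ht)
      simp only [Function.comp, this, hg, add_sub_cancel_left, map_smul, hl, smul_eq_mul,
        Pi.mul_apply]
      simp
    rw [h6.unique h7]
    simpa using hv

omit [FiniteDimensional ℝ E] in
lemma Conn.const {S : Sys E} {y x : E} (h : Conn S y x) (p : E →L[ℝ] ℝ)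
    (hp : ∀ x ∈ S.U, p (S.V x) = 0) : p y = p x := by
  obtain ⟨γ, h1, h2, h3⟩ := h
  have := curve_const (f := p) (c := 0) h3 (fun x hx => ⟨p, p.hasFDerivAt, hp x hx⟩) _
    right_mem_uIcc
  rw [h1, h2] at this
  simpa using this.symm

lemma isOpen_good (S : Sys E) : IsOpen (Good S) :=
  (S.isOpen.inter (isOpen_ne_fun (by fun_prop) continuous_const)).inter
    ((isOpen_both S).union isOpen_interior)

lemma dense_both (S : Sys E) : Dense (Both S ∪ interior (Both S)ᶜ) := by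
  intro y
  by_cases h : y ∈ closure (Both S)
  · exact closure_mono subset_union_left h
  · refine subset_closure (Or.inr ?_)
    rw [interior_compl]
    exact h

end

end Pool.Agent.H74Z.KHAbs
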