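import Mathlib

open scoped ContDiff

namespace Pool.Agent.H74Z.KH

noncomputable section

/-- Canonical coordinates `((x, y, z), (p_x, p_y, p_z))`. -/
abbrev Phase := (Fin 3 → ℝ) × (Fin 3 → ℝ)

/-- The Kepler-Heisenberg Hamiltonian. -/
def H (u : Phase) : ℝ :=
  1 / 2 * ((u.2 0 - 1 / 2 * u.1 1 * u.2 2) ^ 2 + (u.2 1 + 1 / 2 * u.1 0 * u.2 2) ^ 2) -
    1 / (8 * Real.pi * √((u.1 0 ^ 2 + u.1 1 ^ 2) ^ 2 + 16 * u.1 2 ^ 2))

/-- The angular momentum `x p_y - y p_x`. -/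
def pTheta (u : Phase) : ℝ := u.1 0 * u.2 1 - u.1 1 * u.2 0

/-- The part `H ≠ 0` of the phase space `T^*(ℝ^3 \ 0)`. -/
def W : Set Phase := {u | u.1 ≠ 0 ∧ H u ≠ 0}

/-- The canonical Poisson bracket. -/
def poisson (F G : Phase → ℝ) (u : Phase) : ℝ :=
  ∑ i : Fin 3, (fderiv ℝ F u (Pi.single i 1, 0) * fderiv ℝ G u (0, Pi.single i 1) -
    fderiv ℝ F u (0, Pi.single i 1) * fderiv ℝ G u (Pi.single i 1, 0))

/-- `F 0, F 1, F 2` are smooth first integrals on `W`, pairwise in involution, with differentials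
linearly independent on an open dense subset of `W`. -/
def SmoothLiouville (F : Fin 3 → Phase → ℝ) : Prop :=
  (∀ i, ContDiffOn ℝ ∞ (F i) W) ∧
  (∀ i, ∀ u ∈ W, poisson (F i) H u = 0) ∧
  (∀ i j, ∀ u ∈ W, poisson (F i) (F j) u = 0) ∧
  ∃ O : Set Phase, IsOpen O ∧ O ⊆ W ∧ W ⊆ closure O ∧
    ∀ u ∈ O, LinearIndependent ℝ (fun i => fderiv ℝ (F i) u)

end

end Pool.Agent.H74Z.KH
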