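import Mathlib

open Topology Filter Set
open scoped ContDiff

namespace Pool.Agent.H74Z.KHPhi

noncomputable section

abbrev P4 := ℝ × ℝ × ℝ × ℝ

/-- coordinates `(Z, J, κ, p)` -/
def RR (u : P4) : ℝ := √(u.2.1 ^ 2 + u.2.2.2 ^ 2)
def AA (u : P4) : ℝ := 2 * u.2.2.1 - u.1 ^ 2
def SS (u : P4) : ℝ := √(AA u ^ 2 + 4 * u.2.2.2 ^ 2 * (u.2.1 ^ 2 + u.2.2.2 ^ 2))
def nn (u : P4) : ℝ := √((AA u + SS u) / (2 * u.2.2.2 ^ 2))
def TT (u : P4) : ℝ := (SS u + u.1 ^ 2) / 2 + RR u * u.1 / nn u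
def Phi (u : P4) : ℝ := u.2.2.2 / RR u * Real.log (TT u)
def mm (u : P4) : ℝ := 2 * u.2.2.2 / (nn u * SS u)

lemma R2_pos {u : P4} (hp : u.2.2.2 ≠ 0) : 0 < u.2.1 ^ 2 + u.2.2.2 ^ 2 := by positivity

lemma RR_pos {u : P4} (hp : u.2.2.2 ≠ 0) : 0 < RR u := Real.sqrt_pos.2 (R2_pos hp)

lemma RR_sq (u : P4) : RR u ^ 2 = u.2.1 ^ 2 + u.2.2.2 ^ 2 := Real.sq_sqrt (by positivity)

lemma S2_pos {u : P4} (hp : u.2.2.2 ≠ 0) :
    0 < AA u ^ 2 + 4 * u.2.2.2 ^ 2 * (u.2.1 ^ 2 + u.2.2.2 ^ 2) := by positivity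

lemma SS_pos {u : P4} (hp : u.2.2.2 ≠ 0) : 0 < SS u := Real.sqrt_pos.2 (S2_pos hp)

lemma SS_sq (u : P4) : SS u ^ 2 = AA u ^ 2 + 4 * u.2.2.2 ^ 2 * (u.2.1 ^ 2 + u.2.2.2 ^ 2) :=
  Real.sq_sqrt (by positivity)

lemma AS_pos {u : P4} (hp : u.2.2.2 ≠ 0) : 0 < AA u + SS u := by
  have h1 := SS_pos hp
  have h2 := SS_sq u
  have h3 : 0 < 4 * u.2.2.2 ^ 2 * (u.2.1 ^ 2 + u.2.2.2 ^ 2) := by positivity
  by_contra h
  nlinarith

lemma n2_pos {u : P4} (hp : u.2.2.2 ≠ 0) : 0 < (AA u + SS u) / (2 * u.2.2.2 ^ 2) :=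
  div_pos (AS_pos hp) (by positivity)

lemma nn_pos {u : P4} (hp : u.2.2.2 ≠ 0) : 0 < nn u := Real.sqrt_pos.2 (n2_pos hp)

lemma nn_sq {u : P4} (hp : u.2.2.2 ≠ 0) : 2 * u.2.2.2 ^ 2 * nn u ^ 2 = AA u + SS u := by
  rw [nn, Real.sq_sqrt (n2_pos hp).le]
  field_simp

lemma nn_rel {u : P4} (hp : u.2.2.2 ≠ 0) : nn u ^ 2 * (SS u - AA u) = 2 * RR u ^ 2 := by
  have h1 := nn_sq hp
  have h2 := SS_sq u
  have h3 := RR_sq u
  have h4 : (2 * u.2.2.2 ^ 2) ≠ 0 := by positivity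
  apply mul_left_cancel₀ h4
  linear_combination (SS u - AA u) * h1 + h2 - 4 * u.2.2.2 ^ 2 * h3

lemma T_alg {S Z R n A P : ℝ} (hS : 0 < S) (hn : 0 < n) (hP : 0 < P) (h2 : S ^ 2 = A ^ 2 + P)
    (h1 : n ^ 2 * (S - A) = 2 * R ^ 2) : 0 < (S + Z ^ 2) / 2 + R * Z / n := by
  have h3 : (R * Z / n) ^ 2 = Z ^ 2 * (S - A) / 2 := by
    field_simp
    linear_combination (-Z ^ 2) * h1
  have h4 : (R * Z / n) ^ 2 < ((S + Z ^ 2) / 2) ^ 2 := by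
    rw [h3]
    nlinarith [sq_nonneg (A + Z ^ 2)]
  have h5 := abs_lt_of_sq_lt_sq h4 (by positivity)
  linarith [(abs_lt.1 h5).1]

lemma TT_pos {u : P4} (hp : u.2.2.2 ≠ 0) : 0 < TT u :=
  T_alg (SS_pos hp) (nn_pos hp) (by positivity) (SS_sq u) (nn_rel hp)

lemma contDiffAt_Phi {u : P4} (hp : u.2.2.2 ≠ 0) : ContDiffAt ℝ 1 Phi u := by
  have hR : ContDiffAt ℝ 1 RR u := ContDiffAt.sqrt (by fun_prop) (R2_pos hp).ne'
  have hA : ContDiffAt ℝ 1 AA u := by unfold AA; fun_prop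
  have hS : ContDiffAt ℝ 1 SS u := ContDiffAt.sqrt (by fun_prop) (S2_pos hp).ne'
  have hn : ContDiffAt ℝ 1 nn u :=
    ContDiffAt.sqrt ((hA.add hS).div (by fun_prop) (by positivity)) (n2_pos hp).ne'
  have hT : ContDiffAt ℝ 1 TT u :=
    ((hS.add (by fun_prop)).div_const 2).add ((hR.mul (by fun_prop)).div hn (nn_pos hp).ne')
  exact (ContDiffAt.div (by fun_prop) hR (RR_pos hp).ne').mul (hT.log (TT_pos hp).ne')

lemma hasDerivAt_Phi {u : P4} (hp : u.2.2.2 ≠ 0) :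
    HasDerivAt (fun t : ℝ => Phi (t, u.2)) (mm u) u.1 := by
  have hA : HasDerivAt (fun t : ℝ => AA (t, u.2)) (-(2 * u.1)) u.1 := by
    have := ((hasDerivAt_id u.1).pow 2).const_sub (2 * u.2.2.1)
    exact this.congr_deriv (by simp)
  have hS0 := SS_pos hp
  have hn0 := nn_pos hp
  have hR0 := RR_pos hp
  have hT0 := TT_pos hp
  have hS : HasDerivAt (fun t : ℝ => SS (t, u.2)) (-(2 * u.1 * AA u) / SS u) u.1 := by
    have := ((hA.pow 2).add_const (4 * u.2.2.2 ^ 2 * (u.2.1 ^ 2 + u.2.2.2 ^ 2))).sqrt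
      (S2_pos hp).ne'
    refine this.congr_deriv ?_
    change _ / (2 * SS u) = _
    simp only [Prod.mk.eta]
    field_simp
    ring
  have hn : HasDerivAt (fun t : ℝ => nn (t, u.2)) (-(u.1 * nn u) / SS u) u.1 := by
    have := ((hA.add hS).div_const (2 * u.2.2.2 ^ 2)).sqrt (n2_pos hp).ne'
    refine this.congr_deriv ?_
    change _ / (2 * nn u) = _
    have h1 := nn_sq hp
    field_simp
    linear_combination u.1 * h1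
  have hT : HasDerivAt (fun t : ℝ => TT (t, u.2)) (2 * RR u * TT u / (nn u * SS u)) u.1 := by
    have := ((hS.add ((hasDerivAt_id u.1).pow 2)).div_const 2).add
      (((hasDerivAt_id u.1).const_mul (RR u)).fun_div hn hn0.ne')
    refine this.congr_deriv ?_
    have h1 := nn_rel hp
    simp only [Prod.mk.eta, id, TT]
    field_simp
    linear_combination (2 * u.1) * h1
  have := (hT.log hT0.ne').const_mul (u.2.2.2 / RR u)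
  refine this.congr_deriv ?_
  simp only [Prod.mk.eta, mm]
  field_simp

lemma fderiv_Phi {u : P4} (hp : u.2.2.2 ≠ 0) (z : ℝ) (l : ℝ × ℝ × ℝ) :
    fderiv ℝ Phi u (z, l) = mm u * z + fderiv ℝ Phi u (0, l) := by
  have hd : HasFDerivAt Phi (fderiv ℝ Phi u) (u.1, u.2) :=
    ((contDiffAt_Phi hp).differentiableAt (by simp)).hasFDerivAt
  have hc : HasDerivAt (fun t : ℝ => ((t, u.2) : P4)) (1, 0) u.1 :=
    (hasDerivAt_id u.1).prodMk (hasDerivAt_const _ _)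
  have h0 := HasFDerivAt.comp_hasDerivAt (f := fun t : ℝ => ((t, u.2) : P4)) u.1 hd hc
  have h1 : fderiv ℝ Phi u (1, 0) = mm u := h0.unique (hasDerivAt_Phi hp)
  have h2 : ((z, l) : P4) = z • ((1, 0) : P4) + (0, l) := by simp
  rw [h2, map_add, map_smul, h1, smul_eq_mul, mul_comm]

/-- bounds on compact sets -/
lemma exists_bound (C δ : ℝ) (hδ : 0 < δ) : ∃ B : ℝ, 0 ≤ B ∧ ∀ u : P4, ‖u‖ ≤ C → δ ≤ |u.2.2.2| →
    |Phi u| ≤ B ∧ ‖fderiv ℝ Phi u‖ ≤ B := by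
  set Q : Set P4 := Metric.closedBall 0 C ∩ {u | δ ≤ |u.2.2.2|} with hQ
  have hQc : IsCompact Q := (isCompact_closedBall _ _).inter_right
    (isClosed_le continuous_const (by fun_prop))
  have hp : ∀ u ∈ Q, u.2.2.2 ≠ 0 := by
    intro u hu h0
    have h : δ ≤ |u.2.2.2| := hu.2
    rw [h0, abs_zero] at h
    linarith
  obtain ⟨B1, h1⟩ := hQc.exists_bound_of_continuousOn (f := Phi)
    fun u hu => (contDiffAt_Phi (hp u hu)).continuousAt.continuousWithinAt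
  obtain ⟨B2, h2⟩ := hQc.exists_bound_of_continuousOn (f := fderiv ℝ Phi)
    fun u hu => ((contDiffAt_Phi (hp u hu)).continuousAt_fderiv (by simp)).continuousWithinAt
  refine ⟨|B1| + |B2|, by positivity, fun u hu hu' => ?_⟩
  have hq : u ∈ Q := ⟨mem_closedBall_zero_iff.2 hu, hu'⟩
  have h3 := h1 u hq
  have h4 := h2 u hq
  rw [Real.norm_eq_abs] at h3
  constructor <;> linarith [le_abs_self B1, le_abs_self B2, abs_nonneg B1, abs_nonneg B2]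

lemma B_alg {p Y σ N n R2 : ℝ} (hN : 0 < N) (hn : 0 < n) (hσ : σ ^ 2 ≤ 1) (hR : 0 < R2)
    (h1 : p ^ 2 * n ^ 4 = Y ^ 2 * n ^ 2 + R2)
    (h2 : R2 = Y ^ 2 * N ^ 2 - 2 * Y * p * σ * N ^ 3 + p ^ 2 * N ^ 4) :
    0 ≤ p ^ 2 * (3 * N ^ 3 + 3 * N ^ 2 * n + 3 * N * n ^ 2 - n ^ 3) + Y ^ 2 * (n - N) := by
  have hY : Y ^ 2 ≤ p ^ 2 * n ^ 2 := by
    by_contra h
    have h3 : 0 < n ^ 2 := by positivity
    nlinarith
  rcases le_total n N with h | h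
  · have h3 : Y ^ 2 * (N - n) ≤ p ^ 2 * n ^ 2 * (N - n) :=
      mul_le_mul_of_nonneg_right hY (by linarith)
    have h4 : 0 ≤ p ^ 2 * (3 * N ^ 3 + 3 * N ^ 2 * n + 2 * N * n ^ 2) := by positivity
    nlinarith
  · have h3 : (Y * p * σ) ^ 2 ≤ (p ^ 2 * n) ^ 2 := by
      have h4 : (Y * p * σ) ^ 2 = Y ^ 2 * p ^ 2 * σ ^ 2 := by ring
      have h5 : Y ^ 2 * p ^ 2 * σ ^ 2 ≤ Y ^ 2 * p ^ 2 * 1 :=
        mul_le_mul_of_nonneg_left hσ (by positivity)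
      have h6 : Y ^ 2 * p ^ 2 ≤ p ^ 2 * n ^ 2 * p ^ 2 :=
        mul_le_mul_of_nonneg_right hY (by positivity)
      nlinarith
    have h4 := (abs_le.1 (abs_le_of_sq_le_sq h3 (by positivity))).1
    have h5 : -(p ^ 2 * n) * N ^ 3 ≤ Y * p * σ * N ^ 3 :=
      mul_le_mul_of_nonneg_right h4 (by positivity)
    have h6 : p ^ 2 * (n ^ 4 - N ^ 4 - 2 * n * N ^ 3) ≤ Y ^ 2 * (n ^ 2 + N ^ 2) := by
      nlinarith
    have h7 := mul_le_mul_of_nonneg_right h6 (sub_nonneg.2 h)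
    have h8 : 0 ≤ p ^ 2 * (2 * N * n ^ 4 + 2 * N ^ 2 * n ^ 3 + 4 * N ^ 3 * n ^ 2 + 4 * N ^ 4 * n
      + 4 * N ^ 5) := by positivity
    have h9 : 0 < n ^ 2 + N ^ 2 := by positivity
    refine nonneg_of_mul_nonneg_left ?_ h9
    nlinarith

lemma key_alg {p Y σ N n S J : ℝ} (hN : 0 < N) (hn : 0 < n) (hS : 0 < S) (hp : p ≠ 0)
    (hσ : σ ^ 2 ≤ 1) (hS2 : S ^ 2 = (Y ^ 2) ^ 2 + 4 * p ^ 2 * (J ^ 2 + p ^ 2))
    (hn2 : 2 * p ^ 2 * n ^ 2 = Y ^ 2 + S)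
    (h2 : J ^ 2 + p ^ 2 = Y ^ 2 * N ^ 2 - 2 * Y * p * σ * N ^ 3 + p ^ 2 * N ^ 4)
    (hJ : J = N * Y - p * σ * N ^ 2) :
    0 ≤ J * (Y * (2 - 2 * p / (n * S) * (N ^ 2 * (2 * p * N - Y * σ)))) := by
  have hR : 0 < J ^ 2 + p ^ 2 := by positivity
  have h1 : p ^ 2 * n ^ 4 = Y ^ 2 * n ^ 2 + (J ^ 2 + p ^ 2) := by
    have h4 : (4 * p ^ 2) ≠ 0 := by positivity
    apply mul_left_cancel₀ h4
    linear_combination hS2 + (2 * p ^ 2 * n ^ 2 - Y ^ 2 + S) * hn2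
  have hB := B_alg hN hn hσ hR h1 h2
  set B := p ^ 2 * (3 * N ^ 3 + 3 * N ^ 2 * n + 3 * N * n ^ 2 - n ^ 3) + Y ^ 2 * (n - N) with hBd
  have hY : 0 ≤ p ^ 2 * (n ^ 2 + N ^ 2) - Y ^ 2 := by
    by_contra h
    have h3 : 0 < n ^ 2 := by positivity
    have h4 : 0 ≤ p ^ 2 * N ^ 2 * n ^ 2 := by positivity
    nlinarith
  have e1 : 2 - 2 * p / (n * S) * (N ^ 2 * (2 * p * N - Y * σ)) = (n - N) * B / (N * n * S) := by
    rw [hBd]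
    field_simp
    linear_combination (-2 * N * n) * hn2 + h1 + h2
  have e2 : J * Y = (n - N) * ((n + N) * (p ^ 2 * (n ^ 2 + N ^ 2) - Y ^ 2)) / (2 * N) := by
    field_simp
    linear_combination (2 * Y * N) * hJ - h1 - h2
  rw [← mul_assoc, e1, e2]
  have e3 : (n - N) * ((n + N) * (p ^ 2 * (n ^ 2 + N ^ 2) - Y ^ 2)) / (2 * N) *
      ((n - N) * B / (N * n * S)) =
      (n - N) ^ 2 * ((n + N) * (p ^ 2 * (n ^ 2 + N ^ 2) - Y ^ 2) * B / (2 * N * (N * n * S))) := by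
    field_simp
  rw [e3]
  positivity

lemma key_ineq {u : P4} (hp : u.2.2.2 ≠ 0) {Y σ N : ℝ} (hN : 0 < N) (hσ : σ ^ 2 ≤ 1)
    (hY : Y ^ 2 + u.1 ^ 2 = 2 * u.2.2.1)
    (h2 : u.2.1 ^ 2 + u.2.2.2 ^ 2 =
      Y ^ 2 * N ^ 2 - 2 * Y * u.2.2.2 * σ * N ^ 3 + u.2.2.2 ^ 2 * N ^ 4)
    (hJ : u.2.1 = N * Y - u.2.2.2 * σ * N ^ 2) :
    0 ≤ u.2.1 * (Y * (2 - mm u * (N ^ 2 * (2 * u.2.2.2 * N - Y * σ)))) := by
  have hA : AA u = Y ^ 2 := by rw [AA]; linarith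
  exact key_alg hN (nn_pos hp) (SS_pos hp) hp hσ (by rw [SS_sq, hA]) (by rw [nn_sq hp, hA]) h2 hJ

end

end Pool.Agent.H74Z.KHPhi
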