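import Mathlib
import Pool.Agent.H74Z.KHPhi

open Topology Filter Set
open scoped ContDiff

namespace Pool.Agent.H74Z.KHRed

open KHPhi

noncomputable section

abbrev E5 := Fin 5 → ℝ

/-- coordinates `(w, z, p_z, J, p_θ)` -/
def Wd (ξ : E5) : ℝ := √(ξ 0 ^ 2 + 16 * ξ 1 ^ 2)
def a0 (ξ : E5) : ℝ := ξ 3 - 2 * ξ 1 * ξ 2
def el (ξ : E5) : ℝ := ξ 4 + ξ 0 * ξ 2 / 2
def hh (k : ℝ) (ξ : E5) : ℝ := (a0 ξ ^ 2 + el ξ ^ 2) / (2 * ξ 0) - k / Wd ξ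
def YY (k : ℝ) (ξ : E5) : E5 :=
  ![2 * a0 ξ, el ξ / 2, -16 * k * ξ 1 / Wd ξ ^ 3, 2 * hh k ξ, 0]
def NN (ξ : E5) : ℝ := √(Wd ξ / ξ 0)
def aa (ξ : E5) : ℝ := (ξ 0 * ξ 3 + 4 * ξ 1 * ξ 4) / Wd ξ
def sg (ξ : E5) : ℝ := 4 * ξ 1 / Wd ξ
def Yv (ξ : E5) : ℝ := NN ξ * aa ξ
def ZZ (ξ : E5) : ℝ := NN ξ * (ξ 0 * el ξ - 4 * ξ 1 * a0 ξ) / Wd ξ
def kap (k : ℝ) (ξ : E5) : ℝ := k + hh k ξ * Wd ξ
def uu (k : ℝ) (ξ : E5) : P4 := (ZZ ξ, ξ 3, kap k ξ, ξ 4)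
def LL (k : ℝ) (ξ : E5) : ℝ := Real.log (Wd ξ) + Phi (uu k ξ)

lemma W2_pos {ξ : E5} (hw : 0 < ξ 0) : 0 < ξ 0 ^ 2 + 16 * ξ 1 ^ 2 := by positivity
lemma Wd_pos {ξ : E5} (hw : 0 < ξ 0) : 0 < Wd ξ := Real.sqrt_pos.2 (W2_pos hw)
lemma Wd_sq (ξ : E5) : Wd ξ ^ 2 = ξ 0 ^ 2 + 16 * ξ 1 ^ 2 := Real.sq_sqrt (by positivity)
lemma NN_pos {ξ : E5} (hw : 0 < ξ 0) : 0 < NN ξ := Real.sqrt_pos.2 (div_pos (Wd_pos hw) hw)
lemma NN_sq {ξ : E5} (hw : 0 < ξ 0) : NN ξ ^ 2 * ξ 0 = Wd ξ := by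
  rw [NN, Real.sq_sqrt (div_pos (Wd_pos hw) hw).le]
  field_simp

lemma r_YZ {w z q J p k W N : ℝ} (hw : 0 < w) (hN : 0 < N) (r1 : W ^ 2 = w ^ 2 + 16 * z ^ 2)
    (r2 : N ^ 2 * w = W) :
    (N * ((w * J + 4 * z * p) / W)) ^ 2 +
      (N * (w * (p + w * q / 2) - 4 * z * (J - 2 * z * q)) / W) ^ 2 =
      2 * (k + (((J - 2 * z * q) ^ 2 + (p + w * q / 2) ^ 2) / (2 * w) - k / W) * W) := by
  subst r2
  field_simp
  grind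

lemma r_R {w z J p W N : ℝ} (hw : 0 < w) (hN : 0 < N) (r1 : W ^ 2 = w ^ 2 + 16 * z ^ 2)
    (r2 : N ^ 2 * w = W) :
    J ^ 2 + p ^ 2 = (N * ((w * J + 4 * z * p) / W)) ^ 2 * N ^ 2 -
      2 * (N * ((w * J + 4 * z * p) / W)) * p * (4 * z / W) * N ^ 3 + p ^ 2 * N ^ 4 := by
  subst r2
  field_simp
  grind

lemma r_J {w z J p W N : ℝ} (hw : 0 < w) (hN : 0 < N) (r2 : N ^ 2 * w = W) :
    J = N * (N * ((w * J + 4 * z * p) / W)) - p * (4 * z / W) * N ^ 2 := by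
  subst r2
  field_simp
  ring

lemma r_Z {w z q J p k W N θ : ℝ} (hw : 0 < w) (hN : 0 < N) (r1 : W ^ 2 = w ^ 2 + 16 * z ^ 2)
    (r2 : N ^ 2 * w = W) {a0 l h W' N' M M' : ℝ} (e1 : a0 = J - 2 * z * q) (e2 : l = p + w * q / 2)
    (e3 : h = (a0 ^ 2 + l ^ 2) / (2 * w) - k / W) (e4 : W' = θ * (2 * ((w * J + 4 * z * p) / W)))
    (e5 : N' = ((W' * w - W * (θ * (2 * a0))) / w ^ 2) / (2 * N))
    (e6 : M = w * l - 4 * z * a0)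
    (e7 : M' = θ * (2 * a0) * l + w * ((θ * (2 * a0) * q + w * (θ * (-16 * k * z / W ^ 3))) / 2)
      - (4 * (θ * (l / 2)) * a0 + 4 * z * (θ * (2 * h) -
        (2 * (θ * (l / 2)) * q + 2 * z * (θ * (-16 * k * z / W ^ 3)))))) :
    ((N' * M + N * M') * W - N * M * W') / W ^ 2 =
      -(θ / W) * (N * ((w * J + 4 * z * p) / W)) * N *
        (2 * p * N - (N * ((w * J + 4 * z * p) / W)) * (4 * z / W)) := by
  subst r2 e1 e2 e3 e4 e5 e6 e7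
  field_simp
  grind

lemma r_h {w z q J p k W θ : ℝ} (hw : 0 < w) (hW : 0 < W) (r1 : W ^ 2 = w ^ 2 + 16 * z ^ 2)
    {a0 l h W' a' l' : ℝ} (e1 : a0 = J - 2 * z * q) (e2 : l = p + w * q / 2)
    (e3 : h = (a0 ^ 2 + l ^ 2) / (2 * w) - k / W) (e4 : W' = θ * (2 * ((w * J + 4 * z * p) / W)))
    (e5 : a' = θ * (2 * h) - (2 * (θ * (l / 2)) * q + 2 * z * (θ * (-16 * k * z / W ^ 3))))
    (e6 : l' = (θ * (2 * a0) * q + w * (θ * (-16 * k * z / W ^ 3))) / 2) :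
    ((2 * a0 * a' + 2 * l * l') * (2 * w) - (a0 ^ 2 + l ^ 2) * (2 * (θ * (2 * a0)))) / (2 * w) ^ 2
      - (0 * W - k * W') / W ^ 2 = 0 := by
  subst e1 e2 e3 e4 e5 e6
  field_simp
  grind

lemma rel_YZ (k : ℝ) {ξ : E5} (hw : 0 < ξ 0) : Yv ξ ^ 2 + ZZ ξ ^ 2 = 2 * kap k ξ :=
  r_YZ hw (NN_pos hw) (Wd_sq ξ) (NN_sq hw)

lemma rel_R {ξ : E5} (hw : 0 < ξ 0) : ξ 3 ^ 2 + ξ 4 ^ 2 =
    Yv ξ ^ 2 * NN ξ ^ 2 - 2 * Yv ξ * ξ 4 * sg ξ * NN ξ ^ 3 + ξ 4 ^ 2 * NN ξ ^ 4 :=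
  r_R hw (NN_pos hw) (Wd_sq ξ) (NN_sq hw)

lemma rel_J {ξ : E5} (hw : 0 < ξ 0) : ξ 3 = NN ξ * Yv ξ - ξ 4 * sg ξ * NN ξ ^ 2 :=
  r_J hw (NN_pos hw) (NN_sq hw)

lemma sg_sq {ξ : E5} (hw : 0 < ξ 0) : sg ξ ^ 2 ≤ 1 := by
  have h := Wd_pos hw
  rw [sg, div_pow, div_le_one (by positivity), Wd_sq]
  nlinarith [sq_nonneg (ξ 0)]

lemma key {k : ℝ} {ξ : E5} (hw : 0 < ξ 0) (hp : ξ 4 ≠ 0) :
    0 ≤ ξ 3 * (Yv ξ * (2 - mm (uu k ξ) * (NN ξ ^ 2 * (2 * ξ 4 * NN ξ - Yv ξ * sg ξ)))) :=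
  key_ineq (u := uu k ξ) hp (NN_pos hw) (sg_sq hw) (rel_YZ k hw) (rel_R hw) (rel_J hw)

section deriv

variable {k θ s : ℝ} {γ : ℝ → E5}

lemma d0 (h : HasDerivAt γ (θ • YY k (γ s)) s) :
    HasDerivAt (fun s => γ s 0) (θ * (2 * a0 (γ s))) s := by
  simpa [YY] using hasDerivAt_pi.1 h 0

lemma d1 (h : HasDerivAt γ (θ • YY k (γ s)) s) :
    HasDerivAt (fun s => γ s 1) (θ * (el (γ s) / 2)) s := by
  simpa [YY] using hasDerivAt_pi.1 h 1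

lemma d2 (h : HasDerivAt γ (θ • YY k (γ s)) s) :
    HasDerivAt (fun s => γ s 2) (θ * (-16 * k * γ s 1 / Wd (γ s) ^ 3)) s := by
  simpa [YY] using hasDerivAt_pi.1 h 2

lemma d3 (h : HasDerivAt γ (θ • YY k (γ s)) s) :
    HasDerivAt (fun s => γ s 3) (θ * (2 * hh k (γ s))) s := by
  simpa [YY] using hasDerivAt_pi.1 h 3

lemma d4 (h : HasDerivAt γ (θ • YY k (γ s)) s) : HasDerivAt (fun s => γ s 4) 0 s := by
  simpa [YY] using hasDerivAt_pi.1 h 4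

lemma dW (h : HasDerivAt γ (θ • YY k (γ s)) s) (hw : 0 < γ s 0) :
    HasDerivAt (fun s => Wd (γ s)) (θ * (2 * aa (γ s))) s := by
  have := (((d0 h).pow 2).add (((d1 h).pow 2).const_mul 16)).sqrt (W2_pos hw).ne'
  refine this.congr_deriv ?_
  change _ / (2 * Wd (γ s)) = _
  have hW := Wd_pos hw
  simp only [aa, a0, el]
  field_simp
  ring

lemma da0 (h : HasDerivAt γ (θ • YY k (γ s)) s) :
    HasDerivAt (fun s => a0 (γ s)) (θ * (2 * hh k (γ s)) - (2 * (θ * (el (γ s) / 2)) * γ s 2 +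
      2 * γ s 1 * (θ * (-16 * k * γ s 1 / Wd (γ s) ^ 3)))) s :=
  (d3 h).sub (((d1 h).const_mul 2).mul (d2 h))

lemma del (h : HasDerivAt γ (θ • YY k (γ s)) s) :
    HasDerivAt (fun s => el (γ s)) ((θ * (2 * a0 (γ s)) * γ s 2 +
      γ s 0 * (θ * (-16 * k * γ s 1 / Wd (γ s) ^ 3))) / 2) s := by
  have := (d4 h).add (((d0 h).mul (d2 h)).div_const 2)
  rw [zero_add] at this
  exact this

lemma dh (h : HasDerivAt γ (θ • YY k (γ s)) s) (hw : 0 < γ s 0) :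
    HasDerivAt (fun s => hh k (γ s)) 0 s := by
  have := ((((da0 h).pow 2).add ((del h).pow 2)).fun_div ((d0 h).const_mul 2)
    (by positivity)).sub ((hasDerivAt_const s k).fun_div (dW h hw) (Wd_pos hw).ne')
  refine this.congr_deriv ?_
  have e := r_h (k := k) (θ := θ) (q := γ s 2) (J := γ s 3) (p := γ s 4) hw (Wd_pos hw)
    (Wd_sq (γ s)) rfl rfl rfl rfl rfl rfl
  refine Eq.trans ?_ e
  simp only [Pi.add_apply, Pi.pow_apply, aa, a0, el, hh]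
  norm_num

lemma dZ (h : HasDerivAt γ (θ • YY k (γ s)) s) (hw : 0 < γ s 0) :
    HasDerivAt (fun s => ZZ (γ s)) (-(θ / Wd (γ s)) * Yv (γ s) * NN (γ s) *
      (2 * γ s 4 * NN (γ s) - Yv (γ s) * sg (γ s))) s := by
  have hN := ((dW h hw).fun_div (d0 h) hw.ne').sqrt (div_pos (Wd_pos hw) hw).ne'
  have hM := ((d0 h).mul (del h)).sub (((d1 h).const_mul 4).mul (da0 h))
  have := (hN.mul hM).fun_div (dW h hw) (Wd_pos hw).ne'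
  refine this.congr_deriv ?_
  exact r_Z (k := k) (θ := θ) (q := γ s 2) (J := γ s 3) (p := γ s 4) hw (NN_pos hw)
    (Wd_sq (γ s)) (NN_sq hw) rfl rfl rfl rfl rfl rfl rfl

lemma dkap (h : HasDerivAt γ (θ • YY k (γ s)) s) (hw : 0 < γ s 0) :
    HasDerivAt (fun s => kap k (γ s)) (hh k (γ s) * (θ * (2 * aa (γ s)))) s := by
  have := ((dh h hw).mul (dW h hw)).const_add k
  rw [zero_mul, zero_add] at this
  exact this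

lemma dL (h : HasDerivAt γ (θ • YY k (γ s)) s) (hw : 0 < γ s 0) (hp : γ s 4 ≠ 0) :
    HasDerivAt (fun s => LL k (γ s))
      (θ / (Wd (γ s) * NN (γ s)) * (Yv (γ s) * (2 - mm (uu k (γ s)) *
        (NN (γ s) ^ 2 * (2 * γ s 4 * NN (γ s) - Yv (γ s) * sg (γ s))))) +
        fderiv ℝ Phi (uu k (γ s))
          (0, θ * (2 * hh k (γ s)), hh k (γ s) * (θ * (2 * aa (γ s))), 0)) s := by
  have hu : HasDerivAt (fun s => uu k (γ s)) _ s :=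
    (dZ h hw).prodMk ((d3 h).prodMk ((dkap h hw).prodMk (d4 h)))
  have hP : HasFDerivAt Phi (fderiv ℝ Phi (uu k (γ s))) (uu k (γ s)) :=
    ((contDiffAt_Phi (u := uu k (γ s)) hp).differentiableAt (by simp)).hasFDerivAt
  have h1 := HasFDerivAt.comp_hasDerivAt (f := fun s => uu k (γ s)) s hP hu
  have := ((dW h hw).log (Wd_pos hw).ne').add h1
  refine this.congr_deriv ?_
  rw [fderiv_Phi (u := uu k (γ s)) hp]
  have hW := Wd_pos hw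
  have hN := NN_pos hw
  simp only [Yv]
  field_simp
  ring

end deriv

end

end Pool.Agent.H74Z.KHRed
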