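import Mathlib
import Pool.Agent.H74Z.KHRed
import Pool.Agent.H74Z.KHAbs

open Topology Filter Set
open scoped ContDiff

namespace Pool.Agent.H74Z.KHLyap

open KHPhi KHRed KHAbs

noncomputable section

def UU (k : ℝ) : Set E5 := {ξ | 0 < ξ 0 ∧ ξ 4 ≠ 0 ∧ hh k ξ ≠ 0}

def VV (k : ℝ) (ξ : E5) : E5 := (2 * hh k ξ)⁻¹ • YY k ξ

lemma contDiffAt_Wd {ξ : E5} (hw : 0 < ξ 0) : ContDiffAt ℝ ∞ Wd ξ :=
  ContDiffAt.sqrt (by fun_prop) (W2_pos hw).ne'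

lemma contDiff_a0 : ContDiff ℝ ∞ a0 := by unfold a0; fun_prop
lemma contDiff_el : ContDiff ℝ ∞ el := by unfold el; fun_prop

lemma contDiffAt_hh (k : ℝ) {ξ : E5} (hw : 0 < ξ 0) : ContDiffAt ℝ ∞ (hh k) ξ :=
  (((contDiff_a0.pow 2).add (contDiff_el.pow 2)).contDiffAt.div (by fun_prop)
    (by positivity)).sub (contDiffAt_const.div (contDiffAt_Wd hw) (Wd_pos hw).ne')

lemma contDiffAt_YY (k : ℝ) {ξ : E5} (hw : 0 < ξ 0) : ContDiffAt ℝ ∞ (YY k) ξ := by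
  rw [contDiffAt_pi]
  intro i
  fin_cases i
  · exact contDiffAt_const.mul contDiff_a0.contDiffAt
  · exact contDiff_el.contDiffAt.div_const 2
  · exact ContDiffAt.div (f := fun ξ : E5 => -16 * k * ξ 1) (by fun_prop)
      ((contDiffAt_Wd hw).pow 3) (pow_pos (Wd_pos hw) 3).ne'
  · exact contDiffAt_const.mul (contDiffAt_hh k hw)
  · exact contDiffAt_const (c := (0:ℝ))

lemma isOpen_UU (k : ℝ) : IsOpen (UU k) := by
  rw [isOpen_iff_mem_nhds]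
  rintro ξ ⟨h1, h2, h3⟩
  have e1 : ∀ᶠ η : E5 in 𝓝 ξ, 0 < η 0 :=
    (isOpen_lt continuous_const (continuous_apply 0)).mem_nhds h1
  have e2 : ∀ᶠ η : E5 in 𝓝 ξ, η 4 ≠ 0 := (continuous_apply 4).continuousAt.eventually_ne h2
  have e3 : ∀ᶠ η : E5 in 𝓝 ξ, hh k η ≠ 0 := (contDiffAt_hh k h1).continuousAt.eventually_ne h3
  filter_upwards [e1, e2, e3] with η a b c
  exact ⟨a, b, c⟩

/-- the reduced system -/
def sys (k : ℝ) : Sys E5 where
  U := UU k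
  V := VV k
  J := ContinuousLinearMap.proj 3
  e := Pi.single 3 1
  isOpen := isOpen_UU k
  smooth := fun ξ hξ => (((contDiffAt_const.mul (contDiffAt_hh k hξ.1)).inv
    (mul_ne_zero two_ne_zero hξ.2.2)).smul (contDiffAt_YY k hξ.1)).contDiffWithinAt
  Je := by simp
  JV := fun ξ hξ => by
    have := hξ.2.2
    simp [VV, YY]
    field_simp

lemma mono {f f' : ℝ → ℝ} {a b : ℝ} (h : ∀ s ∈ Icc a b, HasDerivAt f (f' s) s)
    (h' : ∀ s ∈ Icc a b, 0 ≤ f' s) : MonotoneOn f (Icc a b) :=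
  monotoneOn_of_hasDerivWithinAt_nonneg (convex_Icc a b)
    (fun s hs => (h s hs).continuousAt.continuousWithinAt)
    (fun s hs => (h s (interior_subset hs)).hasDerivWithinAt)
    (fun s hs => h' s (interior_subset hs))

lemma cs_bound {w z J p W M : ℝ} (hW : 0 < W) (r1 : W ^ 2 = w ^ 2 + 16 * z ^ 2) (hJ : |J| ≤ M)
    (hp : |p| ≤ M) : |(w * J + 4 * z * p) / W| ≤ 2 * M := by
  have hM : 0 ≤ M := (abs_nonneg _).trans hJ
  have h1 : J ^ 2 ≤ M ^ 2 := sq_le_sq' (abs_le.1 hJ).1 (abs_le.1 hJ).2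
  have h2 : p ^ 2 ≤ M ^ 2 := sq_le_sq' (abs_le.1 hp).1 (abs_le.1 hp).2
  refine abs_le_of_sq_le_sq ?_ (by positivity)
  rw [div_pow, div_le_iff₀ (by positivity)]
  have h3 : (w * J + 4 * z * p) ^ 2 ≤ (J ^ 2 + p ^ 2) * W ^ 2 := by
    rw [r1]
    nlinarith [sq_nonneg (w * p - 4 * z * J)]
  have h4 : (J ^ 2 + p ^ 2) * W ^ 2 ≤ (2 * M) ^ 2 * W ^ 2 :=
    mul_le_mul_of_nonneg_right (by nlinarith) (by positivity)
  linarith

lemma aa_bound {ξ : E5} {M : ℝ} (hw : 0 < ξ 0) (hJ : |ξ 3| ≤ M) (hp : |ξ 4| ≤ M) :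
    |aa ξ| ≤ 2 * M := cs_bound (Wd_pos hw) (Wd_sq ξ) hJ hp

lemma w_le {ξ : E5} (hw : 0 < ξ 0) : ξ 0 ≤ Wd ξ := by
  refine le_of_sq_le_sq ?_ (Wd_pos hw).le
  rw [Wd_sq]
  nlinarith [sq_nonneg (ξ 1)]

lemma z_le {ξ : E5} (hw : 0 < ξ 0) : |ξ 1| ≤ Wd ξ := by
  refine abs_le_of_sq_le_sq ?_ (Wd_pos hw).le
  rw [Wd_sq]
  nlinarith [sq_nonneg (ξ 1), sq_nonneg (ξ 0)]

lemma one_le_NN {ξ : E5} (hw : 0 < ξ 0) : 1 ≤ NN ξ := by
  rw [NN, Real.one_le_sqrt, one_le_div hw]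
  exact w_le hw

lemma N_alg {J p Y σ N K M : ℝ} (hN : 1 ≤ N) (hσ : σ ^ 2 ≤ 1) (hM : 0 < M)
    (h2 : J ^ 2 + p ^ 2 = Y ^ 2 * N ^ 2 - 2 * Y * p * σ * N ^ 3 + p ^ 2 * N ^ 4)
    (hJ : |J| ≤ M) (hp : |p| ≤ M) (hp' : M⁻¹ ≤ |p|) (hY : Y ^ 2 ≤ 2 * K) :
    N ^ 2 ≤ (4 * K + 4 * M ^ 2) * M ^ 2 := by
  have h1 : J ^ 2 ≤ M ^ 2 := sq_le_sq' (abs_le.1 hJ).1 (abs_le.1 hJ).2
  have h3 : p ^ 2 ≤ M ^ 2 := sq_le_sq' (abs_le.1 hp).1 (abs_le.1 hp).2
  have hN2 : 1 ≤ N ^ 2 := one_le_pow₀ hN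
  have h4 : 1 ≤ p ^ 2 * M ^ 2 := by
    have h5 : 1 ≤ |p| * M := by
      have := mul_le_mul_of_nonneg_right hp' hM.le
      rwa [inv_mul_cancel₀ hM.ne'] at this
    have h6 : 1 ≤ (|p| * M) ^ 2 := one_le_pow₀ h5
    rwa [mul_pow, sq_abs] at h6
  have h7 : σ ^ 2 * (Y ^ 2 * N ^ 2) ≤ 1 * (Y ^ 2 * N ^ 2) :=
    mul_le_mul_of_nonneg_right hσ (by positivity)
  have h8 : p ^ 2 * N ^ 4 ≤ 2 * (Y ^ 2 * N ^ 2) + 2 * (J ^ 2 + p ^ 2) := by
    nlinarith [sq_nonneg (p * N ^ 2 - 2 * σ * Y * N), sq_nonneg (Y * N)]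
  have h9 : Y ^ 2 * N ^ 2 ≤ 2 * K * N ^ 2 := mul_le_mul_of_nonneg_right hY (by positivity)
  have h10 : M ^ 2 * 1 ≤ M ^ 2 * N ^ 2 := mul_le_mul_of_nonneg_left hN2 (by positivity)
  have h11 : p ^ 2 * N ^ 2 * N ^ 2 ≤ (4 * K + 4 * M ^ 2) * N ^ 2 := by nlinarith
  have h12 : p ^ 2 * N ^ 2 ≤ 4 * K + 4 * M ^ 2 := le_of_mul_le_mul_right h11 (by positivity)
  have h13 := mul_le_mul_of_nonneg_right h12 (sq_nonneg M)
  have h14 := mul_le_mul_of_nonneg_right h4 (sq_nonneg N)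
  nlinarith

lemma pz_bound {ξ : E5} {M Z δ : ℝ} (hw : 0 < ξ 0) (hJ : |ξ 3| ≤ M) (hp : |ξ 4| ≤ M)
    (hZ : |ZZ ξ| ≤ Z) (hδ : 0 < δ) (hW : δ ≤ Wd ξ) : |ξ 2| ≤ 2 * (Z + 2 * M) / δ := by
  have hW0 := Wd_pos hw
  have hN := one_le_NN hw
  have h1 : |(ξ 0 * ξ 4 + 4 * (-ξ 1) * ξ 3) / Wd ξ| ≤ 2 * M :=
    cs_bound hW0 (by rw [Wd_sq]; ring) hp hJ
  have h2 : ξ 2 * Wd ξ = 2 * (ZZ ξ / NN ξ - (ξ 0 * ξ 4 + 4 * (-ξ 1) * ξ 3) / Wd ξ) := by
    have := Wd_sq ξ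
    simp only [ZZ, el, a0]
    field_simp
    linear_combination (ξ 2) * this
  have h3 : |ZZ ξ / NN ξ| ≤ Z := by
    rw [abs_div, abs_of_pos (NN_pos hw)]
    exact (div_le_self (abs_nonneg _) hN).trans hZ
  have h4 : |ξ 2| * Wd ξ ≤ 2 * (Z + 2 * M) := by
    rw [← abs_of_pos hW0, ← abs_mul, h2, abs_mul, abs_two]
    have := abs_sub (ZZ ξ / NN ξ) ((ξ 0 * ξ 4 + 4 * (-ξ 1) * ξ 3) / Wd ξ)
    linarith
  rw [le_div_iff₀ hδ]
  exact (mul_le_mul_of_nonneg_left hW (abs_nonneg _)).trans h4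

lemma sign_pos {J h X W : ℝ} (hW : 0 < W) (h1 : 0 < J * h) (h2 : 0 ≤ J * X) :
    0 ≤ (2 * h)⁻¹ / W * X := by
  have hJ : J ≠ 0 := left_ne_zero_of_mul h1.ne'
  have hh : h ≠ 0 := right_ne_zero_of_mul h1.ne'
  have e : (2 * h)⁻¹ / W * X = (J * X) / (2 * (J * h) * W) := by field_simp
  rw [e]
  positivity

lemma sign_neg {J h X W : ℝ} (hW : 0 < W) (h1 : J * h < 0) (h2 : 0 ≤ J * X) :
    (2 * h)⁻¹ / W * X ≤ 0 := by
  have h3 := sign_pos (J := J) (h := -h) hW (by linarith) h2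
  have e : (2 * -h)⁻¹ / W * X = -((2 * h)⁻¹ / W * X) := by
    rw [mul_neg, inv_neg]; ring
  linarith

/-- bounds at the end points -/
def PP (k M : ℝ) (ξ : E5) : Prop :=
  |ξ 3| ≤ M ∧ |ξ 4| ≤ M ∧ |hh k ξ| ≤ M ∧ Wd ξ ≤ M ∧ M⁻¹ ≤ |ξ 4| ∧ M⁻¹ ≤ |hh k ξ| ∧ M⁻¹ ≤ Wd ξ

lemma seg (k M : ℝ) (hM : 0 < M) : ∃ C δ : ℝ, 0 < δ ∧ ∀ (γ : ℝ → E5) (a b : ℝ), a ≤ b →
    0 < a * b → PP k M (γ a) → PP k M (γ b) →
    (∀ s ∈ Icc a b, γ s 3 = s ∧ γ s ∈ UU k ∧ HasDerivAt γ (VV k (γ s)) s) →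
    ∀ s ∈ Icc a b, ‖γ s‖ ≤ C ∧ δ ≤ γ s 0 ∧ δ ≤ |γ s 4| ∧ δ ≤ |hh k (γ s)| := by
  obtain ⟨W1, hW1⟩ : ∃ W1, W1 = M + 2 * M ^ 2 * (2 * M) := ⟨_, rfl⟩
  obtain ⟨K1, hK1⟩ : ∃ K1, K1 = |k| + M * W1 := ⟨_, rfl⟩
  have hW10 : 0 < W1 := by rw [hW1]; positivity
  have hK10 : 0 < K1 := by rw [hK1]; positivity
  obtain ⟨B, hB0, hB⟩ := exists_bound (M + (1 + K1)) M⁻¹ (by positivity)
  obtain ⟨C2, hC2⟩ : ∃ C2, C2 = B * (1 + 2 * M) := ⟨_, rfl⟩
  have hC20 : 0 ≤ C2 := by rw [hC2]; positivity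
  obtain ⟨δ1, hδ1⟩ : ∃ δ1, δ1 = Real.exp (Real.log M⁻¹ - 2 * B - C2 * (2 * M)) := ⟨_, rfl⟩
  have hδ10 : 0 < δ1 := by rw [hδ1]; exact Real.exp_pos _
  obtain ⟨N1, hN1⟩ : ∃ N1, N1 = (4 * K1 + 4 * M ^ 2) * M ^ 2 := ⟨_, rfl⟩
  have hN10 : 0 < N1 := by rw [hN1]; positivity
  refine ⟨W1 + M + 2 * ((1 + K1) + 2 * M) / δ1, min (δ1 / N1) M⁻¹, by positivity, ?_⟩
  intro γ a b hab hs ha hb hγ
  have hw : ∀ s ∈ Icc a b, 0 < γ s 0 := fun s h => (hγ s h).2.1.1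
  have hp0 : ∀ s ∈ Icc a b, γ s 4 ≠ 0 := fun s h => (hγ s h).2.1.2.1
  have hh0 : ∀ s ∈ Icc a b, hh k (γ s) ≠ 0 := fun s h => (hγ s h).2.1.2.2
  have hd : ∀ s ∈ Icc a b, HasDerivAt γ ((2 * hh k (γ s))⁻¹ • YY k (γ s)) s :=
    fun s h => (hγ s h).2.2
  have hpc : ∀ s ∈ Icc a b, γ s 4 = γ a 4 := constant_of_has_deriv_right_zero
    (f := fun s => γ s 4) (fun t ht => (d4 (hd t ht)).continuousAt.continuousWithinAt)
    (fun t ht => (d4 (hd t (Ico_subset_Icc_self ht))).hasDerivWithinAt)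
  have hhc : ∀ s ∈ Icc a b, hh k (γ s) = hh k (γ a) := constant_of_has_deriv_right_zero
    (f := fun s => hh k (γ s))
    (fun t ht => (dh (hd t ht) (hw t ht)).continuousAt.continuousWithinAt)
    (fun t ht => (dh (hd t (Ico_subset_Icc_self ht))
      (hw t (Ico_subset_Icc_self ht))).hasDerivWithinAt)
  have hla : a ∈ Icc a b := left_mem_Icc.2 hab
  have hrb : b ∈ Icc a b := right_mem_Icc.2 hab
  have haM : |a| ≤ M := by have := ha.1; rwa [(hγ a hla).1] at this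
  have hbM : |b| ≤ M := by have := hb.1; rwa [(hγ b hrb).1] at this
  have hJ : ∀ s ∈ Icc a b, |γ s 3| ≤ M := by
    intro s h
    rw [(hγ s h).1, abs_le]
    constructor <;> linarith [(abs_le.1 haM).1, (abs_le.1 hbM).2, h.1, h.2]
  have hlen : ∀ s ∈ Icc a b, s - a ≤ 2 * M ∧ b - s ≤ 2 * M := by
    intro s h
    constructor <;> linarith [(abs_le.1 haM).1, (abs_le.1 hbM).2, h.1, h.2]
  have hp : ∀ s ∈ Icc a b, |γ s 4| ≤ M := fun s h => by rw [hpc s h]; exact ha.2.1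
  have hp' : ∀ s ∈ Icc a b, M⁻¹ ≤ |γ s 4| := fun s h => by rw [hpc s h]; exact ha.2.2.2.2.1
  have hH : ∀ s ∈ Icc a b, |hh k (γ s)| ≤ M := fun s h => by rw [hhc s h]; exact ha.2.2.1
  have hH' : ∀ s ∈ Icc a b, M⁻¹ ≤ |hh k (γ s)| := fun s h => by rw [hhc s h]; exact ha.2.2.2.2.2.1
  have haa : ∀ s ∈ Icc a b, |aa (γ s)| ≤ 2 * M := fun s h => aa_bound (hw s h) (hJ s h) (hp s h)
  have hWu : ∀ s ∈ Icc a b, Wd (γ s) ≤ W1 := by
    have hm := mono (f := fun s => 2 * M ^ 2 * s - Wd (γ s)) (a := a) (b := b)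
      (fun s h => ((hasDerivAt_id s).const_mul (2 * M ^ 2)).sub (dW (hd s h) (hw s h))) (by
        intro s h
        have e : (2 * hh k (γ s))⁻¹ * (2 * aa (γ s)) = aa (γ s) / hh k (γ s) := by
          have := hh0 s h
          field_simp
        rw [e, mul_one, sub_nonneg]
        refine (le_abs_self _).trans ?_
        rw [abs_div, div_le_iff₀ (abs_pos.2 (hh0 s h))]
        have h1 := mul_le_mul_of_nonneg_left (hH' s h) (by positivity : 0 ≤ 2 * M ^ 2)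
        have e2 : 2 * M ^ 2 * M⁻¹ = 2 * M := by field_simp
        linarith [haa s h])
    intro s h
    have h1 : 2 * M ^ 2 * a - Wd (γ a) ≤ 2 * M ^ 2 * s - Wd (γ s) := hm hla h h.1
    have h2 := mul_le_mul_of_nonneg_left (hlen s h).1 (by positivity : 0 ≤ 2 * M ^ 2)
    have h3 := ha.2.2.2.1
    rw [hW1]
    linarith
  have hκ : ∀ s ∈ Icc a b, |kap k (γ s)| ≤ K1 := by
    intro s h
    rw [kap, hK1]
    refine (abs_add_le _ _).trans (add_le_add le_rfl ?_)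
    rw [abs_mul, abs_of_pos (Wd_pos (hw s h))]
    exact mul_le_mul (hH s h) (hWu s h) (Wd_pos (hw s h)).le hM.le
  have hY : ∀ s ∈ Icc a b, Yv (γ s) ^ 2 ≤ 2 * K1 := by
    intro s h
    linarith [rel_YZ k (hw s h), sq_nonneg (ZZ (γ s)), (abs_le.1 (hκ s h)).2]
  have hZ : ∀ s ∈ Icc a b, |ZZ (γ s)| ≤ 1 + K1 := by
    intro s h
    refine abs_le_of_sq_le_sq ?_ (by positivity)
    linarith [rel_YZ k (hw s h), sq_nonneg (Yv (γ s)), (abs_le.1 (hκ s h)).2, sq_nonneg K1,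
      add_sq 1 K1]
  have hu : ∀ s ∈ Icc a b, |Phi (uu k (γ s))| ≤ B ∧ ‖fderiv ℝ Phi (uu k (γ s))‖ ≤ B := by
    intro s h
    refine hB _ ?_ (hp' s h)
    simp only [uu, Prod.norm_def, Real.norm_eq_abs, max_le_iff]
    refine ⟨?_, ?_, ?_, ?_⟩ <;> linarith [hZ s h, hJ s h, hκ s h, hp s h]
  have herr : ∀ s ∈ Icc a b, |fderiv ℝ Phi (uu k (γ s))
      (0, (2 * hh k (γ s))⁻¹ * (2 * hh k (γ s)),
        hh k (γ s) * ((2 * hh k (γ s))⁻¹ * (2 * aa (γ s))), 0)| ≤ C2 := by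
    intro s h
    have h0 := hh0 s h
    have e1 : (2 * hh k (γ s))⁻¹ * (2 * hh k (γ s)) = 1 := by field_simp
    have e2 : hh k (γ s) * ((2 * hh k (γ s))⁻¹ * (2 * aa (γ s))) = aa (γ s) := by field_simp
    rw [e1, e2, ← Real.norm_eq_abs, hC2]
    refine (ContinuousLinearMap.le_opNorm _ _).trans
      (mul_le_mul (hu s h).2 ?_ (norm_nonneg _) hB0)
    simp only [Prod.norm_def, Real.norm_eq_abs, max_le_iff, abs_zero, abs_one]
    refine ⟨?_, ?_, ?_, ?_⟩ <;> linarith [haa s h]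
  have hL0 : ∀ s ∈ Icc a b, M⁻¹ ≤ Wd (γ s) → Real.log M⁻¹ - B ≤ LL k (γ s) := by
    intro s h h1
    have h2 := Real.log_le_log (by positivity) h1
    rw [LL]
    linarith [(abs_le.1 (hu s h).1).1]
  have hL : ∀ s ∈ Icc a b, Real.log M⁻¹ - B - C2 * (2 * M) ≤ LL k (γ s) := by
    have ha0 : a ≠ 0 := left_ne_zero_of_mul hs.ne'
    have hsa : ∀ s ∈ Icc a b, 0 < s * a := by
      intro s h
      rcases lt_or_gt_of_ne ha0 with h1 | h1
      · have h2 : b < 0 := by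
          by_contra h3
          linarith [mul_nonpos_of_nonpos_of_nonneg h1.le (not_lt.1 h3)]
        exact mul_pos_of_neg_of_neg (lt_of_le_of_lt h.2 h2) h1
      · exact mul_pos (lt_of_lt_of_le h1 h.1) h1
    have hsq : 0 < a * a := mul_self_pos.2 ha0
    rcases lt_or_gt_of_ne (mul_ne_zero ha0 (hh0 a hla)) with h1 | h1
    · have hm := mono (f := fun s => C2 * s - LL k (γ s)) (a := a) (b := b)
        (fun s h => ((hasDerivAt_id s).const_mul C2).sub (dL (hd s h) (hw s h) (hp0 s h))) (by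
          intro s h
          have h2 : γ s 3 * hh k (γ s) < 0 := by
            rw [(hγ s h).1, hhc s h]
            have h3 := mul_neg_of_pos_of_neg (hsa s h) h1
            by_contra h4
            have h5 := mul_nonneg hsq.le (not_lt.1 h4)
            linarith
          have h3 := sign_neg (mul_pos (Wd_pos (hw s h)) (NN_pos (hw s h))) h2
            (key (k := k) (hw s h) (hp0 s h))
          linarith [(abs_le.1 (herr s h)).2])
      intro s h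
      have h2 : C2 * s - LL k (γ s) ≤ C2 * b - LL k (γ b) := hm h hrb h.2
      have h3 := mul_le_mul_of_nonneg_left (hlen s h).2 hC20
      linarith [hL0 b hrb hb.2.2.2.2.2.2]
    · have hm := mono (f := fun s => C2 * s + LL k (γ s)) (a := a) (b := b)
        (fun s h => ((hasDerivAt_id s).const_mul C2).add (dL (hd s h) (hw s h) (hp0 s h))) (by
          intro s h
          have h2 : 0 < γ s 3 * hh k (γ s) := by
            rw [(hγ s h).1, hhc s h]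
            have h3 := mul_pos (hsa s h) h1
            by_contra h4
            have h5 := mul_nonneg hsq.le (neg_nonneg.2 (not_lt.1 h4))
            linarith
          have h3 := sign_pos (mul_pos (Wd_pos (hw s h)) (NN_pos (hw s h))) h2
            (key (k := k) (hw s h) (hp0 s h))
          linarith [(abs_le.1 (herr s h)).1])
      intro s h
      have h2 : C2 * a + LL k (γ a) ≤ C2 * s + LL k (γ s) := hm hla h h.1
      have h3 := mul_le_mul_of_nonneg_left (hlen s h).1 hC20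
      linarith [hL0 a hla ha.2.2.2.2.2.2]
  have hWl : ∀ s ∈ Icc a b, δ1 ≤ Wd (γ s) := by
    intro s h
    rw [hδ1, ← Real.le_log_iff_exp_le (Wd_pos (hw s h))]
    have h1 := hL s h
    rw [LL] at h1
    linarith [(abs_le.1 (hu s h).1).2]
  intro s h
  have hN : NN (γ s) ^ 2 ≤ N1 := by
    rw [hN1]
    exact N_alg (one_le_NN (hw s h)) (sg_sq (hw s h)) hM (rel_R (hw s h)) (hJ s h) (hp s h)
      (hp' s h) (hY s h)
  have hpz := pz_bound (hw s h) (hJ s h) (hp s h) (hZ s h) hδ10 (hWl s h)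
  have hq : 0 ≤ 2 * ((1 + K1) + 2 * M) / δ1 := by positivity
  refine ⟨?_, (min_le_left _ _).trans ?_, (min_le_right _ _).trans (hp' s h),
    (min_le_right _ _).trans (hH' s h)⟩
  · rw [pi_norm_le_iff_of_nonneg (by positivity)]
    intro i
    rw [Real.norm_eq_abs]
    fin_cases i
    · change |γ s 0| ≤ _
      rw [abs_of_pos (hw s h)]
      linarith [w_le (hw s h), hWu s h]
    · change |γ s 1| ≤ _
      linarith [z_le (hw s h), hWu s h]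
    · change |γ s 2| ≤ _
      linarith
    · change |γ s 3| ≤ _
      linarith [hJ s h]
    · change |γ s 4| ≤ _
      linarith [hp s h]
  · rw [div_le_iff₀ hN10]
    have h1 := mul_le_mul_of_nonneg_right hN (hw s h).le
    linarith [NN_sq (hw s h), hWl s h]

lemma exists_PP (k : ℝ) {A : Set E5} (hA : IsCompact A) (hAU : A ⊆ UU k) :
    ∃ M : ℝ, 0 < M ∧ ∀ ξ ∈ A, PP k M ξ := by
  obtain ⟨C, hC⟩ := hA.exists_bound_of_continuousOn
    (f := fun ξ : E5 => (ξ 3, ξ 4, hh k ξ, Wd ξ, (ξ 4)⁻¹, (hh k ξ)⁻¹, (Wd ξ)⁻¹)) (by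
      intro ξ hξ
      obtain ⟨h1, h2, h3⟩ := hAU hξ
      have c1 := (contDiffAt_hh k h1).continuousAt
      have c2 := (contDiffAt_Wd h1).continuousAt
      have c3 : ContinuousAt (fun ξ : E5 => ξ 3) ξ := (continuous_apply 3).continuousAt
      have c4 : ContinuousAt (fun ξ : E5 => ξ 4) ξ := (continuous_apply 4).continuousAt
      exact (c3.prodMk (c4.prodMk (c1.prodMk (c2.prodMk ((c4.inv₀ h2).prodMk
        ((c1.inv₀ h3).prodMk (c2.inv₀ (Wd_pos h1).ne'))))))).continuousWithinAt)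
  refine ⟨|C| + 1, by positivity, fun ξ hξ => ?_⟩
  obtain ⟨h1, h2, h3⟩ := hAU hξ
  have h := hC ξ hξ
  simp only [Prod.norm_def, Real.norm_eq_abs, max_le_iff] at h
  obtain ⟨k1, k2, k3, k4, k5, k6, k7⟩ := h
  have hC' : C ≤ |C| + 1 := by linarith [le_abs_self C]
  have hinv : ∀ x : ℝ, x ≠ 0 → |x⁻¹| ≤ C → (|C| + 1)⁻¹ ≤ |x| := by
    intro x hx h
    rw [abs_inv] at h
    exact inv_le_of_inv_le₀ (abs_pos.2 hx) (h.trans hC')
  have hW := Wd_pos h1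
  refine ⟨k1.trans hC', k2.trans hC', k3.trans hC', (le_abs_self _).trans (k4.trans hC'),
    hinv _ h2 k5, hinv _ h3 k6, ?_⟩
  have := hinv _ hW.ne' k7
  rwa [abs_of_pos hW] at this

theorem nr (k : ℝ) : NR (sys k) := by
  intro A hA hAU
  obtain ⟨M, hM, hP⟩ := exists_PP k hA hAU
  obtain ⟨C, δ, hδ, hseg⟩ := seg k M hM
  set K0 : Set E5 := Metric.closedBall 0 C ∩ {ξ | δ ≤ ξ 0} ∩ {ξ | δ ≤ |ξ 4|} with hK0
  have hK0c : IsCompact K0 := ((isCompact_closedBall _ _).inter_right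
    (isClosed_le continuous_const (continuous_apply 0))).inter_right
    (isClosed_le continuous_const (by fun_prop))
  have hcont : ContinuousOn (fun ξ => |hh k ξ|) K0 := fun ξ hξ =>
    (contDiffAt_hh k (lt_of_lt_of_le hδ hξ.1.2)).continuousAt.abs.continuousWithinAt
  refine ⟨K0 ∩ (fun ξ => |hh k ξ|) ⁻¹' Ici δ, hK0c.of_isClosed_subset
    (hcont.preimage_isClosed_of_isClosed hK0c.isClosed isClosed_Ici) inter_subset_left, ?_, ?_⟩
  · rintro ξ ⟨⟨⟨-, h1⟩, h2⟩, h3⟩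
    exact ⟨lt_of_lt_of_le hδ h1, abs_pos.1 (lt_of_lt_of_le hδ h2),
      abs_pos.1 (lt_of_lt_of_le hδ h3)⟩
  · intro γ a b hs ha hb hJ hγ s hs'
    have hJs : ∀ s ∈ uIcc a b, γ s 3 = s := by
      intro s h
      have := curve_const (f := (sys k).J) (c := 1) hγ
        (fun x hx => ⟨_, (sys k).J.hasFDerivAt, (sys k).JV x hx⟩) s h
      rw [hJ] at this
      have e : (sys k).J (γ s) = γ s 3 := rfl
      linarith
    have key : ‖γ s‖ ≤ C ∧ δ ≤ γ s 0 ∧ δ ≤ |γ s 4| ∧ δ ≤ |hh k (γ s)| := by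
      rcases le_total a b with hab | hab
      · rw [uIcc_of_le hab] at hs' hγ hJs
        exact hseg γ a b hab hs (hP _ ha) (hP _ hb) (fun s h => ⟨hJs s h, hγ s h⟩) s hs'
      · rw [uIcc_of_ge hab] at hs' hγ hJs
        exact hseg γ b a hab (by rwa [mul_comm]) (hP _ hb) (hP _ ha)
          (fun s h => ⟨hJs s h, hγ s h⟩) s hs'
    exact ⟨⟨⟨mem_closedBall_zero_iff.2 key.1, key.2.1⟩, key.2.2.1⟩, key.2.2.2⟩

end

end Pool.Agent.H74Z.KHLyap
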