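import Mathlib
import Pool.Agent.H74Z.KHAbs

open Topology Filter Set
open scoped ContDiff

namespace Pool.Agent.H74Z.KHSum

open KHAbs

noncomputable section

lemma exists_coeff (c : ℕ → ℕ → ℝ) (hc : ∀ m, c m m ≠ 0) (hs : ∀ m, Summable fun n => |c m n|) :
    ∃ t : ℕ → ℝ, (∀ n, t n ∈ Icc (0:ℝ) 1) ∧ ∀ m, ∑' n, t n * c m n ≠ 0 := by
  set f : ℕ → (ℕ → unitInterval) → ℝ := fun m t => ∑' n, (t n : ℝ) * c m n with hf
  have hb : ∀ m n (t : ℕ → unitInterval), ‖(t n : ℝ) * c m n‖ ≤ |c m n| := by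
    intro m n t
    rw [norm_mul, Real.norm_eq_abs, Real.norm_eq_abs, abs_of_nonneg (t n).2.1]
    exact mul_le_of_le_one_left (abs_nonneg _) (t n).2.2
  have hcont : ∀ m, Continuous (f m) := fun m =>
    continuous_tsum (fun n => by fun_prop) (hs m) (hb m)
  have hsum : ∀ m (t : ℕ → unitInterval), Summable fun n => (t n : ℝ) * c m n := fun m t =>
    Summable.of_norm_bounded (hs m) (fun n => hb m n t)
  have hdense : ∀ m, Dense {t | f m t ≠ 0} := by
    intro m t
    by_cases h0 : f m t ≠ 0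
    · exact subset_closure h0
    rw [not_not] at h0
    have hu : Continuous (fun r : unitInterval => Function.update t m r) := by fun_prop
    have h1 : t = Function.update t m (t m) := by simp
    rw [h1]
    refine mem_closure_of_frequently_of_tendsto (b := 𝓝 (t m)) ?_ hu.continuousAt
    have h2 : ∃ᶠ r in 𝓝 (t m), r ≠ t m :=
      mem_closure_iff_frequently.1 (dense_compl_singleton (t m) (t m))
    refine h2.mono fun r hr => ?_
    have h3 : f m (Function.update t m r) = f m t + ((r : ℝ) - t m) * c m m := by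
      have h4 : HasSum (fun n => if n = m then ((r : ℝ) - t m) * c m m else 0)
          (((r : ℝ) - t m) * c m m) := hasSum_ite_eq m _
      have h5 := ((hsum m t).hasSum.add h4).tsum_eq
      rw [← h5]
      refine tsum_congr fun n => ?_
      by_cases hn : n = m
      · subst hn
        simp only [Function.update_self, if_true]
        ring
      · simp [Function.update_of_ne hn, hn]
    show f m (Function.update t m r) ≠ 0
    rw [h3, h0, zero_add]
    exact mul_ne_zero (sub_ne_zero.2 fun h => hr (Subtype.ext h)) (hc m)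
  obtain ⟨t, ht⟩ := (dense_iInter_of_isOpen (f := fun m => {t | f m t ≠ 0})
    (fun m => isOpen_ne_fun (hcont m) continuous_const) hdense).nonempty
  exact ⟨fun n => t n, fun n => (t n).2, fun m => mem_iInter.1 ht m⟩

variable {E : Type} [NormedAddCommGroup E] [NormedSpace ℝ E] [FiniteDimensional ℝ E]

lemma exists_cover {W : Set E} (hW : IsOpen W) (hne : W.Nonempty) :
    ∃ χ : ℕ → E → ℝ, (∀ j, ContDiff ℝ ∞ (χ j) ∧ HasCompactSupport (χ j) ∧ tsupport (χ j) ⊆ W) ∧
      ∀ y ∈ W, ∃ j, ∀ᶠ x in 𝓝 y, χ j x = 1 := by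
  have h : ∀ y : W, ∃ χ : E → ℝ, ContDiff ℝ ∞ χ ∧ HasCompactSupport χ ∧ tsupport χ ⊆ W ∧
      ∀ᶠ x in 𝓝 (y : E), χ x = 1 := by
    intro y
    obtain ⟨χ, h1, h2, h3, h4⟩ := exists_cutoff (K := {(y : E)}) isCompact_singleton hW
      (singleton_subset_iff.2 y.2)
    exact ⟨χ, h1, h2, h3, by rwa [nhdsSet_singleton] at h4⟩
  choose χ h1 h2 h3 h4 using h
  obtain ⟨T, hT, hU⟩ := TopologicalSpace.isOpen_iUnion_countable
    (fun y : W => interior {x | χ y x = 1}) (fun _ => isOpen_interior)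
  have hmem : ∀ y ∈ W, ∃ i ∈ T, y ∈ interior {x | χ i x = 1} := by
    intro y hy
    have : y ∈ ⋃ i ∈ T, interior {x | χ i x = 1} := by
      rw [hU]
      exact mem_iUnion.2 ⟨⟨y, hy⟩, mem_interior_iff_mem_nhds.2 (h4 ⟨y, hy⟩)⟩
    simpa using this
  obtain ⟨y0, hy0⟩ := hne
  obtain ⟨i0, hi0, -⟩ := hmem y0 hy0
  obtain ⟨g, hg⟩ := hT.exists_eq_range ⟨i0, hi0⟩
  refine ⟨fun j => χ (g j), fun j => ⟨h1 _, h2 _, h3 _⟩, fun y hy => ?_⟩
  obtain ⟨i, hi, hyi⟩ := hmem y hy
  rw [hg] at hi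
  obtain ⟨j, rfl⟩ := hi
  exact ⟨j, mem_interior_iff_mem_nhds.1 hyi⟩

lemma exists_delta (C : ℕ → ℕ → ℕ → ℝ) (hC : ∀ j n i, 0 ≤ C j n i) :
    ∃ δ : ℕ → ℝ, (∀ n, 0 < δ n) ∧ ∀ j i, Summable fun n => δ n * C j n i := by
  set D : ℕ → ℝ := fun n => ∑ j ∈ Finset.range (n + 1), ∑ i ∈ Finset.range (n + 1), C j n i with hD
  have hD0 : ∀ n, 0 ≤ D n := fun n =>
    Finset.sum_nonneg fun j _ => Finset.sum_nonneg fun i _ => hC j n i
  refine ⟨fun n => (1 / 2) ^ n / (1 + D n), fun n => by have := hD0 n; positivity, fun j i => ?_⟩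
  refine Summable.of_norm_bounded_eventually_nat summable_geometric_two ?_
  filter_upwards [eventually_ge_atTop (max j i)] with n hn
  have h1 := hD0 n
  have h2 := hC j n i
  have h3 : C j n i ≤ D n :=
    (Finset.single_le_sum (f := fun i => C j n i) (fun i _ => hC j n i)
      (Finset.mem_range.2 (by omega))).trans
    (Finset.single_le_sum (f := fun j => ∑ i ∈ Finset.range (n + 1), C j n i)
      (fun j _ => Finset.sum_nonneg fun i _ => hC j n i) (Finset.mem_range.2 (by omega)))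
  rw [Real.norm_of_nonneg (by positivity), div_mul_eq_mul_div, div_le_iff₀ (by positivity)]
  exact mul_le_mul_of_nonneg_left (by linarith) (by positivity)

theorem exists_sum {W : Set E} (hW : IsOpen W) (F : ℕ → E → ℝ) (hF : ∀ n, ContDiffOn ℝ ∞ (F n) W)
    (x v : ℕ → E) (hx : ∀ m, x m ∈ W) (hv : ∀ m, fderiv ℝ (F m) (x m) (v m) ≠ 0) :
    ∃ G : E → ℝ, ContDiffOn ℝ ∞ G W ∧ (∀ m, fderiv ℝ G (x m) (v m) ≠ 0) ∧
      ∀ y ∈ W, ∀ u, (∀ n, fderiv ℝ (F n) y u = 0) → fderiv ℝ G y u = 0 := by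
  obtain ⟨χ, hχ, hcov⟩ := exists_cover hW ⟨x 0, hx 0⟩
  set g : ℕ → ℕ → E → ℝ := fun j n y => χ j y • F n y with hg
  have hgs : ∀ j n, ContDiff ℝ ∞ (g j n) := fun j n =>
    contDiff_cut hW (hχ j).1 (hχ j).2.2 (hF n)
  have hgc : ∀ j n, HasCompactSupport (g j n) := fun j n => (hχ j).2.1.smul_right
  have hb : ∀ j n i : ℕ, ∃ C : ℝ, 0 ≤ C ∧ ∀ y, ‖iteratedFDeriv ℝ i (g j n) y‖ ≤ C := by
    intro j n i
    obtain ⟨C, hC⟩ := ((hgc j n).iteratedFDeriv (𝕜 := ℝ) i).exists_bound_of_continuous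
      ((hgs j n).continuous_iteratedFDeriv (by exact_mod_cast le_top))
    exact ⟨C, (norm_nonneg _).trans (hC 0), hC⟩
  choose C hC0 hC using hb
  obtain ⟨δ, hδ, hsum⟩ := exists_delta C hC0
  have heq : ∀ y j, (∀ᶠ x in 𝓝 y, χ j x = 1) → ∀ n, g j n =ᶠ[𝓝 y] F n := by
    intro y j h n
    filter_upwards [h] with z hz
    simp [hg, hz]
  have hfd : ∀ j n y, ‖fderiv ℝ (g j n) y‖ ≤ C j n 1 := by
    intro j n y
    have := hC j n 1 y
    rwa [norm_iteratedFDeriv_one] at this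
  obtain ⟨t, ht, ht0⟩ := exists_coeff (fun m n => δ n * fderiv ℝ (F n) (x m) (v m))
    (fun m => mul_ne_zero (hδ m).ne' (hv m)) (by
      intro m
      obtain ⟨j, hj⟩ := hcov _ (hx m)
      refine Summable.of_nonneg_of_le (fun n => abs_nonneg _) (fun n => ?_)
        ((hsum j 1).mul_right ‖v m‖)
      rw [abs_mul, abs_of_pos (hδ n), mul_assoc, ← (heq _ j hj n).fderiv_eq]
      refine mul_le_mul_of_nonneg_left ?_ (hδ n).le
      exact (ContinuousLinearMap.le_opNorm _ _).trans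
        (mul_le_mul_of_nonneg_right (hfd j n _) (norm_nonneg _)))
  set ε : ℕ → ℝ := fun n => t n * δ n with hε
  have hε0 : ∀ n, |ε n| ≤ δ n := by
    intro n
    rw [hε, abs_mul, abs_of_nonneg (ht n).1, abs_of_pos (hδ n)]
    exact mul_le_of_le_one_left (hδ n).le (ht n).2
  have hbd : ∀ j n i y, ‖iteratedFDeriv ℝ i (ε n • g j n) y‖ ≤ δ n * C j n i := by
    intro j n i y
    rw [iteratedFDeriv_const_smul_apply
      ((hgs j n).contDiffAt.of_le (by exact_mod_cast le_top)), norm_smul, Real.norm_eq_abs]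
    exact mul_le_mul (hε0 n) (hC j n i y) (norm_nonneg _) (hδ n).le
  have hsm : ∀ j n, ContDiff ℝ ∞ (ε n • g j n) := fun j n => (hgs j n).const_smul (ε n)
  have hG : ∀ j, ContDiff ℝ ∞ (fun y => ∑' n, (ε n • g j n) y) := fun j =>
    contDiff_tsum (N := ⊤) (v := fun i n => δ n * C j n i) (hsm j) (fun i _ => hsum j i)
      (fun i n y _ => hbd j n i y)
  set G : E → ℝ := fun y => ∑' n, ε n * F n y with hGd
  have hGe : ∀ y j, (∀ᶠ x in 𝓝 y, χ j x = 1) → G =ᶠ[𝓝 y] fun y => ∑' n, (ε n • g j n) y := by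
    intro y j h
    filter_upwards [h] with z hz
    simp [hGd, hg, hz]
  have hder : ∀ y ∈ W, ∀ u, fderiv ℝ G y u = ∑' n, ε n * fderiv ℝ (F n) y u := by
    intro y hy u
    obtain ⟨j, hj⟩ := hcov y hy
    have hb1 : ∀ n z, ‖fderiv ℝ (ε n • g j n) z‖ ≤ δ n * C j n 1 := by
      intro n z
      have := hbd j n 1 z
      rwa [norm_iteratedFDeriv_one] at this
    have hb0 : Summable fun n => (ε n • g j n) y := by
      refine Summable.of_norm_bounded (hsum j 0) fun n => ?_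
      have := hbd j n 0 y
      rwa [norm_iteratedFDeriv_zero] at this
    rw [(hGe y j hj).fderiv_eq, fderiv_tsum_apply (hsum j 1)
      (fun n => (hsm j n).differentiable (by simp)) hb1 hb0 y]
    have hs : Summable fun n => fderiv ℝ (ε n • g j n) y :=
      Summable.of_norm_bounded (hsum j 1) fun n => hb1 n y
    have h2 := (ContinuousLinearMap.apply ℝ ℝ u).map_tsum hs
    simp only [ContinuousLinearMap.apply_apply] at h2
    rw [h2]
    refine tsum_congr fun n => ?_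
    rw [fderiv_const_smul (((hgs j n).differentiable (by simp)) y), (heq y j hj n).fderiv_eq]
    simp
  refine ⟨G, fun y hy => ?_, fun m => ?_, fun y hy u hu => ?_⟩
  · obtain ⟨j, hj⟩ := hcov y hy
    exact ((hG j).contDiffAt.congr_of_eventuallyEq (hGe y j hj)).contDiffWithinAt
  · rw [hder _ (hx m)]
    simpa only [hε, mul_assoc] using ht0 m
  · rw [hder y hy]
    simp [hu]

end

end Pool.Agent.H74Z.KHSum
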