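import Mathlib
import Pool.Agent.H74Z.KHDefs
import Pool.Agent.H74Z.KHLyap
import Pool.Agent.H74Z.KHSum

open Topology Filter Set
open scoped ContDiff

namespace Pool.Agent.H74Z.KH

open KHPhi KHRed KHAbs KHLyap KHSum

noncomputable section

def kk : ℝ := 1 / (8 * Real.pi)

def rho (u : Phase) : ℝ := √((u.1 0 ^ 2 + u.1 1 ^ 2) ^ 2 + 16 * u.1 2 ^ 2)

def proj (u : Phase) : E5 :=
  ![u.1 0 ^ 2 + u.1 1 ^ 2, u.1 2, u.2 2, u.1 0 * u.2 0 + u.1 1 * u.2 1 + 2 * u.1 2 * u.2 2,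
    pTheta u]

def ham (G : Phase → ℝ) (u : Phase) : Phase :=
  (fun i => fderiv ℝ G u (0, Pi.single i 1), fun i => -fderiv ℝ G u (Pi.single i 1, 0))

lemma phase_decomp (v : Phase) : v = ∑ i : Fin 3, (v.1 i • ((Pi.single i 1, 0) : Phase) +
    v.2 i • ((0, Pi.single i 1) : Phase)) := by
  ext i <;> fin_cases i <;> simp [Fin.sum_univ_three]

lemma poisson_eq (F G : Phase → ℝ) (u : Phase) : poisson F G u = fderiv ℝ F u (ham G u) := by
  conv_rhs => rw [phase_decomp (ham G u)]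
  simp only [map_sum, map_add, map_smul, poisson, ham, smul_eq_mul]
  refine Finset.sum_congr rfl fun i _ => ?_
  ring

lemma poisson_swap (F G : Phase → ℝ) (u : Phase) : poisson F G u = -poisson G F u := by
  simp only [poisson, ← Finset.sum_neg_distrib]
  refine Finset.sum_congr rfl fun i _ => ?_
  ring

lemma poisson_self (F : Phase → ℝ) (u : Phase) : poisson F F u = 0 := by
  have := poisson_swap F F u
  linarith

lemma rho2_pos {u : Phase} (hu : u.1 ≠ 0) :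
    0 < (u.1 0 ^ 2 + u.1 1 ^ 2) ^ 2 + 16 * u.1 2 ^ 2 := by
  by_contra h
  apply hu
  have h1 : (u.1 0 ^ 2 + u.1 1 ^ 2) ^ 2 = 0 := by
    nlinarith [sq_nonneg (u.1 2), sq_nonneg (u.1 0 ^ 2 + u.1 1 ^ 2)]
  have h2 : u.1 2 ^ 2 = 0 := by
    nlinarith [sq_nonneg (u.1 2), sq_nonneg (u.1 0 ^ 2 + u.1 1 ^ 2)]
  have h3 : u.1 0 ^ 2 + u.1 1 ^ 2 = 0 := pow_eq_zero_iff (two_ne_zero) |>.1 h1
  have h4 : u.1 0 ^ 2 = 0 := by nlinarith [sq_nonneg (u.1 0), sq_nonneg (u.1 1)]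
  have h5 : u.1 1 ^ 2 = 0 := by nlinarith [sq_nonneg (u.1 0), sq_nonneg (u.1 1)]
  ext i
  fin_cases i
  · exact pow_eq_zero_iff (two_ne_zero) |>.1 h4
  · exact pow_eq_zero_iff (two_ne_zero) |>.1 h5
  · exact pow_eq_zero_iff (two_ne_zero) |>.1 h2

lemma rho_pos {u : Phase} (hu : u.1 ≠ 0) : 0 < rho u := Real.sqrt_pos.2 (rho2_pos hu)

lemma rho_sq (u : Phase) : rho u ^ 2 = (u.1 0 ^ 2 + u.1 1 ^ 2) ^ 2 + 16 * u.1 2 ^ 2 :=
  Real.sq_sqrt (by positivity)

lemma H_eq : H = fun u : Phase =>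
    1 / 2 * ((u.2 0 - 1 / 2 * u.1 1 * u.2 2) ^ 2 + (u.2 1 + 1 / 2 * u.1 0 * u.2 2) ^ 2) -
      kk / rho u := by
  ext u
  rw [H, kk, div_div, rho]

lemma contDiffAt_rho {u : Phase} (hu : u.1 ≠ 0) : ContDiffAt ℝ ∞ rho u :=
  ContDiffAt.sqrt (by fun_prop) (rho2_pos hu).ne'

lemma contDiffAt_H {u : Phase} (hu : u.1 ≠ 0) : ContDiffAt ℝ ∞ H u := by
  rw [H_eq]
  exact ContDiffAt.sub (by fun_prop) (contDiffAt_const.div (contDiffAt_rho hu) (rho_pos hu).ne')

lemma contDiff_pTheta : ContDiff ℝ ∞ pTheta := by unfold pTheta; fun_prop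

lemma contDiff_proj : ContDiff ℝ ∞ proj := by
  rw [contDiff_pi]
  intro i
  fin_cases i
  · change ContDiff ℝ ∞ fun u : Phase => u.1 0 ^ 2 + u.1 1 ^ 2
    fun_prop
  · change ContDiff ℝ ∞ fun u : Phase => u.1 2
    fun_prop
  · change ContDiff ℝ ∞ fun u : Phase => u.2 2
    fun_prop
  · change ContDiff ℝ ∞ fun u : Phase => u.1 0 * u.2 0 + u.1 1 * u.2 1 + 2 * u.1 2 * u.2 2
    fun_prop
  · exact contDiff_pTheta

lemma isOpen_W : IsOpen W := by
  rw [isOpen_iff_mem_nhds]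
  rintro u ⟨h1, h2⟩
  have e1 : ∀ᶠ v : Phase in 𝓝 u, v.1 ≠ 0 := continuous_fst.continuousAt.eventually_ne h1
  have e2 : ∀ᶠ v : Phase in 𝓝 u, H v ≠ 0 := (contDiffAt_H h1).continuousAt.eventually_ne h2
  filter_upwards [e1, e2] with v a b
  exact ⟨a, b⟩

lemma fderiv_of_line {F : Type} [NormedAddCommGroup F] [NormedSpace ℝ F] {f : Phase → F}
    {u v : Phase} {d : F} (hf : DifferentiableAt ℝ f u)
    (h : HasDerivAt (fun t : ℝ => f (u + t • v)) d 0) : fderiv ℝ f u v = d := by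
  have h2 : HasDerivAt (fun t : ℝ => u + t • v) v 0 := by
    simpa using ((hasDerivAt_id (0:ℝ)).smul_const v).const_add u
  have h5 : HasFDerivAt f (fderiv ℝ f u) (u + (0:ℝ) • v) := by
    rw [zero_smul, add_zero]; exact hf.hasFDerivAt
  exact (h5.comp_hasDerivAt 0 h2).unique h

lemma lq (u v : Phase) (i : Fin 3) : HasDerivAt (fun t : ℝ => (u + t • v).1 i) (v.1 i) 0 := by
  simpa using ((hasDerivAt_id (0:ℝ)).mul_const (v.1 i)).const_add (u.1 i)

lemma lp (u v : Phase) (i : Fin 3) : HasDerivAt (fun t : ℝ => (u + t • v).2 i) (v.2 i) 0 := by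
  simpa using ((hasDerivAt_id (0:ℝ)).mul_const (v.2 i)).const_add (u.2 i)

lemma fderiv_H {u : Phase} (hu : u.1 ≠ 0) (v : Phase) : fderiv ℝ H u v =
    (u.2 0 - 1 / 2 * u.1 1 * u.2 2) * (v.2 0 - (v.1 1 * u.2 2 + u.1 1 * v.2 2) / 2) +
    (u.2 1 + 1 / 2 * u.1 0 * u.2 2) * (v.2 1 + (v.1 0 * u.2 2 + u.1 0 * v.2 2) / 2) +
    kk * ((u.1 0 ^ 2 + u.1 1 ^ 2) * (2 * u.1 0 * v.1 0 + 2 * u.1 1 * v.1 1) +
      16 * u.1 2 * v.1 2) / rho u ^ 3 := by
  refine fderiv_of_line ((contDiffAt_H hu).differentiableAt (by simp)) ?_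
  have h0 := rho_pos hu
  have hr : HasDerivAt (fun t : ℝ => rho (u + t • v))
      (((u.1 0 ^ 2 + u.1 1 ^ 2) * (2 * u.1 0 * v.1 0 + 2 * u.1 1 * v.1 1) +
        16 * u.1 2 * v.1 2) / rho u) 0 := by
    have := (((((lq u v 0).pow 2).add ((lq u v 1).pow 2)).pow 2).add
      (((lq u v 2).pow 2).const_mul 16)).sqrt (by simpa using (rho2_pos hu).ne')
    refine this.congr_deriv ?_
    simp only [Pi.add_apply, Pi.pow_apply, zero_smul, add_zero]
    change _ / (2 * rho u) = _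
    field_simp
    ring
  have := (((((lp u v 0).sub (((lq u v 1).const_mul (1 / 2)).mul (lp u v 2))).pow 2).add
    (((lp u v 1).add (((lq u v 0).const_mul (1 / 2)).mul (lp u v 2))).pow 2)).const_mul
    (1 / 2)).sub ((hasDerivAt_const (0:ℝ) kk).fun_div hr (by simpa using h0.ne'))
  rw [H_eq]
  refine this.congr_deriv ?_
  simp only [Pi.add_apply, Pi.sub_apply, Pi.mul_apply, zero_smul, add_zero]
  field_simp
  ring

lemma fderiv_proj (u v : Phase) : fderiv ℝ proj u v =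
    ![2 * u.1 0 * v.1 0 + 2 * u.1 1 * v.1 1, v.1 2, v.2 2,
      v.1 0 * u.2 0 + u.1 0 * v.2 0 + (v.1 1 * u.2 1 + u.1 1 * v.2 1) +
        (2 * v.1 2 * u.2 2 + 2 * u.1 2 * v.2 2),
      v.1 0 * u.2 1 + u.1 0 * v.2 1 - (v.1 1 * u.2 0 + u.1 1 * v.2 0)] := by
  refine fderiv_of_line ((contDiff_proj.differentiable (by simp)) u) ?_
  rw [hasDerivAt_pi]
  intro i
  fin_cases i
  · exact (((lq u v 0).pow 2).add ((lq u v 1).pow 2)).congr_deriv (by simp)
  · exact lq u v 2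
  · exact lp u v 2
  · exact ((((lq u v 0).mul (lp u v 0)).add ((lq u v 1).mul (lp u v 1))).add
      (((lq u v 2).const_mul 2).mul (lp u v 2))).congr_deriv (by simp)
  · exact (((lq u v 0).mul (lp u v 1)).sub ((lq u v 1).mul (lp u v 0))).congr_deriv (by simp)

lemma fderiv_pTheta (u v : Phase) : fderiv ℝ pTheta u v =
    v.1 0 * u.2 1 + u.1 0 * v.2 1 - (v.1 1 * u.2 0 + u.1 1 * v.2 0) := by
  refine fderiv_of_line ((contDiff_pTheta.differentiable (by simp)) u) ?_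
  exact (((lq u v 0).mul (lp u v 1)).sub ((lq u v 1).mul (lp u v 0))).congr_deriv (by simp)

lemma ham_H {u : Phase} (hu : u.1 ≠ 0) : ham H u =
    (![u.2 0 - 1 / 2 * u.1 1 * u.2 2, u.2 1 + 1 / 2 * u.1 0 * u.2 2,
      (u.1 0 * (u.2 1 + 1 / 2 * u.1 0 * u.2 2) - u.1 1 * (u.2 0 - 1 / 2 * u.1 1 * u.2 2)) / 2],
     ![-((u.2 1 + 1 / 2 * u.1 0 * u.2 2) * u.2 2 / 2 +
        kk * ((u.1 0 ^ 2 + u.1 1 ^ 2) * (2 * u.1 0)) / rho u ^ 3),
       -(-((u.2 0 - 1 / 2 * u.1 1 * u.2 2) * u.2 2 / 2) +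
        kk * ((u.1 0 ^ 2 + u.1 1 ^ 2) * (2 * u.1 1)) / rho u ^ 3),
       -(kk * (16 * u.1 2) / rho u ^ 3)]) := by
  ext i <;> fin_cases i <;> simp [ham, fderiv_H hu] <;> ring

lemma ham_pTheta (u : Phase) : ham pTheta u = (![-u.1 1, u.1 0, 0], ![-u.2 1, u.2 0, 0]) := by
  ext i <;> fin_cases i <;> simp [ham, fderiv_pTheta]

lemma proj_ham_pTheta (u : Phase) : fderiv ℝ proj u (ham pTheta u) = 0 := by
  rw [ham_pTheta, fderiv_proj]
  ext i
  fin_cases i <;> simp <;> ring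

lemma Wd_proj (u : Phase) : Wd (proj u) = rho u := rfl

lemma hh_proj {u : Phase} (hw : 0 < proj u 0) : hh kk (proj u) = H u := by
  have hw' : u.1 0 ^ 2 + u.1 1 ^ 2 ≠ 0 := hw.ne'
  rw [H_eq, hh, Wd_proj]
  congr 1
  simp only [a0, el, proj, pTheta]
  simp
  field_simp
  ring

lemma q_ne_of_pos {u : Phase} (hw : 0 < proj u 0) : u.1 ≠ 0 := by
  intro h
  simp [proj, h] at hw

lemma pos_of_pTheta {u : Phase} (hp : pTheta u ≠ 0) : 0 < proj u 0 := by
  change 0 < u.1 0 ^ 2 + u.1 1 ^ 2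
  by_contra h
  have h4 : u.1 0 ^ 2 = 0 := by nlinarith [sq_nonneg (u.1 0), sq_nonneg (u.1 1)]
  have h5 : u.1 1 ^ 2 = 0 := by nlinarith [sq_nonneg (u.1 0), sq_nonneg (u.1 1)]
  apply hp
  rw [pTheta, (pow_eq_zero_iff two_ne_zero).1 h4, (pow_eq_zero_iff two_ne_zero).1 h5]
  simp

lemma proj_ham_H {u : Phase} (hw : 0 < proj u 0) :
    fderiv ℝ proj u (ham H u) = YY kk (proj u) := by
  have hu := q_ne_of_pos hw
  have h0 := rho_pos hu
  have h1 := rho_sq u
  rw [ham_H hu, fderiv_proj, YY, hh_proj hw, Wd_proj, H_eq]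
  ext i
  fin_cases i
  · simp [a0, proj]; ring
  · simp [el, proj, pTheta]; ring
  · simp [proj]; ring
  · simp
    field_simp
    linear_combination (8 * kk) * h1
  · simp; ring

lemma poisson_pTheta_H {u : Phase} (hu : u.1 ≠ 0) : poisson pTheta H u = 0 := by
  rw [poisson_eq, ham_H hu, fderiv_pTheta]
  simp
  ring

lemma mem_UU {u : Phase} (hu : u ∈ W) (hp : pTheta u ≠ 0) : proj u ∈ UU kk :=
  ⟨pos_of_pTheta hp, hp, by rw [hh_proj (pos_of_pTheta hp)]; exact hu.2⟩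

lemma lift {F : E5 → ℝ} {K : Set E5} (hK : IsCompact K) (hKU : K ⊆ UU kk)
    (hF : ContDiffOn ℝ ∞ F (UU kk)) (hV : ∀ y ∈ UU kk, fderiv ℝ F y (VV kk y) = 0)
    (hs : ∀ y, F y ≠ 0 → ∃ x ∈ K, Conn (sys kk) y x) :
    ContDiffOn ℝ ∞ (F ∘ proj) W ∧ ∀ u ∈ W, fderiv ℝ (F ∘ proj) u (ham H u) = 0 ∧
      fderiv ℝ (F ∘ proj) u (ham pTheta u) = 0 := by
  have key : ∀ u ∈ W, ContDiffAt ℝ ∞ (F ∘ proj) u ∧ fderiv ℝ (F ∘ proj) u (ham H u) = 0 ∧
      fderiv ℝ (F ∘ proj) u (ham pTheta u) = 0 := by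
    intro u hu
    by_cases hp : pTheta u = 0
    · have hc : IsClosed ((fun ξ : E5 => ξ 4) '' K) := (hK.image (continuous_apply 4)).isClosed
      have h0 : pTheta u ∈ ((fun ξ : E5 => ξ 4) '' K)ᶜ := by
        rintro ⟨x, hx, h⟩
        exact (hKU hx).2.1 (h.trans hp)
      have h1 : (F ∘ proj) =ᶠ[𝓝 u] fun _ => 0 := by
        filter_upwards [contDiff_pTheta.continuous.continuousAt.eventually
          (hc.isOpen_compl.mem_nhds h0)] with v hv
        by_contra h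
        obtain ⟨x, hx, hc⟩ := hs _ h
        have := hc.const (ContinuousLinearMap.proj 4) (fun x _ => by simp [sys, VV, YY])
        exact hv ⟨x, hx, this.symm⟩
      refine ⟨contDiffAt_const.congr_of_eventuallyEq h1, ?_, ?_⟩ <;> simp [h1.fderiv_eq]
    · have hU := mem_UU hu hp
      have hFa := hF.contDiffAt ((isOpen_UU kk).mem_nhds hU)
      have hd := fderiv_comp u (hFa.differentiableAt (by simp))
        ((contDiff_proj.differentiable (by simp)) u)
      refine ⟨hFa.comp u contDiff_proj.contDiffAt, ?_, ?_⟩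
      · have e : YY kk (proj u) = (2 * hh kk (proj u)) • VV kk (proj u) := by
          rw [VV, smul_smul, mul_inv_cancel₀ (mul_ne_zero two_ne_zero hU.2.2), one_smul]
        rw [hd, ContinuousLinearMap.comp_apply, proj_ham_H hU.1, e, map_smul, hV _ hU, smul_zero]
      · rw [hd, ContinuousLinearMap.comp_apply, proj_ham_pTheta, map_zero]
  exact ⟨fun u hu => (key u hu).1.contDiffWithinAt, fun u hu => (key u hu).2⟩

/-- local section of the reduction map -/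
def sec (u : Phase) (ξ : E5) : Phase :=
  (![√(ξ 0 / proj u 0) * u.1 0, √(ξ 0 / proj u 0) * u.1 1, ξ 1],
   ![(a0 ξ * (√(ξ 0 / proj u 0) * u.1 0) - ξ 4 * (√(ξ 0 / proj u 0) * u.1 1)) / ξ 0,
     (a0 ξ * (√(ξ 0 / proj u 0) * u.1 1) + ξ 4 * (√(ξ 0 / proj u 0) * u.1 0)) / ξ 0, ξ 2])

lemma sec_proj {u : Phase} (hw : 0 < proj u 0) : sec u (proj u) = u := by
  have hw' : u.1 0 ^ 2 + u.1 1 ^ 2 ≠ 0 := hw.ne'
  rw [sec, div_self hw.ne', Real.sqrt_one]
  ext i
  · fin_cases i <;> simp [proj]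
  · fin_cases i
    · simp [proj, a0, pTheta]; field_simp; ring
    · simp [proj, a0, pTheta]; field_simp; ring
    · simp [proj]

lemma proj_sec {u : Phase} (hw : 0 < proj u 0) {ξ : E5} (hξ : 0 < ξ 0) : proj (sec u ξ) = ξ := by
  have h1 : √(ξ 0 / proj u 0) ^ 2 * (u.1 0 ^ 2 + u.1 1 ^ 2) = ξ 0 := by
    rw [Real.sq_sqrt (div_pos hξ hw).le]
    exact div_mul_cancel₀ _ hw.ne'
  rw [sec]
  generalize √(ξ 0 / proj u 0) = l at h1
  ext i
  fin_cases i
  · simp [proj]; linear_combination h1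
  · simp [proj]
  · simp [proj]
  · simp [proj, a0]; field_simp; linear_combination (ξ 3 - 2 * ξ 1 * ξ 2) * h1
  · simp [proj, pTheta]; field_simp; linear_combination (ξ 4) * h1

lemma differentiableAt_sec {u : Phase} (hw : 0 < proj u 0) {ξ : E5} (hξ : 0 < ξ 0) :
    DifferentiableAt ℝ (sec u) ξ := by
  have hl : DifferentiableAt ℝ (fun ξ : E5 => √(ξ 0 / proj u 0)) ξ :=
    DifferentiableAt.sqrt (by fun_prop) (div_pos hξ hw).ne'
  have ha : DifferentiableAt ℝ a0 ξ := contDiff_a0.differentiable (by simp) ξ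
  have h0 : DifferentiableAt ℝ (fun ξ : E5 => ξ 0) ξ := differentiableAt_apply 0 ξ
  have h4 : DifferentiableAt ℝ (fun ξ : E5 => ξ 4) ξ := differentiableAt_apply 4 ξ
  refine DifferentiableAt.prodMk ?_ ?_
  · rw [differentiableAt_pi]
    intro i
    fin_cases i
    · exact hl.mul_const _
    · exact hl.mul_const _
    · exact differentiableAt_apply 1 ξ
  · rw [differentiableAt_pi]
    intro i
    fin_cases i
    · exact (((ha.mul (hl.mul_const (u.1 0))).sub (h4.mul (hl.mul_const (u.1 1)))).mul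
        (h0.inv hξ.ne') :)
    · exact (((ha.mul (hl.mul_const (u.1 1))).add (h4.mul (hl.mul_const (u.1 0)))).mul
        (h0.inv hξ.ne') :)
    · exact differentiableAt_apply 2 ξ

lemma proj_surj {u : Phase} (hw : 0 < proj u 0) (v : E5) : ∃ t, fderiv ℝ proj u t = v := by
  have h1 : proj ∘ sec u =ᶠ[𝓝 (proj u)] id := by
    filter_upwards [(isOpen_lt continuous_const (continuous_apply 0)).mem_nhds hw] with ξ hξ
    exact proj_sec hw hξ
  have h2 := fderiv_comp (proj u) ((contDiff_proj.differentiable (by simp)) _)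
    (differentiableAt_sec hw hw)
  rw [h1.fderiv_eq, fderiv_id, sec_proj hw] at h2
  exact ⟨fderiv ℝ (sec u) (proj u) v, by rw [← ContinuousLinearMap.comp_apply, ← h2]; rfl⟩

lemma dense_generic : Dense {u : Phase | pTheta u * proj u 3 ≠ 0} := by
  intro u
  by_contra h
  have h1 : (fun u : Phase => pTheta u * proj u 3) =ᶠ[𝓝 u] 0 := by
    filter_upwards [isClosed_closure.isOpen_compl.mem_nhds h] with v hv
    by_contra h2
    exact hv (subset_closure h2)
  have h2 : AnalyticOnNhd ℝ (fun u : Phase => pTheta u * proj u 3) univ := by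
    intro v _
    have q : ∀ i, AnalyticAt ℝ (fun u : Phase => u.1 i) v := fun i =>
      ((ContinuousLinearMap.proj i).comp
        (ContinuousLinearMap.fst ℝ (Fin 3 → ℝ) (Fin 3 → ℝ))).analyticAt v
    have p : ∀ i, AnalyticAt ℝ (fun u : Phase => u.2 i) v := fun i =>
      ((ContinuousLinearMap.proj i).comp
        (ContinuousLinearMap.snd ℝ (Fin 3 → ℝ) (Fin 3 → ℝ))).analyticAt v
    exact (((q 0).mul (p 1)).sub ((q 1).mul (p 0))).mul
      ((((q 0).mul (p 0)).add ((q 1).mul (p 1))).add ((analyticAt_const.mul (q 2)).mul (p 2)))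
  have h3 := h2.eqOn_zero_of_preconnected_of_eventuallyEq_zero isPreconnected_univ (mem_univ u) h1
    (mem_univ (![1, 0, 0], ![1, 1, 0]))
  simp [pTheta, proj] at h3

lemma W_subset : W ⊆ closure (W ∩ proj ⁻¹' Good (sys kk)) := by
  intro u hu
  rw [mem_closure_iff]
  intro O hO huO
  obtain ⟨u1, ⟨h1O, h1W⟩, h1⟩ := dense_generic.inter_open_nonempty (O ∩ W) (hO.inter isOpen_W)
    ⟨u, huO, hu⟩
  have hp : pTheta u1 ≠ 0 := left_ne_zero_of_mul h1
  have hJ : proj u1 3 ≠ 0 := right_ne_zero_of_mul h1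
  have hU := mem_UU h1W hp
  have e1 : ∀ᶠ ξ in 𝓝 (proj u1), sec u1 ξ ∈ O ∩ W :=
    (differentiableAt_sec hU.1 hU.1).continuousAt.eventually
      ((hO.inter isOpen_W).mem_nhds (by rw [sec_proj hU.1]; exact ⟨h1O, h1W⟩))
  have e2 : ∀ᶠ ξ in 𝓝 (proj u1), ξ ∈ UU kk := (isOpen_UU kk).mem_nhds hU
  have e3 : ∀ᶠ ξ : E5 in 𝓝 (proj u1), ξ 3 ≠ 0 := (continuous_apply 3).continuousAt.eventually_ne hJ
  have e4 := mem_closure_iff_frequently.1 (dense_both (sys kk) (proj u1))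
  obtain ⟨ξ, k4, k1, k2, k3⟩ := (e4.and_eventually (e1.and (e2.and e3))).exists
  refine ⟨sec u1 ξ, k1.1, k1.2, ?_⟩
  rw [mem_preimage, proj_sec hU.1 k2.1]
  exact ⟨⟨k2, k3⟩, k4⟩

lemma W_nonempty : W.Nonempty := by
  refine ⟨(![0, 0, 1], 0), ?_, ?_⟩
  · intro h
    simpa using congrFun h 2
  · have := Real.pi_pos
    simp [H]

lemma exists_dir (l : E5 →L[ℝ] ℝ) : ∃ v : E5, v ≠ 0 ∧ v 3 = 0 ∧ v 4 = 0 ∧ l v = 0 := by
  by_cases h : l (Pi.single 0 1) = 0
  · exact ⟨Pi.single 0 1, by simp, by simp, by simp, h⟩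
  · refine ⟨l (Pi.single 1 1) • Pi.single 0 1 - l (Pi.single 0 1) • Pi.single 1 1, ?_, by simp,
      by simp, by simp [mul_comm]⟩
    intro h0
    have := congrFun h0 1
    simp at this
    exact h this

lemma indep {u t : Phase} (hu : u ∈ W) (hw : 0 < proj u 0) {G : Phase → ℝ}
    (h1 : fderiv ℝ H u t = 0) (h2 : fderiv ℝ pTheta u t = 0) (h3 : fderiv ℝ G u t ≠ 0) :
    LinearIndependent ℝ (fun i => fderiv ℝ (![H, pTheta, G] i) u) := by
  rw [Fintype.linearIndependent_iff]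
  intro c hc
  have he : ∀ v, c 0 * fderiv ℝ H u v + c 1 * fderiv ℝ pTheta u v + c 2 * fderiv ℝ G u v = 0 := by
    intro v
    have := congrArg (fun L : Phase →L[ℝ] ℝ => L v) hc
    simpa [Fin.sum_univ_three] using this
  have c2 : c 2 = 0 := by
    have := he t
    rw [h1, h2] at this
    simpa [h3] using this
  have c0 : c 0 = 0 := by
    have h0 := rho_pos hu.1
    have h4 := rho_sq u
    have hD : fderiv ℝ H u (![u.1 0, u.1 1, 2 * u.1 2], ![-u.2 0, -u.2 1, -(2 * u.2 2)]) =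
        -2 * H u := by
      rw [fderiv_H hu.1, H_eq]
      simp
      field_simp
      linear_combination (-8 * kk) * h4
    have hD' : fderiv ℝ pTheta u
        (![u.1 0, u.1 1, 2 * u.1 2], ![-u.2 0, -u.2 1, -(2 * u.2 2)]) = 0 := by
      rw [fderiv_pTheta]
      simp
    have := he (![u.1 0, u.1 1, 2 * u.1 2], ![-u.2 0, -u.2 1, -(2 * u.2 2)])
    rw [hD, hD', c2] at this
    simpa [hu.2] using this
  have c1 : c 1 = 0 := by
    have hD' : fderiv ℝ pTheta u (0, ![-u.1 1, u.1 0, 0]) = proj u 0 := by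
      rw [fderiv_pTheta]
      simp [proj]
      ring
    have := he (0, ![-u.1 1, u.1 0, 0])
    rw [hD', c2, c0] at this
    simpa [hw.ne'] using this
  intro i
  fin_cases i
  · exact c0
  · exact c1
  · exact c2

lemma exists_local {u : Phase} (hu : u ∈ W ∩ proj ⁻¹' Good (sys kk)) :
    ∃ (F : Phase → ℝ) (t : Phase), ContDiffOn ℝ ∞ F W ∧
      (∀ u ∈ W, fderiv ℝ F u (ham H u) = 0 ∧ fderiv ℝ F u (ham pTheta u) = 0) ∧
      fderiv ℝ H u t = 0 ∧ fderiv ℝ pTheta u t = 0 ∧ fderiv ℝ F u t ≠ 0 := by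
  have hU : proj u ∈ UU kk := hu.2.1.1
  obtain ⟨v, hv, hv3, hv4, hvl⟩ := exists_dir (fderiv ℝ (hh kk) (proj u))
  obtain ⟨F, K, hK, hKU, hF, hV, hne, hs⟩ := exists_integral (nr kk) hu.2 hv hv3
  obtain ⟨t, ht⟩ := proj_surj hU.1 v
  obtain ⟨l1, l2⟩ := lift hK hKU hF hV hs
  have hdp := (contDiff_proj.differentiable (by simp)) u
  refine ⟨F ∘ proj, t, l1, l2, ?_, ?_, ?_⟩
  · have h1 : H =ᶠ[𝓝 u] hh kk ∘ proj := by
      have hc : Continuous fun u => proj u 0 := (continuous_apply 0).comp contDiff_proj.continuous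
      filter_upwards [(isOpen_lt continuous_const hc).mem_nhds hU.1] with v hv
      exact (hh_proj hv).symm
    rw [h1.fderiv_eq, fderiv_comp u ((contDiffAt_hh kk hU.1).differentiableAt (by simp)) hdp,
      ContinuousLinearMap.comp_apply, ht, hvl]
  · rw [fderiv_pTheta, ← hv4, ← ht, fderiv_proj]
    rfl
  · rw [fderiv_comp u ((hF.contDiffAt ((isOpen_UU kk).mem_nhds hU)).differentiableAt (by simp))
      hdp, ContinuousLinearMap.comp_apply, ht]
    exact hne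

theorem main : ∃ F : Fin 3 → Phase → ℝ, F 0 = H ∧ F 1 = pTheta ∧ SmoothLiouville F := by
  obtain ⟨T, hTs, hTc, hTd⟩ :=
    (TopologicalSpace.IsSeparable.of_separableSpace
      (W ∩ proj ⁻¹' Good (sys kk))).exists_countable_dense_subset
  have hWT : W ⊆ closure T := W_subset.trans (closure_minimal hTd isClosed_closure)
  have hTn : T.Nonempty := closure_nonempty_iff.1 (W_nonempty.mono hWT)
  obtain ⟨x, rfl⟩ := hTc.exists_eq_range hTn
  have hx : ∀ m, x m ∈ W ∩ proj ⁻¹' Good (sys kk) := fun m => hTs ⟨m, rfl⟩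
  choose F t hF1 hF2 hF3 hF4 hF5 using fun m => exists_local (hx m)
  obtain ⟨G, hG1, hG2, hG3⟩ := exists_sum isOpen_W F hF1 x t (fun m => (hx m).1) hF5
  have hGH : ∀ u ∈ W, poisson G H u = 0 := fun u hu => by
    rw [poisson_eq]; exact hG3 u hu _ fun n => (hF2 n u hu).1
  have hGp : ∀ u ∈ W, poisson G pTheta u = 0 := fun u hu => by
    rw [poisson_eq]; exact hG3 u hu _ fun n => (hF2 n u hu).2
  have hpH : ∀ u ∈ W, poisson pTheta H u = 0 := fun u hu => poisson_pTheta_H hu.1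
  have hsm : ∀ i, ContDiffOn ℝ ∞ (![H, pTheta, G] i) W := by
    intro i
    fin_cases i
    · exact fun u hu => (contDiffAt_H hu.1).contDiffWithinAt
    · exact contDiff_pTheta.contDiffOn
    · exact hG1
  have hall : ∀ i j, ∀ u ∈ W, poisson (![H, pTheta, G] i) (![H, pTheta, G] j) u = 0 := by
    intro i j u hu
    fin_cases i <;> fin_cases j
    · exact poisson_self _ _
    · exact (poisson_swap _ _ _).trans (neg_eq_zero.2 (hpH u hu))
    · exact (poisson_swap _ _ _).trans (neg_eq_zero.2 (hGH u hu))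
    · exact hpH u hu
    · exact poisson_self _ _
    · exact (poisson_swap _ _ _).trans (neg_eq_zero.2 (hGp u hu))
    · exact hGH u hu
    · exact hGp u hu
    · exact poisson_self _ _
  refine ⟨![H, pTheta, G], rfl, rfl, hsm, fun i => hall i 0, hall,
    W ∩ (fun u => fun i => fderiv ℝ (![H, pTheta, G] i) u) ⁻¹' {f | LinearIndependent ℝ f},
    ?_, inter_subset_left, hWT.trans (closure_mono ?_), fun u hu => hu.2⟩
  · refine ContinuousOn.isOpen_inter_preimage ?_ isOpen_W isOpen_setOfPred_linearIndependent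
    exact continuousOn_pi.2 fun i => (hsm i).continuousOn_fderiv_of_isOpen isOpen_W (by simp)
  · rintro _ ⟨m, rfl⟩
    exact ⟨(hx m).1, indep (hx m).1 (hx m).2.1.1.1 (hF3 m) (hF4 m) (hG2 m)⟩

end

end Pool.Agent.H74Z.KH
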