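import Pool.Agent.H74Z.RigMom

open MeasureTheory Set Filter Topology

namespace Pool.Agent.H74Z.Rig

noncomputable def mean {n : ℕ} (μ : Measure (Fin n → ℝ)) (t : ℝ) : ℝ := ∫ x, XX t x ∂μ

lemma integral_centered {n : ℕ} (μ : Measure (Fin n → ℝ)) [IsProbabilityMeasure μ] {t : ℝ}
    (ht : 0 < t) : ∫ x, (XX t x - mean μ t) ∂μ = 0 := by
  rw [integral_sub ((bdd_XX ht).integrable μ) (integrable_const _)]
  simp [mean]

lemma moments {β α : ℝ} (hβ : 0 < β) :
    ∃ D, 1 ≤ D ∧ ∀ (n : ℕ) (μ : Measure (Fin n → ℝ)) [IsProbabilityMeasure μ], LE β α μ →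
      ∀ t r : ℝ, 0 < t → t ≤ 2 → 1 ≤ r → r ^ 2 = t * n →
        Ele μ (fun x => (XX t x - r) ^ 4) D ∧ Ele μ (fun x => (XX t x - r) ^ 2) D ∧
        Ele μ (fun x => (XX t x - mean μ t) ^ 2) D ∧ |mean μ t - r| ≤ D := by
  obtain ⟨C, hC0, hC⟩ := fourth_moment (α := α) hβ
  refine ⟨2 * (1 + C) + 2 * (1 + C) ^ 2, by nlinarith, fun n μ _ hLE t r ht ht2 hr hrt => ?_⟩
  have h4 := hC n μ hLE t r ht ht2 hr hrt
  have hw : Bdd (fun x : Fin n → ℝ => XX t x - r) := (bdd_XX ht).sub (Bdd.const r)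
  have h14 := (Ele.const (μ := μ) 1).add h4
  have h2 : Ele μ (fun x => (XX t x - r) ^ 2) (1 + C) :=
    h14.mono (hw.pow 2) (fun x => by nlinarith [sq_nonneg ((XX t x - r) ^ 2 - 1)]) le_rfl
  have h12 := (Ele.const (μ := μ) (1 / 4)).add
    (h2.smul (k := 1) zero_le_one)
  have hm : mean μ t - r = ∫ x, (XX t x - r) ∂μ := by
    rw [integral_sub ((bdd_XX ht).integrable μ) (integrable_const _)]
    simp [mean]
  have ha : Ele μ (fun x => |XX t x - r|) (1 + C) :=
    h14.mono hw.abs (fun x => by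
      have h1 : |XX t x - r| ^ 2 = (XX t x - r) ^ 2 := sq_abs _
      have h2 : (XX t x - r) ^ 4 = (|XX t x - r| ^ 2) ^ 2 := by rw [h1]; ring
      rw [h2]
      nlinarith [sq_nonneg (|XX t x - r| ^ 2 - 1 / 2), sq_nonneg (|XX t x - r| - 1 / 2)]) le_rfl
  have hm2 : |mean μ t - r| ≤ 1 + C := by
    rw [hm]; exact abs_integral_le_integral_abs.trans ha.2
  refine ⟨h4.mono h4.1 (fun _ => le_rfl) (by nlinarith), h2.mono h2.1 (fun _ => le_rfl)
    (by nlinarith), ?_, by nlinarith⟩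
  have hsq : (mean μ t - r) ^ 2 ≤ (1 + C) ^ 2 := by
    rw [← sq_abs]; gcongr
  refine ((h2.smul (k := 2) zero_le_two).add (Ele.const (2 * (1 + C) ^ 2))).mono
    (((bdd_XX ht).sub (Bdd.const _)).pow 2) (fun x => ?_) le_rfl
  nlinarith [sq_nonneg ((XX t x - r) + (mean μ t - r))]

lemma mul_le_sq_add {k K a b : ℝ} (hk : |k| ≤ K) : k * (a * b) ≤ K * (a ^ 2 + b ^ 2) := by
  have h1 : |a * b| ≤ a ^ 2 + b ^ 2 := by
    rw [abs_le]; constructor <;> nlinarith [sq_nonneg (a + b), sq_nonneg (a - b)]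
  calc k * (a * b) ≤ |k * (a * b)| := le_abs_self _
    _ = |k| * |a * b| := abs_mul _ _
    _ ≤ _ := mul_le_mul hk h1 (abs_nonneg _) ((abs_nonneg _).trans hk)

lemma cov_pointwise {β α t δ r r' q X X' Y Q Xs m ms : ℝ} (hβ : 0 < β) (ht : 0 < t) (ht1 : t ≤ 1)
    (hδ : 0 < δ) (hδ1 : δ ≤ 1) (hr0 : 0 < r) (hX : 0 ≤ X) (hY : 0 ≤ Y) (hQ : Q ≤ Xs)
    (i1 : X' - X ≤ δ * (X - Y)) (i2 : δ * (X - Y) ≤ (1 + δ) * (X' - X)) :
    β * r * ((X - m) * (Xs - ms)) ≤
      1 * ((β / 2 * ((X - r) * (X + r)) + (α + β / 2 * t) * X + (1 - β / 2) * Y) * (Xs - ms)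
        - 1 * Q) +
      (-(β * r * (m - r)) - (α + β / 2 * t) * r - (1 - β / 2) * (r - (r' - r) / δ)) * (Xs - ms) +
      (q + 1 + (Xs - q) ^ 2 + (|α| + β + |1 - β / 2|) * ((X - r) ^ 4 + (Xs - ms) ^ 2) +
        3 * (|α| + β + |1 - β / 2|) * ((X - r) ^ 2 + (Xs - ms) ^ 2) +
        ((|α| + β + |1 - β / 2|) / δ * ((X' - r') ^ 2 + (Xs - ms) ^ 2 +
          ((X - r) ^ 2 + (Xs - ms) ^ 2)) +
        (|α| + β + |1 - β / 2|) * (δ * r) * (1 + (Xs - ms) ^ 2))) := by
  have p0 : Q ≤ q + 1 + (Xs - q) ^ 2 := by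
    nlinarith [sq_nonneg (Xs - q - 1 / 2)]
  obtain ⟨K, hK⟩ : ∃ K, K = |α| + β + |1 - β / 2| := ⟨_, rfl⟩
  obtain ⟨V, hV⟩ : ∃ V, V = Xs - ms := ⟨_, rfl⟩
  obtain ⟨e, he⟩ : ∃ e, e = (X - Y) - (X' - X) / δ := ⟨_, rfl⟩
  rw [← hK, ← hV]
  have he0 : 0 ≤ e := by
    rw [he, sub_nonneg, div_le_iff₀ hδ]; linarith
  have he1 : e ≤ δ * X := by
    have j1 : δ * (X - Y) / (1 + δ) ≤ X' - X := by
      rw [div_le_iff₀ (by linarith)]; linarith
    have j2 : (X - Y) / (1 + δ) ≤ (X' - X) / δ := by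
      rw [le_div_iff₀ hδ]
      calc (X - Y) / (1 + δ) * δ = δ * (X - Y) / (1 + δ) := by ring
        _ ≤ _ := j1
    have j3 : (X - Y) - (X - Y) / (1 + δ) = δ * ((X - Y) / (1 + δ)) := by
      field_simp; ring
    have j4 : (X - Y) / (1 + δ) ≤ X := by
      rw [div_le_iff₀ (by linarith)]
      have := mul_nonneg hX hδ.le
      linarith
    have j5 : δ * ((X - Y) / (1 + δ)) ≤ δ * X := by gcongr
    linarith
  have hid : β * r * ((X - m) * V) =
      1 * ((β / 2 * ((X - r) * (X + r)) + (α + β / 2 * t) * X + (1 - β / 2) * Y) * V - 1 * Q) +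
      (-(β * r * (m - r)) - (α + β / 2 * t) * r - (1 - β / 2) * (r - (r' - r) / δ)) * V +
      (Q + (-(β / 2)) * ((X - r) ^ 2 * V) + (-(α + β / 2 * t)) * ((X - r) * V)
        + (-(1 - β / 2)) * ((X - r) * V) + ((1 - β / 2) / δ) * ((X' - r') * V)
        + (-((1 - β / 2) / δ)) * ((X - r) * V) + (1 - β / 2) * (e * V)) := by
    rw [he]
    field_simp
    ring
  have b1 : |1 - β / 2| ≤ K := by rw [hK]; linarith [abs_nonneg α]
  have hK0 : 0 ≤ K := (abs_nonneg _).trans b1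
  have b2 : |-(β / 2)| ≤ K := by
    rw [abs_neg, abs_of_pos (by positivity), hK]
    linarith [abs_nonneg α, abs_nonneg (1 - β / 2)]
  have b3 : |-(α + β / 2 * t)| ≤ K := by
    rw [abs_neg]
    refine (abs_add_le _ _).trans ?_
    rw [abs_of_nonneg (show 0 ≤ β / 2 * t by positivity), hK]
    have : β / 2 * t ≤ β / 2 * 1 := by gcongr
    linarith [abs_nonneg (1 - β / 2)]
  have b4 : |(1 - β / 2) / δ| ≤ K / δ := by
    rw [abs_div, abs_of_pos hδ]; gcongr
  have p1 := mul_le_sq_add (a := (X - r) ^ 2) (b := V) b2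
  have p2 := mul_le_sq_add (a := X - r) (b := V) b3
  have p3 := mul_le_sq_add (K := K) (k := -(1 - β / 2)) (a := X - r) (b := V) (by rwa [abs_neg])
  have p4 := mul_le_sq_add (a := X' - r') (b := V) b4
  have p5 := mul_le_sq_add (K := K / δ) (k := -((1 - β / 2) / δ)) (a := X - r) (b := V)
    (by rwa [abs_neg])
  have p6 : (1 - β / 2) * (e * V) ≤ K * ((X - r) ^ 2 + V ^ 2) + K * (δ * r) * (1 + V ^ 2) := by
    have s1 : |V| ≤ 1 + V ^ 2 := by
      clear * -
      rw [abs_le]; constructor <;> nlinarith [sq_nonneg (V + 1 / 2), sq_nonneg (V - 1 / 2)]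
    have s2 : (X - r) * |V| ≤ (X - r) ^ 2 + V ^ 2 := by
      clear * -
      rw [← sq_abs V]; nlinarith [sq_nonneg (X - r - |V|), sq_nonneg (X - r), sq_nonneg |V|]
    have s3 : X * |V| ≤ r * (1 + V ^ 2) + ((X - r) ^ 2 + V ^ 2) := by
      have : r * |V| ≤ r * (1 + V ^ 2) := by gcongr
      have j : X * |V| = r * |V| + (X - r) * |V| := by ring
      linarith
    have s4 : e * |V| ≤ δ * r * (1 + V ^ 2) + ((X - r) ^ 2 + V ^ 2) := by
      have j1 : e * |V| ≤ δ * X * |V| := by gcongr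
      have j2 : δ * (X * |V|) ≤ δ * (r * (1 + V ^ 2) + ((X - r) ^ 2 + V ^ 2)) := by gcongr
      have j3 : δ * ((X - r) ^ 2 + V ^ 2) ≤ 1 * ((X - r) ^ 2 + V ^ 2) := by gcongr
      have j4 : δ * (r * (1 + V ^ 2) + ((X - r) ^ 2 + V ^ 2)) =
          δ * r * (1 + V ^ 2) + δ * ((X - r) ^ 2 + V ^ 2) := by ring
      have j5 : δ * X * |V| = δ * (X * |V|) := by ring
      linarith
    calc (1 - β / 2) * (e * V) ≤ |(1 - β / 2) * (e * V)| := le_abs_self _
      _ = |1 - β / 2| * (e * |V|) := by rw [abs_mul, abs_mul, abs_of_nonneg he0]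
      _ ≤ K * (δ * r * (1 + V ^ 2) + ((X - r) ^ 2 + V ^ 2)) := by gcongr
      _ = _ := by ring
  rw [hid]
  have : ((X - r) ^ 2) ^ 2 = (X - r) ^ 4 := by ring
  rw [this] at p1
  refine add_le_add le_rfl ?_
  calc _ ≤ (q + 1 + (Xs - q) ^ 2) + K * ((X - r) ^ 4 + V ^ 2) + K * ((X - r) ^ 2 + V ^ 2)
        + K * ((X - r) ^ 2 + V ^ 2) + K / δ * ((X' - r') ^ 2 + V ^ 2)
        + K / δ * ((X - r) ^ 2 + V ^ 2)
        + (K * ((X - r) ^ 2 + V ^ 2) + K * (δ * r) * (1 + V ^ 2)) := by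
        gcongr ?_ + ?_ + ?_ + ?_ + ?_ + ?_ + ?_
    _ = _ := by ring

lemma cov_bound {β α : ℝ} (hβ : 0 < β) :
    ∃ A, 0 ≤ A ∧ ∀ (n : ℕ) (μ : Measure (Fin n → ℝ)) [IsProbabilityMeasure μ], LE β α μ →
      ∀ t s r q δ : ℝ, 0 < t → t ≤ 1 → 0 < s → s ≤ 1 → 1 ≤ r → 1 ≤ q → r ^ 2 = t * n →
        q ^ 2 = s * n → 0 < δ → δ ≤ 1 →
        Ele μ (fun x => (XX t x - mean μ t) * (XX s x - mean μ s))
          (A * (q / r + 1 / (δ * r) + δ)) := by
  obtain ⟨D, hD1, hD⟩ := moments (α := α) hβ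
  set K := |α| + β + |1 - β / 2| with hK
  have hK0 : 0 ≤ K := by positivity
  set A := 2 + D + 8 * K * D + 4 * K * D + K * (1 + D) with hA
  refine ⟨A / β, by positivity,
    fun n μ _ hLE t s r q δ ht ht1 hs hs1 hr hq hrt hqs hδ hδ1 => ?_⟩
  have hr0 : 0 < r := by linarith
  have ht' : 0 < t * (1 + δ) := by positivity
  set r' := r * Real.sqrt (1 + δ) with hr'
  have hsq1 : 1 ≤ Real.sqrt (1 + δ) := Real.one_le_sqrt.2 (by linarith)
  obtain ⟨w4, w2, -, -⟩ := hD n μ hLE t r ht (by linarith) hr hrt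
  obtain ⟨-, ws2, V2, -⟩ := hD n μ hLE s q hs (by linarith) hq hqs
  obtain ⟨-, w'2, -, -⟩ := hD n μ hLE (t * (1 + δ)) r' ht' (by nlinarith) (by nlinarith)
    (by rw [hr', mul_pow, Real.sq_sqrt (by linarith), hrt]; ring)
  have hV : Bdd (fun x : Fin n → ℝ => XX s x - mean μ s) := (bdd_XX hs).sub (Bdd.const _)
  have hVt : Bdd (fun x : Fin n → ℝ => XX t x - mean μ t) := (bdd_XX ht).sub (Bdd.const _)
  have h0 := hLE t s ht hs (fun y => y - mean μ s) (fun _ => 1)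
    (fun y => (hasDerivAt_id y).sub_const _) continuous_const
  have hb : Bdd (fun x : Fin n → ℝ => BB β α t x * (XX s x - mean μ s) - 1 * QQ t s x) :=
    ((bdd_BB β α ht).mul hV).sub ((Bdd.const 1).mul (bdd_QQ ht hs))
  set c := -(β * r * (mean μ t - r)) - (α + β / 2 * t) * r - (1 - β / 2) * (r - (r' - r) / δ)
    with hc
  have e1 := ((Ele.zero hb h0 1).add (Ele.zero hV (integral_centered μ hs) c)).add
    (((((Ele.const (μ := μ) (q + 1)).add ws2).add ((w4.add V2).smul hK0)).add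
      ((w2.add V2).smul (k := 3 * K) (by positivity))).add
      ((((w'2.add V2).add (w2.add V2)).smul (k := K / δ) (by positivity)).add
        (((Ele.const (μ := μ) 1).add V2).smul (k := K * (δ * r)) (by positivity))))
  have e2 : Ele μ (fun x => (β * r) * ((XX t x - mean μ t) * (XX s x - mean μ s)))
      (A * (q + 1 / δ + δ * r)) := by
    refine e1.mono ((Bdd.const _).mul (hVt.mul hV)) (fun x => ?_) ?_
    · have hX := XX_nonneg ht x
      have hQ := QQ_le ht hs x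
      obtain ⟨i1, i2⟩ := XX_incr ht hδ x
      have hY := YY_nonneg (t := t) x
      have hB : BB β α t x = β / 2 * ((XX t x - r) * (XX t x + r)) + (α + β / 2 * t) * XX t x
          + (1 - β / 2) * YY t x := by
        unfold BB
        have : β / 2 * t * n = β / 2 * r ^ 2 := by rw [hrt]; ring
        linear_combination (-1 : ℝ) * this
      rw [hB]
      exact cov_pointwise hβ ht ht1 hδ hδ1 hr0 hX hY hQ i1 i2
    · have hq0 : 0 ≤ q := by linarith
      have hδ' : 0 < 1 / δ := by positivity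
      have hδr : 0 ≤ δ * r := by positivity
      have hD0 : 0 ≤ D := by linarith
      have k1 : K / δ * (D + D + (D + D)) = 4 * K * D * (1 / δ) := by ring
      have a1 : q + 1 + D + K * (D + D) + 3 * K * (D + D) ≤ A * q := by
        have : 0 ≤ 4 * K * D + K * (1 + D) := by positivity
        have h3 : 1 + D + 8 * K * D ≤ (1 + D + 8 * K * D) * q :=
          le_mul_of_one_le_right (by positivity) hq
        have h4 : 0 ≤ (4 * K * D + K * (1 + D)) * q := by positivity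
        have h5 : A * q = q + (1 + D + 8 * K * D) * q + (4 * K * D + K * (1 + D)) * q := by
          rw [hA]; ring
        have h6 : K * (D + D) + 3 * K * (D + D) = 8 * K * D := by ring
        linarith
      have a2 : 4 * K * D * (1 / δ) ≤ A * (1 / δ) := by
        have : 0 ≤ 2 + D + 8 * K * D + K * (1 + D) := by positivity
        gcongr; rw [hA]; linarith
      have a3 : K * (δ * r) * (1 + D) ≤ A * (δ * r) := by
        have : 0 ≤ 2 + D + 8 * K * D + 4 * K * D := by positivity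
        have h3 : K * (1 + D) ≤ A := by rw [hA]; linarith
        calc K * (δ * r) * (1 + D) = K * (1 + D) * (δ * r) := by ring
          _ ≤ _ := by gcongr
      rw [k1]
      have a4 : A * (q + 1 / δ + δ * r) = A * q + A * (1 / δ) + A * (δ * r) := by ring
      linarith
  have e3 := Ele.of_smul (hVt.mul hV) (by positivity) e2
  refine e3.mono e3.1 (fun _ => le_rfl) (le_of_eq ?_)
  field_simp

lemma small_scale {β α : ℝ} (hβ : 0 < β) (hα : -1 < α) {η : ℝ} (hη : 0 < η) :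
    ∃ θ, 0 < θ ∧ ∀ (n : ℕ) (μ : Measure (Fin n → ℝ)) [IsProbabilityMeasure μ], LE β α μ →
      1 ≤ n → Ele μ (XX (θ / n)) η := by
  obtain ⟨D, hD1, hD⟩ := moments (α := α) hβ
  obtain ⟨K, hK⟩ := exists_nat_gt ((2 * (1 + D) + β / 2) / η / (1 + α))
  refine ⟨(1 / 2) ^ K, by positivity, fun n μ _ hLE hn => ?_⟩
  have hn0 : (0 : ℝ) < n := by exact_mod_cast hn
  have hn1 : (1 : ℝ) ≤ n := by exact_mod_cast hn
  have hα0 : 0 < 1 + α := by linarith
  have tpos : ∀ k : ℕ, 0 < (1 / 2 : ℝ) ^ k / n := fun k => by positivity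
  have step : ∀ k : ℕ, (1 + α) * mean μ ((1 / 2) ^ (k + 1) / n) + 2 * mean μ ((1 / 2) ^ (k + 1) / n)
      ≤ 2 * mean μ ((1 / 2) ^ k / n) + β / 2 * (1 / 2) ^ (k + 1) := by
    intro k
    set t : ℝ := (1 / 2) ^ (k + 1) / n with ht_def
    have ht : 0 < t := tpos _
    have h2t : (1 / 2 : ℝ) ^ k / n = t * (1 + 1) := by rw [ht_def, pow_succ]; ring
    have htn : t * n = (1 / 2) ^ (k + 1) := by rw [ht_def]; field_simp
    have h0 := hLE t t ht ht (fun _ => 1) (fun _ => 0) (fun y => hasDerivAt_const y 1)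
      continuous_const
    have hb : Bdd (fun x : Fin n → ℝ => BB β α t x * 1 - 0 * QQ t t x) :=
      ((bdd_BB β α ht).mul (Bdd.const 1)).sub ((Bdd.const 0).mul (bdd_QQ ht ht))
    have e0 : Ele μ (XX (t * (1 + 1))) (mean μ (t * (1 + 1))) := ⟨bdd_XX (by positivity), le_rfl⟩
    have e1 := ((Ele.zero hb h0 1).add (e0.smul (k := 2) zero_le_two)).add
      (Ele.const (β / 2 * (t * n)))
    have e2 : Ele μ (fun x => (3 + α) * XX t x) (2 * mean μ (t * (1 + 1)) + β / 2 * (t * n)) := by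
      refine e1.mono ((Bdd.const _).mul (bdd_XX ht)) (fun x => ?_) (by simp)
      have i2 := (XX_incr ht one_pos x).2
      have i3 := YY_le_sq ht x
      have i4 := XX_nonneg ht x
      have i5 : 0 ≤ β / 2 * (XX t x ^ 2 - YY t x) := mul_nonneg (by positivity) (by linarith)
      have i6 : 0 ≤ β / 2 * t * XX t x := by positivity
      have i7 : BB β α t x = β / 2 * (XX t x ^ 2 - YY t x) + α * XX t x + YY t x
          - β / 2 * (t * n) + β / 2 * t * XX t x := by unfold BB; ring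
      have i8 : (3 + α) * XX t x = 3 * XX t x + α * XX t x := by ring
      rw [i7, i8]
      generalize XX (t * (1 + 1)) x = X' at i2 ⊢
      linarith
    have := e2.2
    rw [integral_const_mul] at this
    rw [h2t, ← htn]
    unfold mean at this ⊢
    linarith
  have mono : ∀ k : ℕ, mean μ ((1 / 2) ^ (k + 1) / n) ≤ mean μ ((1 / 2) ^ k / n) := by
    intro k
    refine integral_mono ((bdd_XX (tpos _)).integrable μ) ((bdd_XX (tpos _)).integrable μ)
      fun x => XX_mono (tpos _) ?_ x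
    refine div_le_div_of_nonneg_right ?_ hn0.le
    rw [pow_succ]
    have : (0:ℝ) < (1 / 2) ^ k := by positivity
    linarith
  have ind : ∀ k : ℕ, (1 + α) * k * mean μ ((1 / 2) ^ k / n) + 2 * mean μ ((1 / 2) ^ k / n)
      + β / 2 * (1 / 2) ^ k ≤ 2 * mean μ ((1 / 2) ^ 0 / n) + β / 2 := by
    intro k
    induction k with
    | zero => simp
    | succ k ih =>
      have h1 := step k
      have h2 : (1 + α) * k * mean μ ((1 / 2) ^ (k + 1) / n) ≤
          (1 + α) * k * mean μ ((1 / 2) ^ k / n) :=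
        mul_le_mul_of_nonneg_left (mono k) (by positivity)
      have h3 : β / 2 * (1 / 2 : ℝ) ^ k = 2 * (β / 2 * (1 / 2) ^ (k + 1)) := by
        rw [pow_succ]; ring
      push_cast
      have h4 : (1 + α) * (k + 1) * mean μ ((1 / 2) ^ (k + 1) / n) =
          (1 + α) * k * mean μ ((1 / 2) ^ (k + 1) / n) +
            (1 + α) * mean μ ((1 / 2) ^ (k + 1) / n) := by ring
      linarith
  have hm0 : mean μ ((1 / 2) ^ 0 / n) ≤ 1 + D := by
    have := (hD n μ hLE ((1 / 2) ^ 0 / n) 1 (tpos 0)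
      (by rw [pow_zero, div_le_iff₀ hn0]; linarith) le_rfl (by field_simp)).2.2.2
    linarith [(abs_le.1 this).2]
  have hpos : 0 ≤ mean μ ((1 / 2) ^ K / n) := integral_nonneg fun x => XX_nonneg (tpos K) x
  have h5 : (1 + α) * K * mean μ ((1 / 2) ^ K / n) ≤ 2 * (1 + D) + β / 2 := by
    have := ind K
    have : 0 ≤ β / 2 * (1 / 2 : ℝ) ^ K := by positivity
    linarith
  refine ⟨bdd_XX (tpos K), ?_⟩
  rw [div_lt_iff₀ hα0, div_lt_iff₀ hη] at hK
  have hKpos : 0 < (1 + α) * K := by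
    have : 0 < 2 * (1 + D) + β / 2 := by positivity
    by_contra hcon
    have : (K : ℝ) * (1 + α) * η ≤ 0 := mul_nonpos_of_nonpos_of_nonneg (by linarith) hη.le
    linarith
  change mean μ ((1 / 2) ^ K / n) ≤ η
  by_contra hcon
  have : (1 + α) * K * η < (1 + α) * K * mean μ ((1 / 2) ^ K / n) :=
    mul_lt_mul_of_pos_left (not_le.1 hcon) hKpos
  nlinarith

end Pool.Agent.H74Z.Rig
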