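import Mathlib

/-!
Definitions for the number rigidity of the hard-edge limit of the beta-Laguerre ensemble.
-/

open MeasureTheory Set Filter Topology
open scoped ENNReal BoundedContinuousFunction

namespace Pool.Agent.H74Z.Rig

/-- The configurations `0 < x 0 < x 1 < ... < x (n-1)`. -/
def chamber (n : ℕ) : Set (Fin n → ℝ) := {x | (∀ i, 0 < x i) ∧ StrictMono x}

/-- The unnormalised joint density of the beta-Laguerre ensemble of size `n`. -/
noncomputable def lagDensity (β a : ℝ) (n : ℕ) (x : Fin n → ℝ) : ℝ :=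
  (∏ i, ∏ j ∈ Finset.Ioi i, |x i - x j| ^ β) *
    ∏ i, (x i ^ (β / 2 * (a + 1) - 1) * Real.exp (-(β / 2) * x i))

/-- Lebesgue measure on the ordered configurations, weighted by the density. -/
noncomputable def lagWeight (β a : ℝ) (n : ℕ) : Measure (Fin n → ℝ) :=
  (volume.restrict (chamber n)).withDensity (fun x => ENNReal.ofReal (lagDensity β a n x))

/-- The law of the beta-Laguerre ensemble of size `n`: the normalised weighted measure. -/
noncomputable def laguerre (β a : ℝ) (n : ℕ) : Measure (Fin n → ℝ) :=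
  (lagWeight β a n univ)⁻¹ • lagWeight β a n

/-- A simple point process on `(0, ∞)`, as a random counting measure: a measurable map to
measures on the line that are carried by `(0, ∞)`, finite on compact subsets of `(0, ∞)`,
integer valued, with no multiple point. -/
structure IsSimplePointProcess {Ω : Type*} [MeasurableSpace Ω] (X : Ω → Measure ℝ) : Prop where
  measurable : Measurable X
  carried : ∀ ω, X ω (Iic 0) = 0
  locallyFinite : ∀ ω, ∀ K : Set ℝ, IsCompact K → K ⊆ Ioi 0 → X ω K < ∞
  integerValued : ∀ ω, ∀ B : Set ℝ, MeasurableSet B → X ω B = ∞ ∨ ∃ k : ℕ, X ω B = k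
  simple : ∀ ω, ∀ y : ℝ, X ω {y} ≤ 1

/-- `X` under `P` is the limit in law (vague topology on `(0, ∞)`), along the sizes `N k`, of
the rescaled configurations `{c n x_i}` of the beta-Laguerre ensembles of size `n = N k`: for
every continuous `f` with compact support in `(0, ∞)`, the linear statistic of `f` converges
in distribution. -/
def IsHardEdgeLimit (β a c : ℝ) (N : ℕ → ℕ) {Ω : Type*} [MeasurableSpace Ω] (P : Measure Ω)
    (X : Ω → Measure ℝ) : Prop :=
  ∀ f : ℝ → ℝ, Continuous f → HasCompactSupport f → tsupport f ⊆ Ioi 0 → ∀ F : ℝ →ᵇ ℝ,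
    Tendsto (fun k => ∫ x, F (∑ i, f (c * (N k : ℝ) * x i)) ∂(laguerre β a (N k))) atTop
      (𝓝 (∫ ω, F (∫ y, f y ∂(X ω)) ∂P))

/-- Number rigidity on `(0, ∞)`: for every bounded Borel `B ⊆ (0, ∞)` the number of points in
`B` is almost surely a measurable function of the restriction of the process to
`(0, ∞) \ B`. -/
def NumberRigid {Ω : Type*} [MeasurableSpace Ω] (P : Measure Ω) (X : Ω → Measure ℝ) : Prop :=
  ∀ B : Set ℝ, MeasurableSet B → B ⊆ Ioi 0 → Bornology.IsBounded B →
    ∃ g : Measure ℝ → ℝ≥0∞, Measurable g ∧ ∀ᵐ ω ∂P, X ω B = g ((X ω).restrict (Ioi 0 \ B))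

end Pool.Agent.H74Z.Rig
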