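import Pool.Agent.H74Z.RigCov

open MeasureTheory Set Filter Topology

namespace Pool.Agent.H74Z.Rig

lemma LE_laguerre {β a : ℝ} (hβ : 0 < β) (ha : -1 < a) (n : ℕ) :
    LE β (β / 2 * (a + 1) - 1) (laguerre β a n) :=
  fun _ _ ht hs _ _ hg hg' => loop_equation hβ ha ht hs n hg hg'

lemma u_scale {τ κ : ℝ} (hκ : 0 < κ) (hτ : 0 < τ) (y : ℝ) : u τ (κ * y) = u (τ / κ) y := by
  unfold u
  rw [abs_mul, abs_of_pos hκ]
  have := abs_nonneg y
  field_simp

/-- test functions with values in `[0,1]` and compact support in `(0,∞)` -/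
structure Test (ψ : ℝ → ℝ) : Prop where
  cont : Continuous ψ
  cs : HasCompactSupport ψ
  supp : tsupport ψ ⊆ Ioi 0
  nonneg : ∀ y, 0 ≤ ψ y
  le_one : ∀ y, ψ y ≤ 1

lemma exists_cutoff {ε : ℝ} (hε : 0 < ε) (L : ℝ) :
    ∃ χ : ℝ → ℝ, Test χ ∧ ∀ y ∈ Icc ε L, χ y = 1 := by
  obtain ⟨f, h1, h0, hc, hI⟩ := exists_continuous_one_zero_of_isCompact
    (isCompact_Icc (a := ε) (b := L)) (isClosed_Iic (a := ε / 2))
    (Set.disjoint_left.2 fun y hy hy' => by
      have := hy.1; have : y ≤ ε / 2 := hy'; linarith)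
  refine ⟨f, ⟨f.continuous, hc, ?_, fun y => (hI y).1, fun y => (hI y).2⟩, fun y hy => h1 hy⟩
  have : Function.support f ⊆ Ici (ε / 2) := fun y hy => by
    by_contra hcon
    exact hy (h0 (mem_Iic.2 (not_le.1 (fun h => hcon (mem_Ici.2 h))).le))
  refine (closure_minimal this isClosed_Ici).trans fun y hy => ?_
  have : ε / 2 ≤ y := hy
  exact show 0 < y by linarith

lemma Test.mul {φ χ : ℝ → ℝ} (hχ : Test χ) (hφ : Continuous φ) (h0 : ∀ y, 0 ≤ φ y)
    (h1 : ∀ y, φ y ≤ 1) : Test (fun y => φ y * χ y) where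
  cont := hφ.mul hχ.cont
  cs := hχ.cs.mul_left
  supp := (tsupport_mul_subset_right).trans hχ.supp
  nonneg y := mul_nonneg (h0 y) (hχ.nonneg y)
  le_one y := mul_le_one₀ (h1 y) (hχ.nonneg y) (hχ.le_one y)

lemma Test.bdd {ψ : ℝ → ℝ} (h : Test ψ) {n : ℕ} (κ : ℝ) :
    Bdd (fun x : Fin n → ℝ => ∑ i, ψ (κ * x i)) :=
  Bdd.sum _ fun i _ => ⟨h.cont.measurable.comp (by fun_prop), 1, fun x => by
    rw [abs_of_nonneg (h.nonneg _)]; exact h.le_one _⟩

lemma averaged_variance {β α : ℝ} (hβ : 0 < β) {η : ℝ} (hη : 0 < η) (ρ0 : ℝ) :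
    ∃ m : ℕ, 1 ≤ m ∧ ∃ r : ℕ → ℝ, ∃ T : ℝ, (∀ k, ρ0 ≤ r k ∧ 1 ≤ r k) ∧ (∀ k < m, r k ≤ T) ∧
      ∀ (n : ℕ) (μ : Measure (Fin n → ℝ)) [IsProbabilityMeasure μ], LE β α μ → T ^ 2 ≤ n →
        Ele μ (fun x => ((m : ℝ)⁻¹ *
          ∑ k ∈ Finset.range m, (XX (r k ^ 2 / n) x - mean μ (r k ^ 2 / n))) ^ 2) η := by
  obtain ⟨D, hD1, hD⟩ := moments (α := α) hβ
  obtain ⟨A, hA0, hA⟩ := cov_bound (α := α) hβ
  obtain ⟨m, hm⟩ := exists_nat_gt (2 * D / η)
  have hm0 : (0 : ℝ) < m := lt_trans (by positivity) hm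
  have hm1 : 1 ≤ m := by exact_mod_cast hm0
  obtain ⟨L, hL1, hL2⟩ : ∃ L : ℝ, 1 ≤ L ∧ 6 * A / η ≤ L := ⟨max 1 _, le_max_left _ _, le_max_right _ _⟩
  have hL0 : 0 < L := by linarith
  obtain ⟨ρ, hρ1, hρ2⟩ : ∃ ρ : ℝ, ρ0 ≤ ρ ∧ L ^ 2 ≤ ρ := ⟨max ρ0 _, le_max_left _ _, le_max_right _ _⟩
  have hρ : 1 ≤ ρ := (one_le_pow₀ hL1).trans hρ2
  have hr : ∀ k : ℕ, ρ ≤ ρ * L ^ k := fun k =>
    le_mul_of_one_le_right (by linarith) (one_le_pow₀ hL1)
  have hT : ∀ k < m, ρ * L ^ k ≤ ρ * L ^ m := fun k hk =>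
    mul_le_mul_of_nonneg_left (pow_le_pow_right₀ hL1 hk.le) (by linarith)
  refine ⟨m, hm1, fun k => ρ * L ^ k, ρ * L ^ m, fun k => ⟨hρ1.trans (hr k), hρ.trans (hr k)⟩,
    hT, fun n μ _ hLE hn => ?_⟩
  have hn0 : (0 : ℝ) < n := lt_of_lt_of_le (by have := hρ.trans (hr m); positivity) hn
  have hr1 : ∀ k : ℕ, 1 ≤ ρ * L ^ k := fun k => hρ.trans (hr k)
  have ht0 : ∀ k : ℕ, 0 < (ρ * L ^ k) ^ 2 / n := fun k => by have := hr1 k; positivity
  have ht1 : ∀ k < m, (ρ * L ^ k) ^ 2 / n ≤ 1 := fun k hk => by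
    rw [div_le_one hn0]
    refine le_trans ?_ hn
    have := hr1 k
    exact pow_le_pow_left₀ (by linarith) (hT k hk) 2
  have htn : ∀ k : ℕ, (ρ * L ^ k) ^ 2 = (ρ * L ^ k) ^ 2 / n * n := fun k => by field_simp
  set V : ℕ → (Fin n → ℝ) → ℝ :=
    fun k x => XX ((ρ * L ^ k) ^ 2 / n) x - mean μ ((ρ * L ^ k) ^ 2 / n) with hV
  have hVb : ∀ k, Bdd (V k) := fun k => (bdd_XX (ht0 k)).sub (Bdd.const _)
  have off : ∀ k l, k < l → l < m → Ele μ (fun x => V l x * V k x) (η / 2) := by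
    intro k l hkl hl
    have h := hA n μ hLE _ _ _ _ (1 / L) (ht0 l) (ht1 l hl) (ht0 k) (ht1 k (hkl.trans hl))
      (hr1 l) (hr1 k) (htn l) (htn k) (by positivity) (by rw [div_le_one hL0]; exact hL1)
    refine h.mono h.1 (fun _ => le_rfl) ?_
    have k1 : ρ * L ^ k / (ρ * L ^ l) ≤ 1 / L := by
      rw [div_le_div_iff₀ (by positivity) hL0, one_mul, mul_assoc, ← pow_succ]
      exact mul_le_mul_of_nonneg_left (pow_le_pow_right₀ hL1 hkl) (by linarith)
    have k2 : 1 / (1 / L * (ρ * L ^ l)) ≤ 1 / L := by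
      refine one_div_le_one_div_of_le hL0 ?_
      have : L ^ 2 ≤ ρ * L ^ l := hρ2.trans (hr l)
      rw [one_div, le_inv_mul_iff₀ hL0]; nlinarith
    have k3 : A * (3 * (1 / L)) ≤ η / 2 := by
      rw [div_le_iff₀ hη] at hL2
      have : A * (3 * (1 / L)) = 3 * A / L := by ring
      rw [this, div_le_iff₀ hL0]; linarith
    refine le_trans (mul_le_mul_of_nonneg_left ?_ hA0) k3
    linarith
  have all : ∀ k ∈ Finset.range m, ∀ l ∈ Finset.range m,
      Ele μ (fun x => V k x * V l x) ((if k = l then D else 0) + η / 2) := by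
    intro k hk l hl
    rw [Finset.mem_range] at hk hl
    rcases lt_trichotomy k l with h | h | h
    · exact (off k l h hl).mono ((hVb k).mul (hVb l)) (fun x => le_of_eq (mul_comm _ _))
        (by simp [h.ne])
    · subst h
      exact (hD n μ hLE _ _ (ht0 k) ((ht1 k hk).trans one_le_two) (hr1 k) (htn k)).2.2.1.mono
        ((hVb k).mul (hVb k)) (fun x => le_of_eq (sq _).symm) (by simp only [if_true]; linarith)
    · exact (off l k h hk).mono ((hVb k).mul (hVb l)) (fun x => le_rfl) (by simp [h.ne'])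
  have tot := (Ele.sum (Finset.range m) fun k hk =>
    Ele.sum (Finset.range m) (all k hk)).smul (k := ((m : ℝ)⁻¹) ^ 2) (by positivity)
  refine tot.mono (((Bdd.const _).mul (Bdd.sum _ fun k _ => hVb k)).pow 2)
    (fun x => le_of_eq ?_) ?_
  · rw [mul_pow, sq (∑ k ∈ Finset.range m, _), Finset.sum_mul_sum]
  · have : ∑ k ∈ Finset.range m, ∑ l ∈ Finset.range m, ((if k = l then D else 0) + η / 2)
        = m * (D + m * (η / 2)) := by
      rw [Finset.sum_congr rfl (g := fun _ => D + m * (η / 2))]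
      · simp only [Finset.sum_const, Finset.card_range, nsmul_eq_mul]
      · intro k hk
        rw [Finset.sum_add_distrib, Finset.sum_ite_eq, if_pos hk]
        simp
    rw [this]
    rw [div_lt_iff₀ hη] at hm
    have e : ((m : ℝ)⁻¹) ^ 2 * (m * (D + m * (η / 2))) = D / m + η / 2 := by field_simp
    rw [e]
    have : D / m ≤ η / 2 := by rw [div_le_iff₀ hm0]; linarith
    linarith

lemma mean_bound {β α : ℝ} (hβ : 0 < β) :
    ∃ D, 1 ≤ D ∧ ∀ (n : ℕ) (μ : Measure (Fin n → ℝ)) [IsProbabilityMeasure μ], LE β α μ →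
      ∀ r : ℝ, 1 ≤ r → r ^ 2 ≤ n → Ele μ (XX (r ^ 2 / n)) (r + D) := by
  obtain ⟨D, hD1, hD⟩ := moments (α := α) hβ
  refine ⟨D, hD1, fun n μ _ hLE r hr hn => ?_⟩
  have hn0 : (0 : ℝ) < n := lt_of_lt_of_le (by positivity) hn
  have ht : 0 < r ^ 2 / n := by positivity
  have := (hD n μ hLE (r ^ 2 / n) r ht (by rw [div_le_iff₀ hn0]; linarith) hr
    (by field_simp)).2.2.2
  refine ⟨bdd_XX ht, ?_⟩
  have h2 := (abs_le.1 this).2
  unfold mean at h2
  linarith

lemma tail_pointwise {φ χ y ε ε' L T : ℝ} (hε : 0 < ε) (hε' : ε ≤ ε') (hL : 0 < L) (hT : 0 < T)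
    (hy : 0 < y)
    (hφ0 : 0 ≤ φ) (hφ : φ ≤ u T y) (h0 : 0 ≤ χ) (h1 : χ ≤ 1) (hχ : y ∈ Icc ε L → χ = 1) :
    |φ * χ - φ| ≤ 2 * u ε' y + 2 * T / L * u L y := by
  have p1 : 0 ≤ 2 * u ε' y := by have := u_pos (hε.trans_le hε') y; positivity
  have p2 : 0 ≤ 2 * T / L * u L y := by have := u_pos hL y; positivity
  have h2 : |φ * χ - φ| ≤ φ := by
    rw [abs_le]; constructor <;> nlinarith [mul_nonneg hφ0 h0]
  by_cases hm : y ∈ Icc ε L
  · rw [hχ hm]; simp only [mul_one, sub_self, abs_zero]; linarith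
  · rw [mem_Icc, not_and_or, not_le, not_le] at hm
    rcases hm with hm | hm
    · have : 1 ≤ 2 * u ε' y := by
        unfold u
        rw [abs_of_pos hy, ← mul_div_assoc, le_div_iff₀ (by linarith)]
        linarith
      linarith [u_le_one hT y]
    · have : u T y ≤ 2 * T / L * u L y := by
        unfold u
        rw [abs_of_pos hy]
        have e : 2 * T / L * (L / (L + y)) = 2 * T / (L + y) := by field_simp
        rw [e, div_le_div_iff₀ (by linarith) (by linarith)]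
        nlinarith [mul_pos hT hT, mul_pos hT (sub_pos.2 hm)]
      linarith

theorem finite_estimate {β a c : ℝ} (hβ : 0 < β) (ha : -1 < a) (hc : 0 < c) {η R : ℝ}
    (hη : 0 < η) (hR : 0 < R) :
    ∃ ψ : ℝ → ℝ, Test ψ ∧ (∀ y ∈ Icc (1 / R) R, 1 - η ≤ ψ y) ∧ ∃ M : ℝ, ∃ n0 : ℕ, ∀ n ≥ n0,
      ∃ cn : ℝ, |cn| ≤ M ∧
        ∫ x, |(∑ i, ψ (c * (n : ℝ) * x i)) - cn| ∂(laguerre β a n) ≤ η := by
  set α := β / 2 * (a + 1) - 1 with hα
  have hα1 : -1 < α := by
    have : 0 < β / 2 * (a + 1) := by have : 0 < a + 1 := by linarith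
                                     positivity
    linarith
  obtain ⟨m, hm1, r, T, hr, hT, hvar⟩ := averaged_variance (α := α) hβ
    (η := η ^ 2 / 16) (by positivity) (R / (c * η))
  obtain ⟨D, hD1, hD⟩ := mean_bound (α := α) hβ
  obtain ⟨θ, hθ, hsmall⟩ := small_scale hβ hα1 (η := η / 8) (by positivity)
  have hT1 : 1 ≤ T := (hr 0).2.trans (hT 0 hm1)
  obtain ⟨ℓ, hℓ1, hℓ2, hℓ3⟩ : ∃ ℓ : ℝ, 1 ≤ ℓ ∧ 16 * T ^ 2 * D / η ≤ ℓ ∧ R / c ≤ ℓ :=
    ⟨max 1 (max _ _), le_max_left _ _, (le_max_left _ _).trans (le_max_right _ _),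
      (le_max_right _ _).trans (le_max_right _ _)⟩
  have hm0 : (0 : ℝ) < m := by exact_mod_cast hm1
  have hτ : ∀ k, 0 < c * r k ^ 2 := fun k => by have := (hr k).2; positivity
  obtain ⟨χ, hχ, hχ1⟩ := exists_cutoff (ε := min (c * θ) (1 / R)) (by positivity) (c * ℓ ^ 2)
  set φ : ℝ → ℝ := fun y => (m : ℝ)⁻¹ * ∑ k ∈ Finset.range m, u (c * r k ^ 2) y with hφ
  have hφc : Continuous φ :=
    continuous_const.mul (continuous_finsetSum _ fun k _ => continuous_u (hτ k))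
  have hφ0 : ∀ y, 0 ≤ φ y := fun y =>
    mul_nonneg (by positivity) (Finset.sum_nonneg fun k _ => (u_pos (hτ k) y).le)
  have hφT : ∀ y, φ y ≤ u (c * T ^ 2) y := fun y => by
    have : ∑ k ∈ Finset.range m, u (c * r k ^ 2) y ≤ ∑ _k ∈ Finset.range m, u (c * T ^ 2) y := by
      refine Finset.sum_le_sum fun k hk => u_mono (hτ k) ?_ y
      have := (hr k).2
      have := hT k (Finset.mem_range.1 hk)
      gcongr
    simp only [Finset.sum_const, Finset.card_range, nsmul_eq_mul] at this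
    rw [hφ]; dsimp only
    rw [inv_mul_le_iff₀ hm0]; exact this
  have hφ1 : ∀ y, φ y ≤ 1 := fun y => (hφT y).trans (u_le_one (by positivity) y)
  obtain ⟨n0, hn0⟩ := exists_nat_ge (max (T ^ 2) (ℓ ^ 2))
  refine ⟨fun y => φ y * χ y, hχ.mul hφc hφ0 hφ1, fun y hy => ?_, T + D, n0, fun n hn => ?_⟩
  · have hy0 : 0 < y := lt_of_lt_of_le (by positivity) hy.1
    have h1 : χ y = 1 := by
      refine hχ1 y ⟨(min_le_right _ _).trans hy.1, hy.2.trans ?_⟩
      rw [div_le_iff₀ hc] at hℓ3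
      have : ℓ ≤ ℓ ^ 2 := le_self_pow₀ hℓ1 (by norm_num)
      nlinarith
    have h2 : ∑ _k ∈ Finset.range m, (1 - η) ≤ ∑ k ∈ Finset.range m, u (c * r k ^ 2) y := by
      refine Finset.sum_le_sum fun k _ => ?_
      have k1 : R ≤ η * (c * r k ^ 2) := by
        have j1 := (hr k).1
        rw [div_le_iff₀ (by positivity)] at j1
        have j2 : r k ≤ r k ^ 2 := le_self_pow₀ (hr k).2 (by norm_num)
        have j3 : r k * (c * η) ≤ r k ^ 2 * (c * η) := by gcongr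
        linarith
      have k2 := hτ k
      unfold u
      rw [abs_of_pos hy0, le_div_iff₀ (by linarith)]
      nlinarith [hy.2, mul_pos hη hy0]
    simp only [Finset.sum_const, Finset.card_range, nsmul_eq_mul] at h2
    simp only [h1, mul_one, hφ]
    rw [le_inv_mul_iff₀ hm0]; exact h2
  · have := isProbabilityMeasure_laguerre hβ ha n
    set μ := laguerre β a n with hμ
    have hLE : LE β α μ := LE_laguerre hβ ha n
    have hnn : max (T ^ 2) (ℓ ^ 2) ≤ n := hn0.trans (by exact_mod_cast hn)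
    have hnT : T ^ 2 ≤ n := (le_max_left _ _).trans hnn
    have hnℓ : ℓ ^ 2 ≤ n := (le_max_right _ _).trans hnn
    have hn1' : (1 : ℝ) ≤ n := (one_le_pow₀ hT1).trans hnT
    have hnpos : (0 : ℝ) < n := by linarith
    have hn1 : 1 ≤ n := by exact_mod_cast hn1'
    have hcn : 0 < c * n := by positivity
    have sc : ∀ s : ℝ, 0 < s → ∀ y, u (c * s) (c * n * y) = u (s / n) y := fun s hs y => by
      rw [u_scale hcn (by positivity)]; congr 1; field_simp
    refine ⟨(m : ℝ)⁻¹ * ∑ k ∈ Finset.range m, mean μ (r k ^ 2 / n), ?_, ?_⟩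
    · have k0 : ∀ k, 0 ≤ mean μ (r k ^ 2 / n) := fun k =>
        integral_nonneg fun x => XX_nonneg (by have := (hr k).2; positivity) x
      rw [abs_of_nonneg (mul_nonneg (by positivity) (Finset.sum_nonneg fun k _ => k0 k)),
        inv_mul_le_iff₀ hm0]
      have : ∑ k ∈ Finset.range m, mean μ (r k ^ 2 / n) ≤ ∑ _k ∈ Finset.range m, (T + D) := by
        refine Finset.sum_le_sum fun k hk => ?_
        have j1 := hT k (Finset.mem_range.1 hk)
        have j2 := (hr k).2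
        have j3 := (hD n μ hLE (r k) j2 (le_trans (by gcongr) hnT)).2
        unfold mean; linarith
      simpa only [Finset.sum_const, Finset.card_range, nsmul_eq_mul] using this
    · have e1 := hvar n μ hLE hnT
      have e2 := hsmall n μ hLE hn1
      have e3 := hD n μ hLE ℓ hℓ1 hnℓ
      have e4 := (((Ele.const (μ := μ) (η / 4)).add (e1.smul (k := 4 / η) (by positivity))).add
        (e2.smul (k := 2) zero_le_two)).add
        (e3.smul (k := 2 * (c * T ^ 2) / (c * ℓ ^ 2)) (by positivity))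
      refine (e4.mono_ae (((hχ.mul hφc hφ0 hφ1).bdd (c * n)).sub (Bdd.const _)).abs ?_ ?_).2
      · filter_upwards [ae_mem_chamber β a n] with x hx
        set S := (m : ℝ)⁻¹ * ∑ k ∈ Finset.range m, (XX (r k ^ 2 / n) x - mean μ (r k ^ 2 / n))
          with hS
        have s1 : (∑ i, φ (c * n * x i)) - (m : ℝ)⁻¹ * ∑ k ∈ Finset.range m, mean μ (r k ^ 2 / n)
            = S := by
          rw [hS, Finset.sum_sub_distrib, mul_sub, hφ]
          congr 1
          dsimp only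
          rw [← Finset.mul_sum, Finset.sum_comm]
          congr 1
          refine Finset.sum_congr rfl fun k _ => Finset.sum_congr rfl fun i _ => ?_
          exact sc _ (by have := (hr k).2; positivity) _
        have s2 : |S| ≤ η / 4 + 4 / η * S ^ 2 := by
          rw [← sq_abs S]
          have j : 4 / η * |S| ^ 2 - 2 * |S| + η / 4 = 4 / η * (|S| - η / 4) ^ 2 := by
            field_simp; ring
          have j2 : 0 ≤ 4 / η * (|S| - η / 4) ^ 2 := by positivity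
          linarith [abs_nonneg S]
        have s3 : |(∑ i, φ (c * n * x i) * χ (c * n * x i)) - ∑ i, φ (c * n * x i)| ≤
            2 * XX (θ / n) x + 2 * (c * T ^ 2) / (c * ℓ ^ 2) * XX (ℓ ^ 2 / n) x := by
          rw [← Finset.sum_sub_distrib]
          refine (Finset.abs_sum_le_sum_abs _ _).trans ?_
          unfold XX
          rw [Finset.mul_sum, Finset.mul_sum, ← Finset.sum_add_distrib]
          refine Finset.sum_le_sum fun i _ => ?_
          rw [← sc θ hθ, ← sc (ℓ ^ 2) (by positivity)]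
          exact tail_pointwise (by positivity) (min_le_left _ _) (by positivity) (by positivity)
            (mul_pos hcn (hx.1 i)) (hφ0 _) (hφT _) (hχ.nonneg _) (hχ.le_one _) (hχ1 _)
        have s4 : (∑ i, φ (c * n * x i) * χ (c * n * x i)) -
            (m : ℝ)⁻¹ * ∑ k ∈ Finset.range m, mean μ (r k ^ 2 / n) =
            S + ((∑ i, φ (c * n * x i) * χ (c * n * x i)) - ∑ i, φ (c * n * x i)) := by
          rw [← s1]; ring
        rw [s4]
        refine (abs_add_le _ _).trans ?_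
        linarith
      · have j1 : 4 / η * (η ^ 2 / 16) = η / 4 := by field_simp; ring
        have j2 : 2 * (c * T ^ 2) / (c * ℓ ^ 2) * (ℓ + D) ≤ η / 4 := by
          have hℓ0 : 0 < ℓ := by linarith
          have i1 : ℓ + D ≤ 2 * D * ℓ := by nlinarith
          have i2 : 2 * (c * T ^ 2) / (c * ℓ ^ 2) * (2 * D * ℓ) = 4 * T ^ 2 * D / ℓ := by
            field_simp; ring
          rw [div_le_iff₀ hη] at hℓ2
          calc _ ≤ 2 * (c * T ^ 2) / (c * ℓ ^ 2) * (2 * D * ℓ) := by gcongr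
            _ = _ := i2
            _ ≤ _ := by rw [div_le_iff₀ hℓ0]; linarith
        linarith

theorem finite_mean {β a c : ℝ} (hβ : 0 < β) (ha : -1 < a) (hc : 0 < c) (R : ℝ) :
    ∃ τ C : ℝ, 0 < τ ∧ R ≤ τ ∧ 0 < C ∧ ∃ n0 : ℕ, ∀ n ≥ n0,
      Ele (laguerre β a n) (fun x => ∑ i, u τ (c * (n : ℝ) * x i)) C := by
  obtain ⟨D, hD1, hD⟩ := mean_bound (α := β / 2 * (a + 1) - 1) hβ
  obtain ⟨ℓ, hℓ1, hℓ3⟩ : ∃ ℓ : ℝ, 1 ≤ ℓ ∧ R / c ≤ ℓ :=
    ⟨max 1 _, le_max_left _ _, le_max_right _ _⟩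
  obtain ⟨n0, hn0⟩ := exists_nat_ge (ℓ ^ 2)
  refine ⟨c * ℓ ^ 2, ℓ + D, by positivity, ?_, by linarith, n0, fun n hn => ?_⟩
  · rw [div_le_iff₀ hc] at hℓ3
    have : ℓ ≤ ℓ ^ 2 := le_self_pow₀ hℓ1 (by norm_num)
    nlinarith
  · have := isProbabilityMeasure_laguerre hβ ha n
    have hnn : ℓ ^ 2 ≤ n := hn0.trans (by exact_mod_cast hn)
    have hnpos : (0 : ℝ) < n := lt_of_lt_of_le (by positivity) hnn
    have e := hD n _ (LE_laguerre hβ ha n) ℓ hℓ1 hnn
    have : (fun x : Fin n → ℝ => ∑ i, u (c * ℓ ^ 2) (c * (n : ℝ) * x i)) = XX (ℓ ^ 2 / n) := by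
      funext x
      refine Finset.sum_congr rfl fun i _ => ?_
      rw [u_scale (by positivity) (by positivity)]; congr 1; field_simp
    rw [this]; exact e

end Pool.Agent.H74Z.Rig
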