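import Pool.Agent.H74Z.RigFin

open MeasureTheory Set Filter Topology
open scoped ENNReal BoundedContinuousFunction

namespace Pool.Agent.H74Z.Rig

variable {Ω : Type*} [MeasurableSpace Ω] {P : Measure Ω} {X : Ω → Measure ℝ}

lemma Test.integrable {ψ : ℝ → ℝ} (h : Test ψ) (hX : IsSimplePointProcess X) (ω : Ω) :
    Integrable ψ (X ω) := by
  rw [← integrableOn_iff_integrable_of_support_subset (subset_tsupport ψ)]
  refine Measure.integrableOn_of_bounded (hX.locallyFinite ω _ h.cs.isCompact h.supp).ne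
    h.cont.aestronglyMeasurable (M := 1) (Eventually.of_forall fun y => ?_)
  rw [Real.norm_eq_abs, abs_of_nonneg (h.nonneg y)]; exact h.le_one y

noncomputable def II (ψ : ℝ → ℝ) (μ : Measure ℝ) : ℝ := (∫⁻ y, ENNReal.ofReal (ψ y) ∂μ).toReal

lemma Test.measurable_II {ψ : ℝ → ℝ} (h : Test ψ) : Measurable (II ψ) :=
  (Measure.measurable_lintegral h.cont.measurable.ennreal_ofReal).ennreal_toReal

lemma Test.integral_eq {ψ : ℝ → ℝ} (h : Test ψ) (μ : Measure ℝ) : ∫ y, ψ y ∂μ = II ψ μ :=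
  integral_eq_lintegral_of_nonneg_ae (Eventually.of_forall h.nonneg) h.cont.aestronglyMeasurable

lemma Test.measurable_integral {ψ : ℝ → ℝ} (h : Test ψ) (hX : IsSimplePointProcess X) :
    Measurable fun ω => ∫ y, ψ y ∂(X ω) := by
  simp only [h.integral_eq]
  exact h.measurable_II.comp hX.measurable

noncomputable def cutAbs (c0 κ : ℝ) : ℝ →ᵇ ℝ :=
  BoundedContinuousFunction.ofNormedAddCommGroup (fun y => min |κ * (y - c0)| 1) (by fun_prop) 1
    (fun y => by
      rw [Real.norm_eq_abs, abs_of_nonneg (le_min (abs_nonneg _) zero_le_one)]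
      exact min_le_right _ _)

lemma cutAbs_apply (c0 κ y : ℝ) : cutAbs c0 κ y = min |κ * (y - c0)| 1 := rfl

noncomputable def clamp (M : ℝ) : ℝ →ᵇ ℝ :=
  BoundedContinuousFunction.ofNormedAddCommGroup (fun y => max (-|M|) (min y |M|)) (by fun_prop)
    |M| (fun y => by
      rw [Real.norm_eq_abs, abs_le]
      exact ⟨le_max_left _ _, max_le (by linarith [abs_nonneg M]) (min_le_right _ _)⟩)

lemma clamp_apply (M y : ℝ) : clamp M y = max (-|M|) (min y |M|) := rfl

lemma clamp_sub {M c : ℝ} (hc : |c| ≤ M) (y : ℝ) : |clamp M y - c| ≤ |y - c| := by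
  have hM : |M| = M := abs_of_nonneg ((abs_nonneg _).trans hc)
  rw [clamp_apply, hM]
  obtain ⟨h1, h2⟩ := abs_le.1 hc
  have h3 := le_abs_self (y - c)
  have h4 := neg_abs_le (y - c)
  have h5 := abs_nonneg (y - c)
  rw [abs_le]
  constructor
  · have : min y M ≤ max (-M) (min y M) := le_max_right _ _
    rcases min_cases y M with h | h <;> linarith [h.1]
  · have : min y M ≤ y := min_le_left _ _
    rcases max_cases (-M) (min y M) with h | h <;> linarith [h.1]

lemma bdd_bcf {Ω' : Type*} [MeasurableSpace Ω'] (F : ℝ →ᵇ ℝ) {S : Ω' → ℝ} (hS : Measurable S) :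
    Bdd (fun x => F (S x)) :=
  ⟨F.continuous.measurable.comp hS, ‖F‖, fun x => F.norm_coe_le_norm (S x)⟩

lemma limit_estimate {β a c : ℝ} (hβ : 0 < β) (ha : -1 < a) {N : ℕ → ℕ}
    (hN : Tendsto N atTop atTop) (hlim : IsHardEdgeLimit β a c N P X) {ψ : ℝ → ℝ} (hψ : Test ψ)
    {η M : ℝ} {n0 : ℕ} (h : ∀ n ≥ n0, ∃ cn : ℝ, |cn| ≤ M ∧
      ∫ x, |(∑ i, ψ (c * (n : ℝ) * x i)) - cn| ∂(laguerre β a n) ≤ η) :
    ∃ c0 : ℝ, ∫ ω, min |(∫ y, ψ y ∂(X ω)) - c0| 1 ∂P ≤ 2 * η := by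
  have h1 := hlim ψ hψ.cont hψ.cs hψ.supp (clamp M)
  set c0 := ∫ ω, clamp M (∫ y, ψ y ∂(X ω)) ∂P with hc0
  have h2 := hlim ψ hψ.cont hψ.cs hψ.supp (cutAbs c0 1)
  simp only [cutAbs_apply, one_mul] at h2
  refine ⟨c0, ?_⟩
  have h3 : Tendsto (fun k => 2 * η + |(∫ x, clamp M (∑ i, ψ (c * (N k : ℝ) * x i))
      ∂(laguerre β a (N k))) - c0|) atTop (𝓝 (2 * η + |c0 - c0|)) :=
    tendsto_const_nhds.add (h1.sub tendsto_const_nhds).abs
  simp only [sub_self, abs_zero, add_zero] at h3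
  refine le_of_tendsto_of_tendsto h2 h3 ?_
  filter_upwards [hN.eventually_ge_atTop n0] with k hk
  obtain ⟨cn, hcn, hE⟩ := h (N k) hk
  have := isProbabilityMeasure_laguerre hβ ha (N k)
  have hS := hψ.bdd (n := N k) (c * (N k : ℝ))
  have e0 : Ele (laguerre β a (N k)) (fun x => |(∑ i, ψ (c * (N k : ℝ) * x i)) - cn|) η :=
    ⟨(hS.sub (Bdd.const _)).abs, hE⟩
  have hb := bdd_bcf (clamp M) hS.1
  have k1 : |(∫ x, clamp M (∑ i, ψ (c * (N k : ℝ) * x i)) ∂(laguerre β a (N k))) - cn| ≤ η := by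
    have : (∫ x, clamp M (∑ i, ψ (c * (N k : ℝ) * x i)) ∂(laguerre β a (N k))) - cn =
        ∫ x, (clamp M (∑ i, ψ (c * (N k : ℝ) * x i)) - cn) ∂(laguerre β a (N k)) := by
      rw [integral_sub (hb.integrable _) (integrable_const _)]; simp
    rw [this]
    exact abs_integral_le_integral_abs.trans
      (e0.mono (hb.sub (Bdd.const _)).abs (fun x => clamp_sub hcn _) le_rfl).2
  have hb2 := bdd_bcf (cutAbs c0 1) hS.1
  simp only [cutAbs_apply, one_mul] at hb2
  refine ((e0.add (Ele.const |cn - c0|)).mono hb2 (fun x => (min_le_left _ _).trans ?_) ?_).2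
  · exact abs_sub_le _ _ _
  · have := abs_sub_le cn (∫ x, clamp M (∑ i, ψ (c * (N k : ℝ) * x i)) ∂(laguerre β a (N k))) c0
    rw [abs_sub_comm] at k1
    linarith

lemma ae_finite {β a c : ℝ} (hβ : 0 < β) (ha : -1 < a) (hc : 0 < c) {N : ℕ → ℕ}
    (hN : Tendsto N atTop atTop) [IsProbabilityMeasure P] (hX : IsSimplePointProcess X)
    (hlim : IsHardEdgeLimit β a c N P X) (R : ℝ) : ∀ᵐ ω ∂P, X ω (Ioc 0 R) < ∞ := by
  obtain ⟨τ, C, hτ, hRτ, hC, n0, hn0⟩ := finite_mean hβ ha hc R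
  have key : ∀ M : ℝ, 0 < M → P {ω | X ω (Ioc 0 R) = ∞} ≤ ENNReal.ofReal (C / M) := by
    intro M hM
    set A : ℕ → Set Ω := fun j => {ω | ENNReal.ofReal (2 * M) ≤ X ω (Icc (1 / ((j : ℝ) + 1)) R)}
      with hA
    have hI : Monotone fun j : ℕ => Icc (1 / ((j : ℝ) + 1)) R := fun i j hij =>
      Icc_subset_Icc_left (Nat.one_div_le_one_div hij)
    have hAm : Monotone A := fun i j hij ω hω => le_trans hω (measure_mono (hI hij))
    have hsub : {ω | X ω (Ioc 0 R) = ∞} ⊆ ⋃ j, A j := by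
      intro ω hω
      have h1 : Ioc 0 R ⊆ ⋃ j : ℕ, Icc (1 / ((j : ℝ) + 1)) R := fun y hy => by
        obtain ⟨j, hj⟩ := exists_nat_one_div_lt hy.1
        exact mem_iUnion.2 ⟨j, hj.le, hy.2⟩
      have h2 : X ω (Ioc 0 R) ≤ ⨆ j : ℕ, X ω (Icc (1 / ((j : ℝ) + 1)) R) := by
        rw [← hI.measure_iUnion]; exact measure_mono h1
      have h3 : ENNReal.ofReal (2 * M) < ⨆ j : ℕ, X ω (Icc (1 / ((j : ℝ) + 1)) R) :=
        lt_of_lt_of_le (by rw [show X ω (Ioc 0 R) = ∞ from hω]; exact ENNReal.ofReal_lt_top) h2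
      obtain ⟨j, hj⟩ := lt_iSup_iff.1 h3
      exact mem_iUnion.2 ⟨j, hj.le⟩
    refine (measure_mono hsub).trans ?_
    rw [hAm.measure_iUnion]
    refine iSup_le fun j => ?_
    obtain ⟨χ, hχ, hχ1⟩ := exists_cutoff (ε := 1 / ((j : ℝ) + 1)) (by positivity) R
    have hf := hχ.mul (continuous_u hτ) (fun y => (u_pos hτ y).le) (u_le_one hτ)
    have h2 := hlim _ hf.cont hf.cs hf.supp (cutAbs 0 M⁻¹)
    have h3 : ∫ ω, cutAbs 0 M⁻¹ (∫ y, u τ y * χ y ∂(X ω)) ∂P ≤ C / M := by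
      refine le_of_tendsto h2 ?_
      filter_upwards [hN.eventually_ge_atTop n0] with k hk
      have := isProbabilityMeasure_laguerre hβ ha (N k)
      refine (((hn0 (N k) hk).smul (k := M⁻¹) (by positivity)).mono
        (bdd_bcf (cutAbs 0 M⁻¹) (hf.bdd (n := N k) (c * (N k : ℝ))).1) (fun x => ?_)
        (le_of_eq (by field_simp))).2
      rw [cutAbs_apply]
      refine (min_le_left _ _).trans ?_
      rw [sub_zero, abs_of_nonneg (mul_nonneg (by positivity)
        (Finset.sum_nonneg fun i _ => hf.nonneg _))]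
      refine mul_le_mul_of_nonneg_left (Finset.sum_le_sum fun i _ => ?_) (by positivity)
      exact mul_le_of_le_one_right (u_pos hτ _).le (hχ.le_one _)
    have hb := bdd_bcf (cutAbs 0 M⁻¹) (hf.measurable_integral hX)
    have h4 := mul_meas_ge_le_integral_of_nonneg (μ := P)
      (f := fun ω => cutAbs 0 M⁻¹ (∫ y, u τ y * χ y ∂(X ω)))
      (Eventually.of_forall fun ω => le_min (abs_nonneg _) zero_le_one) (hb.integrable P) 1
    rw [one_mul] at h4
    have h5 : A j ⊆ {ω | 1 ≤ cutAbs 0 M⁻¹ (∫ y, u τ y * χ y ∂(X ω))} := by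
      intro ω hω
      have hfin : X ω (Icc (1 / ((j : ℝ) + 1)) R) < ∞ := hX.locallyFinite ω _ isCompact_Icc
        fun y hy => lt_of_lt_of_le (by positivity) hy.1
      have i1 : 2 * M ≤ (X ω).real (Icc (1 / ((j : ℝ) + 1)) R) :=
        (ENNReal.ofReal_le_iff_le_toReal hfin.ne).1 hω
      have i2 : 1 / 2 * (X ω).real (Icc (1 / ((j : ℝ) + 1)) R) ≤
          ∫ y in Icc (1 / ((j : ℝ) + 1)) R, u τ y * χ y ∂(X ω) := by
        refine setIntegral_ge_of_const_le_real measurableSet_Icc hfin.ne (fun y hy => ?_)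
          (hf.integrable hX ω).integrableOn
        have hy0 : 0 < y := lt_of_lt_of_le (by positivity) hy.1
        rw [hχ1 y hy, mul_one]
        unfold u
        rw [abs_of_pos hy0, le_div_iff₀ (by linarith)]
        linarith [hy.2]
      have i3 : ∫ y in Icc (1 / ((j : ℝ) + 1)) R, u τ y * χ y ∂(X ω) ≤
          ∫ y, u τ y * χ y ∂(X ω) :=
        setIntegral_le_integral (hf.integrable hX ω) (Eventually.of_forall hf.nonneg)
      rw [mem_ofPred_eq, cutAbs_apply]
      refine le_min (le_trans ?_ (le_abs_self _)) le_rfl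
      rw [sub_zero, le_inv_mul_iff₀ hM]
      linarith
    refine (measure_mono h5).trans ?_
    rw [← ENNReal.ofReal_toReal (measure_ne_top P _)]
    exact ENNReal.ofReal_le_ofReal (h4.trans h3)
  have h0 : P {ω | X ω (Ioc 0 R) = ∞} = 0 := by
    refine le_antisymm ?_ zero_le
    have t1 : Tendsto (fun k : ℕ => ENNReal.ofReal (C / (k : ℝ))) atTop (𝓝 (ENNReal.ofReal 0)) :=
      ENNReal.tendsto_ofReal (tendsto_const_div_atTop_nhds_zero_nat C)
    rw [ENNReal.ofReal_zero] at t1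
    refine ge_of_tendsto t1 ?_
    filter_upwards [eventually_gt_atTop 0] with k hk
    exact key k (by exact_mod_cast hk)
  rw [ae_iff]
  simpa only [not_lt, top_le_iff] using h0

theorem numberRigid {β a c : ℝ} (hβ : 0 < β) (ha : -1 < a) (hc : 0 < c) {N : ℕ → ℕ}
    (hN : Tendsto N atTop atTop) [IsProbabilityMeasure P] (hX : IsSimplePointProcess X)
    (hlim : IsHardEdgeLimit β a c N P X) : NumberRigid P X := by
  intro B hB hB0 hBb
  have hex : ∀ k : ℕ, ∃ ψ : ℝ → ℝ, ∃ c0 : ℝ, Test ψ ∧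
      (∀ y ∈ Icc (1 / ((k : ℝ) + 1)) ((k : ℝ) + 1), 1 - (1 / 2) ^ k ≤ ψ y) ∧
      ∫ ω, min |(∫ y, ψ y ∂(X ω)) - c0| 1 ∂P ≤ 2 * (1 / 2) ^ k := by
    intro k
    obtain ⟨ψ, hψ, h1, M, n0, h2⟩ := finite_estimate hβ ha hc (η := (1 / 2) ^ k)
      (R := (k : ℝ) + 1) (by positivity) (by positivity)
    obtain ⟨c0, h3⟩ := limit_estimate hβ ha hN hlim hψ h2
    exact ⟨ψ, c0, hψ, h1, h3⟩
  choose ψ c0 hψ h1 h2 using hex
  refine ⟨fun μ => liminf (fun k => ENNReal.ofReal (c0 k - II (ψ k) μ)) atTop,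
    Measurable.liminf fun k => (measurable_const.sub (hψ k).measurable_II).ennreal_ofReal, ?_⟩
  obtain ⟨R, hR⟩ := hBb.bddAbove
  have hb : ∀ k, Bdd fun ω => min |(∫ y, ψ k y ∂(X ω)) - c0 k| 1 := fun k => by
    have := bdd_bcf (cutAbs (c0 k) 1) ((hψ k).measurable_integral hX)
    simpa only [cutAbs_apply, one_mul] using this
  have hnn : ∀ k ω, 0 ≤ min |(∫ y, ψ k y ∂(X ω)) - c0 k| 1 := fun k ω =>
    le_min (abs_nonneg _) zero_le_one
  have hsum : ∫⁻ ω, ∑' k, ENNReal.ofReal (min |(∫ y, ψ k y ∂(X ω)) - c0 k| 1) ∂P ≠ ∞ := by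
    rw [lintegral_tsum fun k => (hb k).1.ennreal_ofReal.aemeasurable]
    refine ne_top_of_le_ne_top
      (summable_geometric_two.mul_left 2).tsum_ofReal_ne_top (ENNReal.tsum_le_tsum fun k => ?_)
    rw [← ofReal_integral_eq_lintegral_ofReal ((hb k).integrable P)
      (Eventually.of_forall (hnn k))]
    exact ENNReal.ofReal_le_ofReal (h2 k)
  have hae := ae_lt_top (Measurable.tsum fun k => (hb k).1.ennreal_ofReal) hsum
  filter_upwards [hae, ae_finite hβ ha hc hN hX hlim R] with ω hω hfin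
  have t1 : Tendsto (fun k => min |(∫ y, ψ k y ∂(X ω)) - c0 k| 1) atTop (𝓝 0) := by
    have := (ENNReal.tendsto_toReal ENNReal.zero_ne_top).comp
      (ENNReal.tendsto_atTop_zero_of_tsum_ne_top hω.ne)
    simpa only [Function.comp_def, ENNReal.toReal_ofReal (hnn _ ω), ENNReal.toReal_zero] using this
  have t2 : Tendsto (fun k => (∫ y, ψ k y ∂(X ω)) - c0 k) atTop (𝓝 0) := by
    rw [tendsto_zero_iff_abs_tendsto_zero]
    refine t1.congr' ?_
    filter_upwards [t1.eventually (gt_mem_nhds zero_lt_one)] with k hk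
    rcases min_cases |(∫ y, ψ k y ∂(X ω)) - c0 k| 1 with h | h
    · exact h.1
    · rw [h.1] at hk; exact absurd hk (lt_irrefl _)
  have hBfin : X ω B < ∞ := lt_of_le_of_lt (measure_mono fun y hy => mem_Ioc.2 ⟨hB0 hy, hR hy⟩) hfin
  have : IsFiniteMeasure ((X ω).restrict B) := isFiniteMeasure_restrict.2 hBfin.ne
  have t3 : Tendsto (fun k => ∫ y in B, ψ k y ∂(X ω)) atTop (𝓝 (∫ _y in B, (1 : ℝ) ∂(X ω))) := by
    refine tendsto_integral_of_dominated_convergence (fun _ => (1 : ℝ))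
      (fun k => (hψ k).cont.aestronglyMeasurable) (integrable_const _)
      (fun k => Eventually.of_forall fun y => ?_) ?_
    · rw [Real.norm_eq_abs, abs_of_nonneg ((hψ k).nonneg y)]; exact (hψ k).le_one y
    · filter_upwards [ae_restrict_mem hB] with y hy
      have hy0 : 0 < y := hB0 hy
      have l1 : Tendsto (fun k : ℕ => 1 - (1 / 2 : ℝ) ^ k) atTop (𝓝 (1 - 0)) :=
        tendsto_const_nhds.sub (tendsto_pow_atTop_nhds_zero_of_lt_one (by norm_num) (by norm_num))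
      rw [sub_zero] at l1
      refine tendsto_of_tendsto_of_tendsto_of_le_of_le' l1 tendsto_const_nhds ?_
        (Eventually.of_forall fun k => (hψ k).le_one y)
      obtain ⟨j, hj⟩ := exists_nat_one_div_lt hy0
      obtain ⟨j', hj'⟩ := exists_nat_ge y
      filter_upwards [eventually_ge_atTop j, eventually_ge_atTop j'] with k hk hk'
      refine h1 k y ⟨(Nat.one_div_le_one_div hk).trans hj.le, ?_⟩
      have : (j' : ℝ) ≤ k := by exact_mod_cast hk'
      linarith
  have split : ∀ k, II (ψ k) ((X ω).restrict (Ioi 0 \ B)) =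
      (∫ y, ψ k y ∂(X ω)) - ∫ y in B, ψ k y ∂(X ω) := by
    intro k
    rw [← (hψ k).integral_eq, setIntegral_sdiff hB ((hψ k).integrable hX ω).integrableOn hB0,
      setIntegral_eq_integral_of_forall_compl_eq_zero]
    intro y hy
    by_contra hcon
    exact hy ((hψ k).supp (subset_tsupport _ hcon))
  have t4 : Tendsto (fun k => c0 k - II (ψ k) ((X ω).restrict (Ioi 0 \ B))) atTop
      (𝓝 ((X ω).real B)) := by
    have := t3.sub t2
    simp only [integral_const, MeasurableSet.univ, measureReal_restrict_apply, univ_inter,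
      smul_eq_mul, mul_one, sub_zero] at this
    refine this.congr fun k => ?_
    rw [split]; ring
  have t5 := (ENNReal.tendsto_ofReal t4).liminf_eq
  rw [t5, ofReal_measureReal hBfin.ne]

end Pool.Agent.H74Z.Rig
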