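import Mathlib

open MeasureTheory Set Filter Topology

namespace Pool.Agent.H74Z.Rig

/-- Families of bounded measurable functions with a bounded derivative in the parameter. -/
structure Nice {Ω : Type*} [MeasurableSpace Ω] (F F' : ℝ → Ω → ℝ) : Prop where
  meas : ∀ e, Measurable (F e)
  meas' : ∀ e, Measurable (F' e)
  deriv : ∀ ω, ∀ e, |e| < 1 / 2 → HasDerivAt (fun e => F e ω) (F' e ω) e
  bdd : ∃ C, ∀ ω, ∀ e, |e| < 1 / 2 → |F e ω| ≤ C ∧ |F' e ω| ≤ C

variable {Ω : Type*} [MeasurableSpace Ω]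

lemma Nice.add {F F' G G' : ℝ → Ω → ℝ} (hF : Nice F F') (hG : Nice G G') :
    Nice (fun e ω => F e ω + G e ω) (fun e ω => F' e ω + G' e ω) where
  meas e := (hF.meas e).add (hG.meas e)
  meas' e := (hF.meas' e).add (hG.meas' e)
  deriv ω e he := (hF.deriv ω e he).add (hG.deriv ω e he)
  bdd := by
    obtain ⟨C, hC⟩ := hF.bdd
    obtain ⟨D, hD⟩ := hG.bdd
    refine ⟨C + D, fun ω e he => ⟨?_, ?_⟩⟩
    · exact (abs_add_le _ _).trans (add_le_add (hC ω e he).1 (hD ω e he).1)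
    · exact (abs_add_le _ _).trans (add_le_add (hC ω e he).2 (hD ω e he).2)

lemma Nice.mul {F F' G G' : ℝ → Ω → ℝ} (hF : Nice F F') (hG : Nice G G') :
    Nice (fun e ω => F e ω * G e ω) (fun e ω => F' e ω * G e ω + F e ω * G' e ω) where
  meas e := (hF.meas e).mul (hG.meas e)
  meas' e := ((hF.meas' e).mul (hG.meas e)).add ((hF.meas e).mul (hG.meas' e))
  deriv ω e he := (hF.deriv ω e he).mul (hG.deriv ω e he)
  bdd := by
    obtain ⟨C, hC⟩ := hF.bdd
    obtain ⟨D, hD⟩ := hG.bdd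
    refine ⟨2 * (C * D), fun ω e he => ?_⟩
    obtain ⟨h1, h2⟩ := hC ω e he
    obtain ⟨h3, h4⟩ := hD ω e he
    have hC0 : 0 ≤ C := (abs_nonneg _).trans h1
    have hD0 : 0 ≤ D := (abs_nonneg _).trans h3
    have k1 : |F e ω * G e ω| ≤ C * D := by rw [abs_mul]; gcongr
    have k2 : |F' e ω * G e ω| ≤ C * D := by rw [abs_mul]; gcongr
    have k3 : |F e ω * G' e ω| ≤ C * D := by rw [abs_mul]; gcongr
    have k0 : 0 ≤ C * D := mul_nonneg hC0 hD0
    exact ⟨by linarith, (abs_add_le _ _).trans (by linarith)⟩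

lemma Nice.const (c : ℝ) : Nice (fun _ (_ : Ω) => c) (fun _ _ => 0) where
  meas _ := measurable_const
  meas' _ := measurable_const
  deriv _ e _ := hasDerivAt_const e c
  bdd := ⟨|c|, fun _ _ _ => ⟨le_rfl, by simp⟩⟩

lemma Nice.congr' {F F' G' : ℝ → Ω → ℝ} (hF : Nice F F') (h : ∀ e ω, F' e ω = G' e ω) :
    Nice F G' := by
  have : F' = G' := by funext e ω; exact h e ω
  rwa [← this]

lemma Nice.const_mul {F F' : ℝ → Ω → ℝ} (c : ℝ) (hF : Nice F F') :
    Nice (fun e ω => c * F e ω) (fun e ω => c * F' e ω) :=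
  ((Nice.const c).mul hF).congr' (fun e ω => by simp)

lemma Nice.sum {ι : Type*} (s : Finset ι) {F F' : ι → ℝ → Ω → ℝ}
    (h : ∀ i ∈ s, Nice (F i) (F' i)) :
    Nice (fun e ω => ∑ i ∈ s, F i e ω) (fun e ω => ∑ i ∈ s, F' i e ω) := by
  classical
  induction s using Finset.induction_on with
  | empty => simpa using Nice.const (Ω := Ω) 0
  | insert a s ha ih =>
    simp only [Finset.sum_insert ha]
    exact (h a (Finset.mem_insert_self _ _)).add
      (ih fun i hi => h i (Finset.mem_insert_of_mem hi))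

lemma Nice.comp {F F' : ℝ → Ω → ℝ} (hF : Nice F F') {g g' : ℝ → ℝ}
    (hg : ∀ y, HasDerivAt g (g' y) y) (hg' : Continuous g') :
    Nice (fun e ω => g (F e ω)) (fun e ω => g' (F e ω) * F' e ω) where
  meas e := (continuous_iff_continuousAt.2 fun y => (hg y).continuousAt).measurable.comp
    (hF.meas e)
  meas' e := (hg'.measurable.comp (hF.meas e)).mul (hF.meas' e)
  deriv ω e he := (hg _).comp e (hF.deriv ω e he)
  bdd := by
    obtain ⟨C, hC⟩ := hF.bdd
    have hgc : Continuous g := continuous_iff_continuousAt.2 fun y => (hg y).continuousAt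
    obtain ⟨D, hD⟩ := (isCompact_Icc (a := -C) (b := C)).exists_bound_of_continuousOn
      hgc.continuousOn
    obtain ⟨D', hD'⟩ := (isCompact_Icc (a := -C) (b := C)).exists_bound_of_continuousOn
      hg'.continuousOn
    refine ⟨max D (D' * C), fun ω e he => ?_⟩
    obtain ⟨h1, h2⟩ := hC ω e he
    have hm : F e ω ∈ Icc (-C) C := abs_le.1 h1
    refine ⟨(hD _ hm).trans (le_max_left _ _), le_trans ?_ (le_max_right _ _)⟩
    rw [abs_mul]
    have := hD' _ hm
    rw [Real.norm_eq_abs] at this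
    have h0 : 0 ≤ D' := (abs_nonneg _).trans this
    gcongr

lemma Nice.lin {d : Ω → ℝ} (hd : Measurable d) (h0 : ∀ ω, 0 ≤ d ω) (h1 : ∀ ω, d ω ≤ 1) :
    Nice (fun e ω => e * d ω) (fun _ ω => d ω) where
  meas e := hd.const_mul e
  meas' _ := hd
  deriv ω e _ := by simpa using (hasDerivAt_id e).mul_const (d ω)
  bdd := by
    refine ⟨1, fun ω e he => ⟨?_, ?_⟩⟩
    · rw [abs_mul, abs_of_nonneg (h0 ω)]
      have := h0 ω; have := h1 ω; have := abs_nonneg e
      nlinarith
    · rw [abs_of_nonneg (h0 ω)]; exact h1 ω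

lemma one_add_mul_mem {e d : ℝ} (he : |e| < 1 / 2) (h0 : 0 ≤ d) (h1 : d ≤ 1) :
    1 / 2 ≤ 1 + e * d ∧ 1 + e * d ≤ 3 / 2 := by
  obtain ⟨h2, h3⟩ := abs_lt.1 he
  constructor <;> nlinarith

lemma Nice.log {d : Ω → ℝ} (hd : Measurable d) (h0 : ∀ ω, 0 ≤ d ω) (h1 : ∀ ω, d ω ≤ 1) :
    Nice (fun e ω => Real.log (1 + e * d ω)) (fun e ω => d ω / (1 + e * d ω)) where
  meas e := by fun_prop
  meas' e := by fun_prop
  deriv ω e he := by
    have h := one_add_mul_mem he (h0 ω) (h1 ω)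
    have h2 : HasDerivAt (fun e => 1 + e * d ω) (d ω) e := by
      simpa using ((hasDerivAt_id e).mul_const (d ω)).const_add 1
    exact h2.log (by linarith [h.1])
  bdd := by
    refine ⟨2, fun ω e he => ⟨?_, ?_⟩⟩
    · have h := one_add_mul_mem he (h0 ω) (h1 ω)
      have hp : 0 < 1 + e * d ω := by linarith [h.1]
      have k1 := Real.log_le_sub_one_of_pos hp
      have k2 := Real.one_sub_inv_le_log_of_pos hp
      have k3 : (1 + e * d ω)⁻¹ ≤ 2 := by
        rw [inv_le_comm₀ hp (by norm_num)]; linarith [h.1]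
      rw [abs_le]; constructor <;> linarith [h.2]
    · have h := one_add_mul_mem he (h0 ω) (h1 ω)
      have hp : 0 < 1 + e * d ω := by linarith [h.1]
      rw [abs_of_nonneg (div_nonneg (h0 ω) hp.le), div_le_iff₀ hp]
      linarith [h.1, h1 ω]

lemma Nice.res {y d : Ω → ℝ} {s : ℝ} (hs : 0 < s) (hy : Measurable y) (hy0 : ∀ ω, 0 ≤ y ω)
    (hd : Measurable d) (h0 : ∀ ω, 0 ≤ d ω) (h1 : ∀ ω, d ω ≤ 1) :
    Nice (fun e ω => s / (s + y ω * (1 + e * d ω)))
      (fun e ω => -(s * (y ω * d ω)) / (s + y ω * (1 + e * d ω)) ^ 2) where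
  meas e := by fun_prop
  meas' e := by fun_prop
  deriv ω e he := by
    have h := one_add_mul_mem he (h0 ω) (h1 ω)
    have hp : 0 < s + y ω * (1 + e * d ω) := by
      have := mul_nonneg (hy0 ω) (show 0 ≤ 1 + e * d ω by linarith [h.1]); linarith
    have h2 : HasDerivAt (fun e => s + y ω * (1 + e * d ω)) (y ω * d ω) e := by
      simpa using ((((hasDerivAt_id e).mul_const (d ω)).const_add 1).const_mul (y ω)).const_add s
    have h3 := (hasDerivAt_const e s).fun_div h2 hp.ne'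
    simpa only [zero_mul, zero_sub] using h3
  bdd := by
    refine ⟨1, fun ω e he => ?_⟩
    have h := one_add_mul_mem he (h0 ω) (h1 ω)
    have hq : y ω / 2 ≤ y ω * (1 + e * d ω) := by nlinarith [hy0 ω, h.1]
    have hy0' := hy0 ω
    have hp : 0 < s + y ω * (1 + e * d ω) := by linarith
    constructor
    · rw [abs_of_nonneg (div_nonneg hs.le hp.le), div_le_one hp]; linarith
    · rw [neg_div, abs_neg, abs_of_nonneg (div_nonneg
        (mul_nonneg hs.le (mul_nonneg hy0' (h0 ω))) (by positivity)), div_le_one (by positivity)]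
      have k1 : y ω * d ω ≤ y ω := mul_le_of_le_one_right hy0' (h1 ω)
      have k2 : (s + y ω / 2) ^ 2 ≤ (s + y ω * (1 + e * d ω)) ^ 2 := by gcongr
      nlinarith [sq_nonneg (s - y ω / 2), mul_le_mul_of_nonneg_left k1 hs.le,
        mul_nonneg hs.le hy0']

lemma Nice.integral_deriv_eq_zero {F F' : ℝ → Ω → ℝ} (hF : Nice F F') (μ : Measure Ω)
    [IsFiniteMeasure μ] (h : ∀ e, |e| < 1 / 2 → ∫ ω, F e ω ∂μ = ∫ ω, F 0 ω ∂μ) :
    ∫ ω, F' 0 ω ∂μ = 0 := by
  obtain ⟨C, hC⟩ := hF.bdd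
  have hs : {e : ℝ | |e| < 1 / 2} ∈ 𝓝 (0 : ℝ) :=
    (isOpen_lt continuous_abs continuous_const).mem_nhds (by simp)
  have hint : Integrable (F 0) μ :=
    Integrable.of_bound (hF.meas 0).aestronglyMeasurable C
      (Eventually.of_forall fun ω => (hC ω 0 (by simp)).1)
  have key := (hasDerivAt_integral_of_dominated_loc_of_deriv_le (μ := μ) (F := F) (F' := F')
    (bound := fun _ => C) hs (Eventually.of_forall fun e => (hF.meas e).aestronglyMeasurable)
    hint (hF.meas' 0).aestronglyMeasurable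
    (Eventually.of_forall fun ω e he => (hC ω e he).2) (integrable_const C)
    (Eventually.of_forall fun ω e he => hF.deriv ω e he)).2
  have h2 : (fun e => ∫ ω, F e ω ∂μ) =ᶠ[𝓝 0] fun _ => ∫ ω, F 0 ω ∂μ := by
    filter_upwards [hs] with e he using h e he
  exact (key.congr_of_eventuallyEq h2.symm).unique (hasDerivAt_const _ _)

end Pool.Agent.H74Z.Rig
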