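import Pool.Agent.H74Z.RigProb
import Pool.Agent.H74Z.RigNice

open MeasureTheory Set Filter Topology

namespace Pool.Agent.H74Z.Rig

noncomputable def u (t y : ℝ) : ℝ := t / (t + |y|)

lemma u_pos {t : ℝ} (ht : 0 < t) (y : ℝ) : 0 < u t y := by unfold u; positivity

lemma u_le_one {t : ℝ} (ht : 0 < t) (y : ℝ) : u t y ≤ 1 := by
  unfold u; rw [div_le_one (by positivity)]; linarith [abs_nonneg y]

lemma continuous_u {t : ℝ} (ht : 0 < t) : Continuous (u t) := by
  unfold u
  exact continuous_const.div (by fun_prop) (fun y => by positivity)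

lemma measurable_u (t : ℝ) : Measurable (u t) := by unfold u; fun_prop

noncomputable def phi (t e y : ℝ) : ℝ := y * (1 + e * u t y)

lemma phi_pos {t e y : ℝ} (ht : 0 < t) (he : |e| < 1 / 2) (hy : 0 < y) : 0 < phi t e y := by
  have := one_add_mul_mem he (u_pos ht y).le (u_le_one ht y)
  unfold phi
  exact mul_pos hy (by linarith [this.1])

lemma phi_sub {t e y z : ℝ} (ht : 0 < t) (hy : 0 < y) (hz : 0 < z) :
    phi t e y - phi t e z = (y - z) * (1 + e * (u t y * u t z)) := by
  unfold phi u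
  rw [abs_of_pos hy, abs_of_pos hz]
  field_simp
  ring

lemma phi_eq {t e y : ℝ} (ht : 0 < t) (hy : 0 < y) :
    phi t e y = y + e * (t * (1 - u t y)) := by
  unfold phi u
  rw [abs_of_pos hy]
  field_simp
  ring

lemma uu_mem {t : ℝ} (ht : 0 < t) (y z : ℝ) : 0 ≤ u t y * u t z ∧ u t y * u t z ≤ 1 :=
  ⟨mul_nonneg (u_pos ht y).le (u_pos ht z).le,
    mul_le_one₀ (u_le_one ht y) (u_pos ht z).le (u_le_one ht z)⟩

lemma phi_lt {t e y z : ℝ} (ht : 0 < t) (he : |e| < 1 / 2) (hy : 0 < y) (hyz : y < z) :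
    phi t e y < phi t e z := by
  have h := phi_sub (e := e) ht hy (hy.trans hyz)
  have h2 := one_add_mul_mem he (uu_mem ht y z).1 (uu_mem ht y z).2
  have : (y - z) * (1 + e * (u t y * u t z)) < 0 :=
    mul_neg_of_neg_of_pos (by linarith) (by linarith [h2.1])
  linarith

lemma phi_surj {t e z : ℝ} (ht : 0 < t) (he : |e| < 1 / 2) (hz : 0 < z) :
    ∃ y, 0 < y ∧ phi t e y = z := by
  have hc : Continuous (phi t e) := by
    unfold phi
    exact continuous_id.mul (continuous_const.add (continuous_const.mul (continuous_u ht)))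
  have h0 : phi t e 0 = 0 := by simp [phi]
  have h2 : z ≤ phi t e (2 * z) := by
    have := one_add_mul_mem he (u_pos ht (2 * z)).le (u_le_one ht (2 * z))
    unfold phi
    nlinarith [this.1]
  obtain ⟨y, hy, hyz⟩ := intermediate_value_Icc (show (0:ℝ) ≤ 2 * z by linarith) hc.continuousOn
    (show z ∈ Icc (phi t e 0) (phi t e (2 * z)) from ⟨by rw [h0]; exact hz.le, h2⟩)
  refine ⟨y, lt_of_le_of_ne hy.1 ?_, hyz⟩
  rintro rfl
  rw [h0] at hyz; exact hz.ne hyz

lemma hasDerivAt_phi {t e y : ℝ} (ht : 0 < t) (hy : 0 < y) :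
    HasDerivAt (phi t e) (1 + e * (u t y * u t y)) y := by
  have h1 : HasDerivAt (fun y => y * (1 + e * (t / (t + y))))
      (1 * (1 + e * (t / (t + y))) + y * (e * ((0 * (t + y) - t * 1) / (t + y) ^ 2))) y := by
    refine (hasDerivAt_id y).mul (HasDerivAt.const_add _ (HasDerivAt.const_mul _ ?_))
    exact (hasDerivAt_const y t).fun_div ((hasDerivAt_id y).const_add t) (by positivity)
  have h2 : phi t e =ᶠ[𝓝 y] fun y => y * (1 + e * (t / (t + y))) := by
    filter_upwards [lt_mem_nhds hy] with z hz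
    unfold phi u; rw [abs_of_pos hz]
  refine (h1.congr_of_eventuallyEq h2).congr_deriv ?_
  unfold u; rw [abs_of_pos hy]
  field_simp
  ring

noncomputable def Phi (t e : ℝ) {n : ℕ} (x : Fin n → ℝ) : Fin n → ℝ := fun i => phi t e (x i)

lemma Phi_image {t e : ℝ} (ht : 0 < t) (he : |e| < 1 / 2) (n : ℕ) :
    Phi t e '' chamber n = chamber n := by
  ext z
  constructor
  · rintro ⟨x, hx, rfl⟩
    exact ⟨fun i => phi_pos ht he (hx.1 i), fun i j hij => phi_lt ht he (hx.1 i) (hx.2 hij)⟩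
  · intro hz
    choose y hy hyz using fun i => phi_surj ht he (hz.1 i)
    refine ⟨y, ⟨hy, fun i j hij => ?_⟩, funext hyz⟩
    by_contra hcon
    have h1 : z i < z j := hz.2 hij
    rcases (not_lt.1 hcon).eq_or_lt with h | h
    · rw [← hyz i, ← hyz j, h] at h1; exact lt_irrefl _ h1
    · have := phi_lt ht he (hy j) h
      rw [hyz i, hyz j] at this; linarith

lemma Phi_injOn {t e : ℝ} (ht : 0 < t) (he : |e| < 1 / 2) (n : ℕ) :
    InjOn (Phi t e) (chamber n) := by
  intro x hx y hy hxy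
  funext i
  have h : phi t e (x i) = phi t e (y i) := congrFun hxy i
  rcases lt_trichotomy (x i) (y i) with h1 | h1 | h1
  · exact absurd h (phi_lt ht he (hx.1 i) h1).ne
  · exact h1
  · exact absurd h (phi_lt ht he (hy.1 i) h1).ne'

noncomputable def diagMap {n : ℕ} (d : Fin n → ℝ) : (Fin n → ℝ) →L[ℝ] (Fin n → ℝ) :=
  ContinuousLinearMap.pi fun i => d i • ContinuousLinearMap.proj i

lemma det_diagMap {n : ℕ} (d : Fin n → ℝ) : (diagMap d).det = ∏ i, d i := by
  have : (diagMap d : (Fin n → ℝ) →ₗ[ℝ] (Fin n → ℝ)) = Matrix.toLin' (Matrix.diagonal d) := by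
    refine LinearMap.ext fun x => funext fun i => ?_
    simp [diagMap, Matrix.mulVec_diagonal]
  rw [ContinuousLinearMap.det, this, LinearMap.det_toLin', Matrix.det_diagonal]

lemma hasFDerivAt_Phi {t e : ℝ} (ht : 0 < t) {n : ℕ} {x : Fin n → ℝ} (hx : x ∈ chamber n) :
    HasFDerivAt (Phi t e) (diagMap fun i => 1 + e * (u t (x i) * u t (x i))) x := by
  unfold Phi diagMap
  refine hasFDerivAt_pi.2 fun i => ?_
  exact (hasDerivAt_phi (e := e) ht (hx.1 i)).comp_hasFDerivAt x
    (ContinuousLinearMap.proj (R := ℝ) (φ := fun _ : Fin n => ℝ) i).hasFDerivAt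

/-- logarithm of the ratio of densities -/
noncomputable def Lg (β α t e : ℝ) {n : ℕ} (x : Fin n → ℝ) : ℝ :=
  β * (∑ i, ∑ j ∈ Finset.Ioi i, Real.log (1 + e * (u t (x i) * u t (x j)))) +
    ∑ i, (α * Real.log (1 + e * u t (x i)) + Real.log (1 + e * (u t (x i) * u t (x i))) +
      (-(β / 2 * t)) * (e * (1 - u t (x i))))

lemma density_ratio {β a t e : ℝ} (ht : 0 < t) (he : |e| < 1 / 2) {n : ℕ} {x : Fin n → ℝ}
    (hx : x ∈ chamber n) :
    (∏ i, (1 + e * (u t (x i) * u t (x i)))) * lagDensity β a n (Phi t e x) =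
      lagDensity β a n x * Real.exp (Lg β (β / 2 * (a + 1) - 1) t e x) := by
  have hp : ∀ i j, 0 < 1 + e * (u t (x i) * u t (x j)) := fun i j => by
    linarith [(one_add_mul_mem he (uu_mem ht (x i) (x j)).1 (uu_mem ht (x i) (x j)).2).1]
  have hp1 : ∀ i, 0 < 1 + e * u t (x i) := fun i => by
    linarith [(one_add_mul_mem he (u_pos ht (x i)).le (u_le_one ht (x i))).1]
  unfold lagDensity Lg
  set α := β / 2 * (a + 1) - 1
  have h1 : (∏ i, ∏ j ∈ Finset.Ioi i, |Phi t e x i - Phi t e x j| ^ β) =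
      (∏ i, ∏ j ∈ Finset.Ioi i, |x i - x j| ^ β) *
      Real.exp (β * (∑ i, ∑ j ∈ Finset.Ioi i, Real.log (1 + e * (u t (x i) * u t (x j))))) := by
    rw [Finset.mul_sum, Real.exp_sum, ← Finset.prod_mul_distrib]
    refine Finset.prod_congr rfl fun i _ => ?_
    rw [Finset.mul_sum, Real.exp_sum, ← Finset.prod_mul_distrib]
    refine Finset.prod_congr rfl fun j _ => ?_
    unfold Phi
    rw [phi_sub ht (hx.1 i) (hx.1 j), abs_mul, abs_of_pos (hp i j),
      Real.mul_rpow (abs_nonneg _) (hp i j).le, Real.rpow_def_of_pos (hp i j), mul_comm β]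
  rw [h1, Real.exp_add, Real.exp_sum]
  have h2 : (∏ i, (1 + e * (u t (x i) * u t (x i)))) *
      (∏ i, (Phi t e x i ^ α * Real.exp (-(β / 2) * Phi t e x i))) =
      (∏ i, (x i ^ α * Real.exp (-(β / 2) * x i))) *
      ∏ i, Real.exp (α * Real.log (1 + e * u t (x i)) +
        Real.log (1 + e * (u t (x i) * u t (x i))) + (-(β / 2 * t)) * (e * (1 - u t (x i)))) := by
    rw [← Finset.prod_mul_distrib, ← Finset.prod_mul_distrib]
    refine Finset.prod_congr rfl fun i _ => ?_
    have k1 : Phi t e x i ^ α = x i ^ α * Real.exp (α * Real.log (1 + e * u t (x i))) := by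
      unfold Phi phi
      rw [Real.mul_rpow (hx.1 i).le (hp1 i).le, Real.rpow_def_of_pos (hp1 i), mul_comm α]
    have k2 : Real.exp (-(β / 2) * Phi t e x i) = Real.exp (-(β / 2) * x i) *
        Real.exp ((-(β / 2 * t)) * (e * (1 - u t (x i)))) := by
      unfold Phi
      rw [phi_eq ht (hx.1 i), ← Real.exp_add]
      congr 1; ring
    rw [k1, k2, Real.exp_add, Real.exp_add, Real.exp_log (hp i i)]
    ring
  calc _ = ((∏ i, ∏ j ∈ Finset.Ioi i, |x i - x j| ^ β) * Real.exp (β * (∑ i, ∑ j ∈ Finset.Ioi i,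
        Real.log (1 + e * (u t (x i) * u t (x j)))))) *
      ((∏ i, (1 + e * (u t (x i) * u t (x i)))) *
      (∏ i, (Phi t e x i ^ α * Real.exp (-(β / 2) * Phi t e x i)))) := by ring
    _ = _ := by rw [h2]; ring

lemma integral_change {β a t e : ℝ} (ht : 0 < t) (he : |e| < 1 / 2) (n : ℕ)
    (G : (Fin n → ℝ) → ℝ) :
    ∫ x, Real.exp (Lg β (β / 2 * (a + 1) - 1) t e x) * G (Phi t e x) ∂(laguerre β a n) =
      ∫ x, G x ∂(laguerre β a n) := by
  rw [integral_laguerre, integral_laguerre]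
  congr 1
  conv_rhs => rw [← Phi_image ht he n]
  rw [integral_image_eq_integral_abs_det_fderiv_smul volume (measurableSet_chamber n)
    (fun x hx => (hasFDerivAt_Phi ht hx).hasFDerivWithinAt) (Phi_injOn ht he n)]
  refine setIntegral_congr_fun (measurableSet_chamber n) fun x hx => ?_
  have hp : 0 < ∏ i, (1 + e * (u t (x i) * u t (x i))) := Finset.prod_pos fun i _ => by
    linarith [(one_add_mul_mem he (uu_mem ht (x i) (x i)).1 (uu_mem ht (x i) (x i)).2).1]
  simp only [smul_eq_mul]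
  rw [det_diagMap, abs_of_pos hp, ← mul_assoc, ← mul_assoc, density_ratio ht he hx]

noncomputable def XX (t : ℝ) {n : ℕ} (x : Fin n → ℝ) : ℝ := ∑ i, u t (x i)
noncomputable def YY (t : ℝ) {n : ℕ} (x : Fin n → ℝ) : ℝ := ∑ i, u t (x i) * u t (x i)
noncomputable def QQ (t s : ℝ) {n : ℕ} (x : Fin n → ℝ) : ℝ :=
  ∑ i, u t (x i) * (u s (x i) * (1 - u s (x i)))
noncomputable def BB (β α t : ℝ) {n : ℕ} (x : Fin n → ℝ) : ℝ :=
  β / 2 * (XX t x ^ 2 - YY t x) + α * XX t x + YY t x - β / 2 * t * (n - XX t x)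

lemma sum_pairs {n : ℕ} (v : Fin n → ℝ) :
    2 * (∑ i, ∑ j ∈ Finset.Ioi i, v i * v j) = (∑ i, v i) ^ 2 - ∑ i, v i * v i := by
  induction n with
  | zero => simp
  | succ n ih =>
    have := ih (fun i => v i.succ)
    simp only [Fin.sum_univ_succ, Fin.sum_Ioi_zero, Fin.sum_Ioi_succ]
    rw [← Finset.mul_sum]
    linarith

theorem loop_equation {β a t s : ℝ} (hβ : 0 < β) (ha : -1 < a) (ht : 0 < t) (hs : 0 < s)
    (n : ℕ) {g g' : ℝ → ℝ} (hg : ∀ y, HasDerivAt g (g' y) y) (hg' : Continuous g') :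
    ∫ x, (BB β (β / 2 * (a + 1) - 1) t x * g (XX s x) - g' (XX s x) * QQ t s x)
      ∂(laguerre β a n) = 0 := by
  set α := β / 2 * (a + 1) - 1 with hα
  have := isProbabilityMeasure_laguerre hβ ha n
  have mu : ∀ i : Fin n, Measurable fun x : Fin n → ℝ => u t (x i) := fun i =>
    (measurable_u t).comp (measurable_pi_apply i)
  have hL := (Nice.const_mul β (Nice.sum Finset.univ fun i _ => Nice.sum (Finset.Ioi i)
    fun j _ => Nice.log (d := fun x : Fin n → ℝ => u t (x i) * u t (x j)) ((mu i).mul (mu j))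
      (fun x => (uu_mem ht _ _).1) (fun x => (uu_mem ht _ _).2))).add
    (Nice.sum Finset.univ fun i _ =>
      ((Nice.const_mul α (Nice.log (d := fun x : Fin n → ℝ => u t (x i)) (mu i)
        (fun x => (u_pos ht _).le) (fun x => u_le_one ht _))).add
      (Nice.log (d := fun x : Fin n → ℝ => u t (x i) * u t (x i)) ((mu i).mul (mu i))
        (fun x => (uu_mem ht _ _).1) (fun x => (uu_mem ht _ _).2))).add
      (Nice.const_mul (-(β / 2 * t)) (Nice.lin (d := fun x : Fin n → ℝ => 1 - u t (x i))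
        (measurable_const.sub (mu i)) (fun x => by linarith [u_le_one ht (x i)])
        (fun x => by linarith [u_pos ht (x i)]))))
  have hH := Nice.sum Finset.univ fun (i : Fin n) _ =>
    Nice.res (y := fun x : Fin n → ℝ => |x i|) (d := fun x : Fin n → ℝ => u t (x i)) hs
      (by fun_prop) (fun x => abs_nonneg _) (mu i) (fun x => (u_pos ht _).le)
      (fun x => u_le_one ht _)
  have hN := (hL.comp Real.hasDerivAt_exp Real.continuous_exp).mul (hH.comp hg hg')
  have key : ∀ e, |e| < 1 / 2 → ∫ x, Real.exp (Lg β α t e x) *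
      g (∑ i, s / (s + |x i| * (1 + e * u t (x i)))) ∂(laguerre β a n) =
      ∫ x, g (XX s x) ∂(laguerre β a n) := by
    intro e he
    rw [← integral_change ht he n (fun x => g (XX s x))]
    refine integral_congr_ae ?_
    filter_upwards [ae_mem_chamber β a n] with x hx
    congr 2
    unfold XX
    refine Finset.sum_congr rfl fun i _ => ?_
    unfold Phi
    conv_rhs => unfold u
    rw [abs_of_pos (phi_pos ht he (hx.1 i)), abs_of_pos (hx.1 i)]
    rfl
  have h0 := hN.integral_deriv_eq_zero (laguerre β a n) (fun e he => by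
    have h1 := key e he
    have h2 := key 0 (by simp)
    unfold Lg at h1 h2
    exact h1.trans h2.symm)
  rw [← h0]
  refine integral_congr_ae (Eventually.of_forall fun x => ?_)
  simp only [zero_mul, add_zero, Real.log_one, mul_zero, Finset.sum_const_zero, Real.exp_zero,
    one_mul, div_one, mul_one]
  have e1 : (∑ i, s / (s + |x i|)) = XX s x := rfl
  have e2 : (∑ i, -(s * (|x i| * u t (x i))) / (s + |x i|) ^ 2) = -QQ t s x := by
    unfold QQ
    rw [← Finset.sum_neg_distrib]
    refine Finset.sum_congr rfl fun i _ => ?_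
    have : 0 < s + |x i| := by positivity
    conv_rhs => enter [1, 2]; unfold u
    field_simp
    ring
  have e3 : (β * ∑ i, ∑ j ∈ Finset.Ioi i, u t (x i) * u t (x j) +
      ∑ i, (α * u t (x i) + u t (x i) * u t (x i) + -(β / 2 * t) * (1 - u t (x i)))) =
      BB β α t x := by
    have := sum_pairs fun i => u t (x i)
    unfold BB XX YY
    rw [← this, Finset.sum_add_distrib, Finset.sum_add_distrib, ← Finset.mul_sum,
      ← Finset.mul_sum, Finset.sum_sub_distrib]
    simp only [Finset.sum_const, Finset.card_univ, Fintype.card_fin, nsmul_eq_mul, mul_one]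
    ring
  rw [e1, e2, e3]
  ring

end Pool.Agent.H74Z.Rig
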