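import Pool.Agent.H74Z.RigLoop

open MeasureTheory Set Filter Topology

namespace Pool.Agent.H74Z.Rig

section Bdd
variable {Ω : Type*} [MeasurableSpace Ω]

def Bdd (F : Ω → ℝ) : Prop := Measurable F ∧ ∃ C, ∀ x, |F x| ≤ C

lemma Bdd.const (c : ℝ) : Bdd (fun _ : Ω => c) := ⟨measurable_const, |c|, fun _ => le_rfl⟩

lemma Bdd.add {F G : Ω → ℝ} (hF : Bdd F) (hG : Bdd G) : Bdd (fun x => F x + G x) := by
  obtain ⟨h1, C, hC⟩ := hF
  obtain ⟨h2, D, hD⟩ := hG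
  exact ⟨h1.add h2, C + D, fun x => (abs_add_le _ _).trans (add_le_add (hC x) (hD x))⟩

lemma Bdd.mul {F G : Ω → ℝ} (hF : Bdd F) (hG : Bdd G) : Bdd (fun x => F x * G x) := by
  obtain ⟨h1, C, hC⟩ := hF
  obtain ⟨h2, D, hD⟩ := hG
  refine ⟨h1.mul h2, C * D, fun x => ?_⟩
  rw [abs_mul]
  exact mul_le_mul (hC x) (hD x) (abs_nonneg _) ((abs_nonneg _).trans (hC x))

lemma Bdd.sub {F G : Ω → ℝ} (hF : Bdd F) (hG : Bdd G) : Bdd (fun x => F x - G x) := by
  obtain ⟨h1, C, hC⟩ := hF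
  obtain ⟨h2, D, hD⟩ := hG
  exact ⟨h1.sub h2, C + D, fun x => (abs_sub _ _).trans (add_le_add (hC x) (hD x))⟩

lemma Bdd.abs {F : Ω → ℝ} (hF : Bdd F) : Bdd (fun x => |F x|) := by
  obtain ⟨h1, C, hC⟩ := hF
  exact ⟨h1.abs, C, fun x => by rw [abs_abs]; exact hC x⟩

lemma Bdd.pow {F : Ω → ℝ} (hF : Bdd F) (k : ℕ) : Bdd (fun x => F x ^ k) := by
  induction k with
  | zero => simpa using Bdd.const (Ω := Ω) 1
  | succ k ih => simpa [pow_succ] using ih.mul hF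

lemma Bdd.sum {ι : Type*} (s : Finset ι) {F : ι → Ω → ℝ} (h : ∀ i ∈ s, Bdd (F i)) :
    Bdd (fun x => ∑ i ∈ s, F i x) := by
  classical
  induction s using Finset.induction_on with
  | empty => simpa using Bdd.const (Ω := Ω) 0
  | insert a s ha ih =>
    simp only [Finset.sum_insert ha]
    exact (h a (Finset.mem_insert_self _ _)).add
      (ih fun i hi => h i (Finset.mem_insert_of_mem hi))

lemma Bdd.integrable {F : Ω → ℝ} (hF : Bdd F) (μ : Measure Ω) [IsFiniteMeasure μ] :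
    Integrable F μ := by
  obtain ⟨h1, C, hC⟩ := hF
  exact Integrable.of_bound h1.aestronglyMeasurable C (Eventually.of_forall hC)

/-- bounded with mean at most `c` -/
def Ele (μ : Measure Ω) (F : Ω → ℝ) (c : ℝ) : Prop := Bdd F ∧ ∫ x, F x ∂μ ≤ c

variable {μ : Measure Ω} [IsProbabilityMeasure μ]

lemma Ele.const (c : ℝ) : Ele μ (fun _ => c) c := ⟨Bdd.const c, by simp⟩

lemma Ele.add {F G : Ω → ℝ} {c d : ℝ} (hF : Ele μ F c) (hG : Ele μ G d) :
    Ele μ (fun x => F x + G x) (c + d) :=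
  ⟨hF.1.add hG.1, by
    rw [integral_add (hF.1.integrable μ) (hG.1.integrable μ)]; exact add_le_add hF.2 hG.2⟩

omit [IsProbabilityMeasure μ] in
lemma Ele.smul {F : Ω → ℝ} {c : ℝ} (hF : Ele μ F c) {k : ℝ} (hk : 0 ≤ k) :
    Ele μ (fun x => k * F x) (k * c) :=
  ⟨(Bdd.const k).mul hF.1, by
    rw [integral_const_mul]; exact mul_le_mul_of_nonneg_left hF.2 hk⟩

omit [IsProbabilityMeasure μ] in
lemma Ele.zero {F : Ω → ℝ} (hF : Bdd F) (h : ∫ x, F x ∂μ = 0) (k : ℝ) :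
    Ele μ (fun x => k * F x) 0 :=
  ⟨(Bdd.const k).mul hF, by rw [integral_const_mul, h, mul_zero]⟩

lemma Ele.mono_ae {F G : Ω → ℝ} {c d : ℝ} (hG : Ele μ G c) (hF : Bdd F)
    (h : ∀ᵐ x ∂μ, F x ≤ G x) (hcd : c ≤ d) : Ele μ F d :=
  ⟨hF, ((integral_mono_ae (hF.integrable μ) (hG.1.integrable μ) h).trans hG.2).trans hcd⟩

lemma Ele.mono {F G : Ω → ℝ} {c d : ℝ} (hG : Ele μ G c) (hF : Bdd F)
    (h : ∀ x, F x ≤ G x) (hcd : c ≤ d) : Ele μ F d :=
  hG.mono_ae hF (Eventually.of_forall h) hcd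

lemma Ele.sum {ι : Type*} (s : Finset ι) {F : ι → Ω → ℝ} {c : ι → ℝ}
    (h : ∀ i ∈ s, Ele μ (F i) (c i)) :
    Ele μ (fun x => ∑ i ∈ s, F i x) (∑ i ∈ s, c i) := by
  classical
  induction s using Finset.induction_on with
  | empty => simpa using Ele.const (μ := μ) 0
  | insert a s ha ih =>
    simp only [Finset.sum_insert ha]
    exact (h a (Finset.mem_insert_self _ _)).add
      (ih fun i hi => h i (Finset.mem_insert_of_mem hi))

omit [IsProbabilityMeasure μ] in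
lemma Ele.of_smul {F : Ω → ℝ} {c k : ℝ} (hF : Bdd F) (hk : 0 < k)
    (h : Ele μ (fun x => k * F x) c) : Ele μ F (c / k) :=
  ⟨hF, by
    have := h.2
    rw [integral_const_mul] at this
    rw [le_div_iff₀ hk]; linarith⟩

end Bdd

section pointwise
variable {n : ℕ}

lemma bdd_u {t : ℝ} (ht : 0 < t) (i : Fin n) : Bdd (fun x : Fin n → ℝ => u t (x i)) :=
  ⟨(measurable_u t).comp (measurable_pi_apply i), 1, fun x => by
    rw [abs_of_pos (u_pos ht _)]; exact u_le_one ht _⟩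

lemma bdd_XX {t : ℝ} (ht : 0 < t) : Bdd (XX t (n := n)) :=
  Bdd.sum _ fun i _ => bdd_u ht i

lemma bdd_YY {t : ℝ} (ht : 0 < t) : Bdd (YY t (n := n)) :=
  Bdd.sum _ fun i _ => (bdd_u ht i).mul (bdd_u ht i)

lemma bdd_QQ {t s : ℝ} (ht : 0 < t) (hs : 0 < s) : Bdd (QQ t s (n := n)) :=
  Bdd.sum _ fun i _ => (bdd_u ht i).mul ((bdd_u hs i).mul ((Bdd.const 1).sub (bdd_u hs i)))

lemma bdd_BB (β α : ℝ) {t : ℝ} (ht : 0 < t) : Bdd (BB β α t (n := n)) :=
  ((((Bdd.const _).mul (((bdd_XX ht).pow 2).sub (bdd_YY ht))).add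
    ((Bdd.const _).mul (bdd_XX ht))).add (bdd_YY ht)).sub
    ((Bdd.const _).mul ((Bdd.const _).sub (bdd_XX ht)))

lemma XX_nonneg {t : ℝ} (ht : 0 < t) (x : Fin n → ℝ) : 0 ≤ XX t x :=
  Finset.sum_nonneg fun _ _ => (u_pos ht _).le

lemma YY_nonneg {t : ℝ} (x : Fin n → ℝ) : 0 ≤ YY t x :=
  Finset.sum_nonneg fun _ _ => mul_self_nonneg _

lemma YY_le_XX {t : ℝ} (ht : 0 < t) (x : Fin n → ℝ) : YY t x ≤ XX t x :=
  Finset.sum_le_sum fun _ _ => mul_le_of_le_one_right (u_pos ht _).le (u_le_one ht _)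

lemma YY_le_sq {t : ℝ} (ht : 0 < t) (x : Fin n → ℝ) : YY t x ≤ XX t x ^ 2 := by
  have h := sum_pairs fun i => u t (x i)
  have : 0 ≤ ∑ i, ∑ j ∈ Finset.Ioi i, u t (x i) * u t (x j) :=
    Finset.sum_nonneg fun i _ => Finset.sum_nonneg fun j _ => (uu_mem ht _ _).1
  unfold XX YY
  linarith

lemma QQ_nonneg {t s : ℝ} (ht : 0 < t) (hs : 0 < s) (x : Fin n → ℝ) : 0 ≤ QQ t s x :=
  Finset.sum_nonneg fun _ _ => mul_nonneg (u_pos ht _).le
    (mul_nonneg (u_pos hs _).le (by linarith [u_le_one hs (x ‹_›)]))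

lemma QQ_le {t s : ℝ} (ht : 0 < t) (hs : 0 < s) (x : Fin n → ℝ) : QQ t s x ≤ XX s x := by
  refine Finset.sum_le_sum fun i _ => ?_
  have h1 := u_pos ht (x i); have h2 := u_le_one ht (x i)
  have h3 := u_pos hs (x i); have h4 := u_le_one hs (x i)
  have h5 : 0 ≤ u s (x i) * (1 - u s (x i)) := mul_nonneg h3.le (by linarith)
  nlinarith

lemma u_mono {t t' : ℝ} (ht : 0 < t) (h : t ≤ t') (y : ℝ) : u t y ≤ u t' y := by
  unfold u
  have := abs_nonneg y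
  rw [div_le_div_iff₀ (by positivity) (by linarith)]
  nlinarith

lemma XX_mono {t t' : ℝ} (ht : 0 < t) (h : t ≤ t') (x : Fin n → ℝ) : XX t x ≤ XX t' x :=
  Finset.sum_le_sum fun _ _ => u_mono ht h _

lemma u_incr {t δ : ℝ} (ht : 0 < t) (hδ : 0 < δ) (y : ℝ) :
    u (t * (1 + δ)) y - u t y ≤ δ * (u t y - u t y * u t y) ∧
      δ * (u t y - u t y * u t y) ≤ (1 + δ) * (u (t * (1 + δ)) y - u t y) := by
  unfold u
  set z := |y|
  have hz : 0 ≤ z := abs_nonneg y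
  have h1 : t * (1 + δ) / (t * (1 + δ) + z) - t / (t + z)
      = δ * t * z / ((t + z) * (t * (1 + δ) + z)) := by field_simp; ring
  have h2 : δ * (t / (t + z) - t / (t + z) * (t / (t + z))) = δ * t * z / ((t + z) * (t + z)) := by
    field_simp; ring
  rw [h1, h2]
  constructor
  · gcongr
    nlinarith [mul_pos ht hδ]
  · rw [← mul_div_assoc, div_le_div_iff₀ (by positivity) (by positivity)]
    have : 0 ≤ δ * t * z * (t + z) * (δ * z) := by positivity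
    nlinarith

lemma XX_incr {t δ : ℝ} (ht : 0 < t) (hδ : 0 < δ) (x : Fin n → ℝ) :
    XX (t * (1 + δ)) x - XX t x ≤ δ * (XX t x - YY t x) ∧
      δ * (XX t x - YY t x) ≤ (1 + δ) * (XX (t * (1 + δ)) x - XX t x) := by
  unfold XX YY
  rw [← Finset.sum_sub_distrib, ← Finset.sum_sub_distrib, Finset.mul_sum, Finset.mul_sum]
  exact ⟨Finset.sum_le_sum fun i _ => (u_incr ht hδ _).1,
    Finset.sum_le_sum fun i _ => (u_incr ht hδ _).2⟩

end pointwise

lemma poly_bound {b K : ℝ} (hb : 0 < b) (hK : 0 ≤ K) :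
    ∃ C, 0 ≤ C ∧ ∀ v : ℝ, 0 ≤ v → K * (v ^ 3 + v ^ 2 + v) ≤ b * v ^ 4 + C := by
  set M := max 1 (3 * K / b) with hM
  have hM1 : 1 ≤ M := le_max_left _ _
  have hM2 : 3 * K ≤ b * M := by
    have : 3 * K / b ≤ M := le_max_right _ _
    rw [div_le_iff₀ hb] at this; linarith
  refine ⟨K * (M ^ 3 + M ^ 2 + M), by positivity, fun v hv => ?_⟩
  rcases le_total v M with h | h
  · have : K * (v ^ 3 + v ^ 2 + v) ≤ K * (M ^ 3 + M ^ 2 + M) := by gcongr
    have : 0 ≤ b * v ^ 4 := by positivity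
    linarith
  · have hv1 : 1 ≤ v := hM1.trans h
    have k1 : v ^ 2 ≤ v ^ 3 := pow_le_pow_right₀ hv1 (by norm_num)
    have k2 : v ≤ v ^ 3 := le_self_pow₀ hv1 (by norm_num)
    have k3 : K * (v ^ 3 + v ^ 2 + v) ≤ 3 * K * v ^ 3 := by nlinarith
    have k4 : 3 * K * v ^ 3 ≤ b * v * v ^ 3 := by
      have : b * M ≤ b * v := by gcongr
      exact mul_le_mul_of_nonneg_right (by linarith) (by positivity)
    have : 0 ≤ K * (M ^ 3 + M ^ 2 + M) := by positivity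
    nlinarith

/-- the loop equations -/
def LE (β α : ℝ) {n : ℕ} (μ : Measure (Fin n → ℝ)) : Prop :=
  ∀ t s : ℝ, 0 < t → 0 < s → ∀ g g' : ℝ → ℝ, (∀ y, HasDerivAt g (g' y) y) → Continuous g' →
    ∫ x, (BB β α t x * g (XX s x) - g' (XX s x) * QQ t s x) ∂μ = 0

lemma fourth_moment {β α : ℝ} (hβ : 0 < β) :
    ∃ C, 0 ≤ C ∧ ∀ (n : ℕ) (μ : Measure (Fin n → ℝ)) [IsProbabilityMeasure μ], LE β α μ →
      ∀ t r : ℝ, 0 < t → t ≤ 2 → 1 ≤ r → r ^ 2 = t * n →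
        Ele μ (fun x => (XX t x - r) ^ 4) C := by
  set K := |α| + β + |1 - β / 2| + 3 with hK
  have hK0 : 0 ≤ K := by positivity
  obtain ⟨C1, hC1, h1⟩ := poly_bound (b := β / 4) (by positivity) hK0
  obtain ⟨C2, hC2, h2⟩ := poly_bound (b := β / 4) (by positivity) hC1
  refine ⟨(C1 + C2) / (β / 4), by positivity, fun n μ _ hLE t r ht ht2 hr hrt => ?_⟩
  have hw : Bdd (fun x : Fin n → ℝ => XX t x - r) := (bdd_XX ht).sub (Bdd.const r)
  have h0 := hLE t t ht ht (fun y => (y - r) ^ 3) (fun y => 3 * (y - r) ^ 2)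
    (fun y => by simpa using ((hasDerivAt_id y).sub_const r).fun_pow 3) (by fun_prop)
  have hb : Bdd (fun x : Fin n → ℝ => BB β α t x * (XX t x - r) ^ 3 -
      3 * (XX t x - r) ^ 2 * QQ t t x) :=
    ((bdd_BB β α ht).mul (hw.pow 3)).sub (((Bdd.const 3).mul (hw.pow 2)).mul (bdd_QQ ht ht))
  have hr0 : 0 < r := by linarith
  refine Ele.of_smul (hw.pow 4) (by positivity) ?_
  have e1 := (Ele.zero hb h0 r⁻¹).add (Ele.const (μ := μ) (C1 + C2))
  refine e1.mono ((Bdd.const _).mul (hw.pow 4)) (fun x => ?_) (by simp)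
  have hX := XX_nonneg ht x
  have hY0 := YY_nonneg (t := t) x
  have hY := YY_le_XX ht x
  have hQ0 := QQ_nonneg ht ht x
  have hQ := QQ_le ht ht x
  set X := XX t x
  set Y := YY t x
  set Q := QQ t t x
  set w := X - r with hw
  set v := |w| with hv
  have hv0 : 0 ≤ v := abs_nonneg _
  have hv2 : v ^ 2 = w ^ 2 := sq_abs w
  have hv4 : v ^ 4 = w ^ 4 := by
    rw [show v ^ 4 = (v ^ 2) ^ 2 by ring, hv2]; ring
  have hB : BB β α t x = β / 2 * (w * (X + r)) + ((α + β / 2 * t) * X + (1 - β / 2) * Y) := by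
    unfold BB
    have : β / 2 * t * n = β / 2 * r ^ 2 := by rw [hrt]; ring
    rw [hw]
    linear_combination (-1 : ℝ) * this
  have hE : |(α + β / 2 * t) * X + (1 - β / 2) * Y| ≤ (K - 3) * X := by
    have a1 : |α + β / 2 * t| ≤ |α| + β := by
      refine (abs_add_le _ _).trans ?_
      rw [abs_of_nonneg (show 0 ≤ β / 2 * t by positivity)]
      nlinarith
    calc _ ≤ |α + β / 2 * t| * X + |1 - β / 2| * Y := by
          refine (abs_add_le _ _).trans ?_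
          rw [abs_mul, abs_mul, abs_of_nonneg hX, abs_of_nonneg hY0]
      _ ≤ (|α| + β) * X + |1 - β / 2| * X := by gcongr
      _ = _ := by rw [hK]; ring
  have hE3 : -((K - 3) * X * v ^ 3) ≤ ((α + β / 2 * t) * X + (1 - β / 2) * Y) * w ^ 3 := by
    refine le_trans ?_ (neg_abs_le _)
    rw [abs_mul, abs_pow]
    exact neg_le_neg (by gcongr)
  have hK3 : 0 ≤ K - 3 := by rw [hK]; have := abs_nonneg α; have := abs_nonneg (1 - β / 2); linarith
  have p1 : (K - 3) * v ^ 3 + 3 * v ^ 2 ≤ β / 4 * v ^ 4 + C1 := by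
    refine le_trans ?_ (h1 v hv0)
    have : 0 ≤ v ^ 3 := by positivity
    have : 0 ≤ (K - 3) * v ^ 2 := by positivity
    have : 0 ≤ K * v := by positivity
    nlinarith
  have p2 : C1 * v ≤ β / 4 * v ^ 4 + C2 := by
    refine le_trans ?_ (h2 v hv0)
    have : 0 ≤ C1 * (v ^ 3 + v ^ 2) := by positivity
    nlinarith
  have hwv : w ≤ v := le_abs_self w
  have main : r * (β / 4 * w ^ 4 - (C1 + C2)) ≤ BB β α t x * w ^ 3 - 3 * w ^ 2 * Q := by
    rw [hB]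
    have q1 : 3 * w ^ 2 * Q ≤ 3 * v ^ 2 * X := by rw [hv2]; gcongr
    have q2 : X * ((K - 3) * v ^ 3 + 3 * v ^ 2) ≤ X * (β / 4 * v ^ 4 + C1) := by gcongr
    have q3 : 0 ≤ β / 4 * v ^ 4 * X := by positivity
    have q4 : C1 * X ≤ r * (C1 + C1 * v) := by
      have : X = r + w := by rw [hw]; ring
      have : v ≤ r * v := le_mul_of_one_le_left hv0 hr
      nlinarith
    have q5 : r * (C1 * v) ≤ r * (β / 4 * v ^ 4 + C2) := by gcongr
    rw [← hv4]
    have q6 : β / 2 * (w * (X + r)) * w ^ 3 = β / 2 * v ^ 4 * (X + r) := by rw [hv4]; ring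
    nlinarith
  have : β / 4 * w ^ 4 - (C1 + C2) ≤ r⁻¹ * (BB β α t x * w ^ 3 - 3 * w ^ 2 * Q) := by
    rw [le_inv_mul_iff₀ hr0]; exact main
  linarith

end Pool.Agent.H74Z.Rig
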