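import Pool.Agent.H74Z.RigDefs

open MeasureTheory Set Filter Topology
open scoped ENNReal

namespace Pool.Agent.H74Z.Rig

lemma isOpen_chamber (n : ℕ) : IsOpen (chamber n) := by
  have : chamber n = (⋂ i, {x : Fin n → ℝ | 0 < x i}) ∩
      ⋂ i, ⋂ j, {x : Fin n → ℝ | i < j → x i < x j} := by
    ext x
    simp only [chamber, mem_ofPred_eq, mem_inter_iff, mem_iInter]
    exact ⟨fun h => ⟨h.1, fun i j hij => h.2 hij⟩, fun h => ⟨h.1, fun i j hij => h.2 i j hij⟩⟩
  rw [this]
  refine (isOpen_iInter_of_finite fun i => ?_).inter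
    (isOpen_iInter_of_finite fun i => isOpen_iInter_of_finite fun j => ?_)
  · exact isOpen_lt continuous_const (continuous_apply i)
  · by_cases h : i < j
    · simp only [h, forall_const]
      exact isOpen_lt (continuous_apply i) (continuous_apply j)
    · simp [h]

lemma measurableSet_chamber (n : ℕ) : MeasurableSet (chamber n) :=
  (isOpen_chamber n).measurableSet

lemma chamber_nonempty (n : ℕ) : (chamber n).Nonempty := by
  refine ⟨fun i => (i : ℝ) + 1, fun i => by positivity, fun i j hij => ?_⟩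
  have : ((i : ℕ) : ℝ) < ((j : ℕ) : ℝ) := by exact_mod_cast hij
  simpa using this

lemma measurable_lagDensity (β a : ℝ) (n : ℕ) : Measurable (lagDensity β a n) := by
  unfold lagDensity
  fun_prop

lemma lagDensity_pos (β a : ℝ) {n : ℕ} {x : Fin n → ℝ} (hx : x ∈ chamber n) :
    0 < lagDensity β a n x := by
  unfold lagDensity
  refine mul_pos (Finset.prod_pos fun i _ => Finset.prod_pos fun j hj => ?_)
    (Finset.prod_pos fun i _ => mul_pos (Real.rpow_pos_of_pos (hx.1 i) _) (Real.exp_pos _))
  have : x i < x j := hx.2 (Finset.mem_Ioi.1 hj)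
  exact Real.rpow_pos_of_pos (abs_pos.2 (sub_ne_zero.2 this.ne)) _

lemma rpow_le_exp {β δ : ℝ} (hβ : 0 < β) (hδ : 0 < δ) :
    ∃ K : ℝ, 1 ≤ K ∧ ∀ y : ℝ, 0 ≤ y → y ^ β ≤ K * Real.exp (δ * y) := by
  refine ⟨max 1 ((β / δ) ^ β), le_max_left _ _, fun y hy => ?_⟩
  have h1 : δ * y / β ≤ Real.exp (δ * y / β) := by
    have := Real.add_one_le_exp (δ * y / β); linarith
  have h2 : y ≤ (β / δ) * Real.exp (δ * y / β) := by
    have : y = (β / δ) * (δ * y / β) := by field_simp
    calc y = (β / δ) * (δ * y / β) := this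
      _ ≤ _ := by gcongr
  calc y ^ β ≤ ((β / δ) * Real.exp (δ * y / β)) ^ β := by gcongr
    _ = (β / δ) ^ β * Real.exp (δ * y) := by
        rw [Real.mul_rpow (by positivity) (by positivity), ← Real.exp_mul]
        congr 2; field_simp
    _ ≤ _ := by gcongr; exact le_max_right _ _

lemma integrableOn_lagDensity {β a : ℝ} (hβ : 0 < β) (ha : -1 < a) (n : ℕ) :
    IntegrableOn (lagDensity β a n) (chamber n) := by
  set α := β / 2 * (a + 1) - 1 with hα
  have hα1 : -1 < α := by
    have : 0 < β / 2 * (a + 1) := by have : 0 < a + 1 := by linarith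
                                     positivity
    linarith
  obtain ⟨K, hK1, hK⟩ := rpow_le_exp hβ (δ := β / (4 * ((n : ℝ) * n + 1))) (by positivity)
  set g : ℝ → ℝ := (Ioi (0:ℝ)).indicator (fun y => y ^ α * Real.exp (-(β / 4) * y ^ (1:ℝ)))
    with hg
  have hgi : Integrable g := by
    rw [hg, integrable_indicator_iff measurableSet_Ioi]
    exact integrableOn_rpow_mul_exp_neg_mul_rpow hα1 one_pos (by positivity)
  have hprod : Integrable (fun x : Fin n → ℝ => K ^ (n * n) * ∏ i, g (x i)) := by
    refine Integrable.const_mul ?_ _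
    exact Integrable.fintype_prod (μ := fun _ : Fin n => (volume : Measure ℝ))
      (f := fun _ => g) (fun _ => hgi)
  refine Integrable.mono' hprod.integrableOn (measurable_lagDensity β a n).aestronglyMeasurable ?_
  refine (ae_restrict_iff' (measurableSet_chamber n)).2 (Eventually.of_forall fun x hx => ?_)
  rw [Real.norm_eq_abs, abs_of_pos (lagDensity_pos β a hx)]
  set S := ∑ i, x i with hS
  have hS0 : 0 ≤ S := Finset.sum_nonneg fun i _ => (hx.1 i).le
  have hxS : ∀ i, x i ≤ S := fun i =>
    Finset.single_le_sum (f := x) (fun j _ => (hx.1 j).le) (Finset.mem_univ i)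
  set E := K * Real.exp (β / (4 * ((n : ℝ) * n + 1)) * S) with hE
  have hE1 : 1 ≤ E := by
    have : 1 ≤ Real.exp (β / (4 * ((n : ℝ) * n + 1)) * S) := Real.one_le_exp (by positivity)
    nlinarith
  have hpair : ∀ i j, |x i - x j| ^ β ≤ E := by
    intro i j
    have h1 : |x i - x j| ≤ S := by
      have := hx.1 i; have := hx.1 j; have := hxS i; have := hxS j
      rw [abs_le]; constructor <;> linarith
    calc |x i - x j| ^ β ≤ S ^ β := by gcongr
      _ ≤ E := hK S hS0
  have h1 : (∏ i, ∏ j ∈ Finset.Ioi i, |x i - x j| ^ β) ≤ E ^ (n * n) := by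
    calc (∏ i, ∏ j ∈ Finset.Ioi i, |x i - x j| ^ β) ≤ ∏ _i : Fin n, E ^ n := by
          refine Finset.prod_le_prod (fun i _ => Finset.prod_nonneg fun j _ => by positivity)
            (fun i _ => ?_)
          calc (∏ j ∈ Finset.Ioi i, |x i - x j| ^ β) ≤ ∏ _j ∈ Finset.Ioi i, E :=
                Finset.prod_le_prod (fun j _ => by positivity) (fun j _ => hpair i j)
            _ = E ^ (Finset.Ioi i).card := by simp
            _ ≤ E ^ n := by
                refine pow_le_pow_right₀ hE1 ?_
                simpa using Finset.card_le_univ (Finset.Ioi i)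
      _ = E ^ (n * n) := by simp [← pow_mul]
  have h2 : E ^ (n * n) ≤ K ^ (n * n) * Real.exp (β / 4 * S) := by
    rw [hE, mul_pow, ← Real.exp_nat_mul]
    refine mul_le_mul_of_nonneg_left (Real.exp_le_exp.2 ?_) (by positivity)
    push_cast
    have : (n : ℝ) * n * (β / (4 * ((n : ℝ) * n + 1)) * S)
        = (β / 4 * S) * ((n : ℝ) * n / ((n : ℝ) * n + 1)) := by field_simp
    rw [this]
    refine mul_le_of_le_one_right (by positivity) ?_
    rw [div_le_one (by positivity)]; linarith
  have h3 : ∏ i, g (x i) = Real.exp (β / 4 * S) *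
      ∏ i, (x i ^ α * Real.exp (-(β / 2) * x i)) := by
    rw [hS, Finset.mul_sum, Real.exp_sum, ← Finset.prod_mul_distrib]
    refine Finset.prod_congr rfl fun i _ => ?_
    rw [hg, indicator_of_mem (show x i ∈ Ioi (0:ℝ) from hx.1 i), Real.rpow_one,
      mul_left_comm, ← Real.exp_add]
    congr 2; ring
  have h4 : 0 ≤ ∏ i, (x i ^ α * Real.exp (-(β / 2) * x i)) :=
    Finset.prod_nonneg fun i _ => mul_nonneg (Real.rpow_nonneg (hx.1 i).le _) (Real.exp_pos _).le
  rw [h3, ← mul_assoc]
  unfold lagDensity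
  exact mul_le_mul_of_nonneg_right (h1.trans h2) h4

lemma lagWeight_univ_lt_top {β a : ℝ} (hβ : 0 < β) (ha : -1 < a) (n : ℕ) :
    lagWeight β a n univ < ∞ := by
  unfold lagWeight
  rw [withDensity_apply _ MeasurableSet.univ, Measure.restrict_univ]
  exact (integrableOn_lagDensity hβ ha n).lintegral_lt_top

lemma lagWeight_univ_ne_zero (β a : ℝ) (n : ℕ) : lagWeight β a n univ ≠ 0 := by
  unfold lagWeight
  rw [withDensity_apply _ MeasurableSet.univ, Measure.restrict_univ]
  intro h
  rw [lintegral_eq_zero_iff (measurable_lagDensity β a n).ennreal_ofReal] at h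
  have h2 : ∀ᵐ x ∂(volume.restrict (chamber n)), False := by
    filter_upwards [h, ae_restrict_mem (measurableSet_chamber n)] with x h1 hx
    have := lagDensity_pos β a hx
    simp only [Pi.zero_apply, ENNReal.ofReal_eq_zero] at h1
    linarith
  rw [ae_iff] at h2
  simp only [not_false_eq_true, ofPred_true, MeasurableSet.univ, Measure.restrict_apply,
    univ_inter] at h2
  exact ((isOpen_chamber n).measure_pos volume (chamber_nonempty n)).ne' h2

lemma isProbabilityMeasure_laguerre {β a : ℝ} (hβ : 0 < β) (ha : -1 < a) (n : ℕ) :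
    IsProbabilityMeasure (laguerre β a n) := by
  constructor
  unfold laguerre
  rw [Measure.smul_apply, smul_eq_mul]
  exact ENNReal.inv_mul_cancel (lagWeight_univ_ne_zero β a n) (lagWeight_univ_lt_top hβ ha n).ne

lemma integral_laguerre (β a : ℝ) (n : ℕ) (F : (Fin n → ℝ) → ℝ) :
    ∫ x, F x ∂(laguerre β a n) =
      ((lagWeight β a n univ)⁻¹).toReal * ∫ x in chamber n, lagDensity β a n x * F x := by
  unfold laguerre
  rw [integral_smul_measure, smul_eq_mul]
  congr 1
  unfold lagWeight
  rw [integral_withDensity_eq_integral_toReal_smul (measurable_lagDensity β a n).ennreal_ofReal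
    (Eventually.of_forall fun _ => ENNReal.ofReal_lt_top)]
  refine setIntegral_congr_fun (measurableSet_chamber n) fun x hx => ?_
  simp only [smul_eq_mul]
  rw [ENNReal.toReal_ofReal (lagDensity_pos β a hx).le]

lemma ae_mem_chamber (β a : ℝ) (n : ℕ) : ∀ᵐ x ∂(laguerre β a n), x ∈ chamber n := by
  unfold laguerre
  refine Measure.ae_smul_measure ?_ _
  unfold lagWeight
  exact (withDensity_absolutelyContinuous _ _).ae_le (ae_restrict_mem (measurableSet_chamber n))

end Pool.Agent.H74Z.Rig
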